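import Pool.Agent.Lib.MP_dd84fd_nt.FA.Defs
import Pool.Agent.Lib.MP_dd84fd_nt.LS.Four
import Pool.Agent.Lib.MP_dd84fd_nt.E2.FBound
import Pool.Agent.Lib.MP_dd84fd_nt.E2.MinorP

/-!
# FA-Lip (0.7 h): elementary facts about `W` and `FF`

`uu_eq`, `vv_eq`: `LS.tr_add`-like splitting of `tr` (`tr (ip - f2) = tr ip - tr f2` by `sum_congr`/`sum_sub_distrib`), `LS.tr_ip`, `LS.tr_f2`.
`fn_grid`: the two and `χ(-n j) = ee (-(n al))`: `LS.conj_chi` and `LS.chi_ee` (the conjugate of `ee y` is `ee (-y)`), or `ZMod.stdAddChar_coe` with the integer `-(n * j.val)`.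
`ws_facts`: `W s w X θ = Σ_{m ∈ Icc 1 X} (ip m + s f2 w m) ee (m θ)` with `|ip m + s f2 w m| ≤ 3 L` for `s = ±1` (see `GX.Nrm`, `nrm_f`: `f1 w m ≤ L` by `E2.f1_le`,
`f2 w 1 = 0`, `log m ≥ log 2 > 2/3`): `‖W‖ ≤ 3 X L`; `‖ee a - ee b‖ ≤ 2π |a - b|` (or any absolute constant `≤ 7`), so `‖W x - W y‖ ≤ 3 L · 7 X² |x - y|`; periodic since `ee (y + m) = ee y`.
`fn_facts`: product of three factors, `‖FF x - FF y‖ ≤ (2 · 3 X L · 21 L X² + 9 X² L² · 7 X) |x - y| ≤ X^4 |x - y|` for large `X`.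
-/

set_option autoImplicit false

namespace Pool.MP_dd84fd_nt.FA

open Finset Pool.MP_67663b_nt.Odd Pool.MP_dd84fd_nt.En Pool.MP_dd84fd_nt.E2 Pool.MP_dd84fd_nt.LS
  Pool.MP_dd84fd_nt.GX

open Pool.MP_dd84fd_nt.L2G (nrm)

open Pool.MP_dd84fd_nt.PL (W FF rr)

private theorem ee_norm1 (x : ℝ) : ‖ee x‖ = 1 := norm_ee x

theorem ee_lip (a b : ℝ) : ‖ee a - ee b‖ ≤ 7 * |a - b| := by
  have h1 : ee a - ee b = ee b * (ee (a - b) - 1) := by
    rw [mul_sub, ← ee_add, mul_one]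
    congr 2
    ring
  have h2 : ee (a - b) = Complex.exp (Complex.I * ((2 * Real.pi * (a - b) : ℝ) : ℂ)) := by
    unfold ee
    congr 1
    push_cast
    ring
  rw [h1, norm_mul, norm_ee, one_mul, h2]
  refine (Real.norm_exp_I_mul_ofReal_sub_one_le).trans ?_
  rw [Real.norm_eq_abs, abs_mul, abs_of_pos (by positivity)]
  have := Real.pi_lt_d2
  gcongr
  linarith

theorem uu_eq (G : ℕ) [NeZero G] (X w : ℕ) (j : ZMod G) : UU G X w j = W (-1) w X (al G j) := by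
  unfold UU W al
  rw [← tr_ip, ← tr_f2]
  unfold tr
  push_cast
  rw [neg_one_mul, ← sub_eq_add_neg, ← Finset.sum_sub_distrib]
  refine Finset.sum_congr rfl fun n _ => ?_
  ring

theorem vv_eq (G : ℕ) [NeZero G] (X w : ℕ) (j : ZMod G) : VV G X w j = W 1 w X (al G j) := by
  unfold VV W al
  rw [← tr_ip, ← tr_f2, tr_add]
  push_cast
  rw [one_mul]

theorem fn_grid (G : ℕ) [NeZero G] (X w n : ℕ) (j : ZMod G) :
    UU G X w j * VV G X w j * ZMod.stdAddChar (-((n : ZMod G) * j)) = FF w X n (al G j) := by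
  have h : (ZMod.stdAddChar (-((n : ZMod G) * j)) : ℂ) = ee (-((n : ℝ) * al G j)) := by
    rw [← conj_chi, chi_ee]
    unfold ee al
    rw [← Complex.exp_conj]
    congr 1
    simp only [map_mul, Complex.conj_I, Complex.conj_ofReal, map_ofNat]
    push_cast
    ring
  unfold PL.FF
  rw [uu_eq, vv_eq, h]

/-- coefficients of `W s` for `s = ± 1` -/
theorem w_sum (s : ℝ) (X w : ℕ) (θ : ℝ) :
    W s w X θ = ∑ m ∈ Icc 1 X, ((ip m + s * f2 w m : ℝ) : ℂ) * ee ((m : ℝ) * θ) := by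
  unfold W P1 F2 ip
  rw [Finset.sum_filter, Finset.mul_sum, ← Finset.sum_add_distrib]
  refine Finset.sum_congr rfl fun m _ => ?_
  split_ifs
  · push_cast
    ring
  · push_cast
    ring

theorem w_coef (D' : ℕ) : ∃ X0 : ℕ, ∀ X : ℕ, X0 ≤ X → ∀ w : ℕ, (w : ℝ) ≤ (Real.log X) ^ D' →
    ∀ s : ℝ, |s| ≤ 1 → ∀ m : ℕ, 1 ≤ m → |ip m + s * f2 w m| ≤ 3 * Real.log X := by
  obtain ⟨X1, hX1⟩ := f1_le D'
  refine ⟨max X1 3, fun X hX w hw s hs m hm => ?_⟩
  have hXX1 : X1 ≤ X := (le_max_left _ _).trans hX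
  have hX3 : 3 ≤ X := (le_max_right _ _).trans hX
  have hL : 1 ≤ Real.log (X : ℝ) := by
    rw [Real.le_log_iff_exp_le (by exact_mod_cast (by omega : 0 < X))]
    have h1 := Real.exp_one_lt_d9
    have h2 : (3 : ℝ) ≤ X := by exact_mod_cast hX3
    linarith
  obtain ⟨_, hf⟩ := hX1 X hXX1 w hw
  have h0 : |ip m| ≤ 1 := by
    unfold ip
    split_ifs <;> simp
  have h1 : 0 ≤ f2 w m := by
    unfold f2
    exact div_nonneg (f1_nonneg w m) (Real.log_natCast_nonneg m)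
  have h2 : f2 w m ≤ 3 / 2 * Real.log (X : ℝ) := by
    unfold f2
    rcases Nat.eq_or_lt_of_le hm with h3 | h3
    · rw [← h3, Nat.cast_one, Real.log_one, div_zero]
      positivity
    · have h4 : Real.log 2 ≤ Real.log (m : ℝ) :=
        Real.log_le_log (by norm_num) (by exact_mod_cast h3)
      have h5 : (2 : ℝ) / 3 < Real.log 2 := by
        have := Real.log_two_gt_d9
        linarith
      have h6 : (2 : ℝ) / 3 ≤ Real.log (m : ℝ) := h5.le.trans h4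
      rw [div_le_iff₀ (by linarith)]
      have h7 := hf m
      have h8 : 3 / 2 * Real.log (X : ℝ) * (2 / 3) ≤ 3 / 2 * Real.log (X : ℝ) * Real.log (m : ℝ) :=
        mul_le_mul_of_nonneg_left h6 (by positivity)
      linarith
  have h3 : |s * f2 w m| ≤ f2 w m := by
    rw [abs_mul, abs_of_nonneg h1]
    exact mul_le_of_le_one_left h1 hs
  calc |ip m + s * f2 w m| ≤ |ip m| + |s * f2 w m| := abs_add_le _ _
    _ ≤ 3 * Real.log X := by linarith

theorem ws_facts (D' : ℕ) : ∃ X0 : ℕ, ∀ X : ℕ, X0 ≤ X → ∀ w : ℕ, (w : ℝ) ≤ (Real.log X) ^ D' →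
    ∀ s : ℝ, |s| ≤ 1 → (∀ x, W s w X (x + 1) = W s w X x) ∧
      (∀ x, ‖W s w X x‖ ≤ 3 * X * Real.log X) ∧
      (∀ x y, ‖W s w X x - W s w X y‖ ≤ 21 * (X : ℝ) ^ 2 * Real.log X * |x - y|) := by
  obtain ⟨X1, hX1⟩ := w_coef D'
  refine ⟨X1, fun X hX w hw s hs => ?_⟩
  have hc := hX1 X hX w hw s hs
  have hL0 : 0 ≤ Real.log (X : ℝ) := Real.log_natCast_nonneg X
  refine ⟨?_, ?_, ?_⟩
  · intro x
    rw [w_sum, w_sum]
    refine Finset.sum_congr rfl fun m _ => ?_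
    congr 1
    have : (m : ℝ) * (x + 1) = (m : ℝ) * x + ((m : ℤ) : ℝ) := by push_cast; ring
    rw [this, ee_add_int]
  · intro x
    rw [w_sum]
    refine (norm_sum_le _ _).trans ?_
    have h1 : ∑ m ∈ Icc 1 X, ‖((ip m + s * f2 w m : ℝ) : ℂ) * ee ((m : ℝ) * x)‖ ≤
        ∑ _m ∈ Icc 1 X, 3 * Real.log X := by
      refine Finset.sum_le_sum fun m hm => ?_
      rw [norm_mul, norm_ee, mul_one, Complex.norm_real, Real.norm_eq_abs]
      exact hc m (Finset.mem_Icc.mp hm).1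
    refine h1.trans (le_of_eq ?_)
    rw [Finset.sum_const, Nat.card_Icc, nsmul_eq_mul, Nat.add_sub_cancel]
    ring
  · intro x y
    rw [w_sum, w_sum, ← Finset.sum_sub_distrib]
    refine (norm_sum_le _ _).trans ?_
    have h1 : ∑ m ∈ Icc 1 X, ‖((ip m + s * f2 w m : ℝ) : ℂ) * ee ((m : ℝ) * x) -
        ((ip m + s * f2 w m : ℝ) : ℂ) * ee ((m : ℝ) * y)‖ ≤
        ∑ _m ∈ Icc 1 X, 3 * Real.log X * (7 * (X * |x - y|)) := by
      refine Finset.sum_le_sum fun m hm => ?_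
      obtain ⟨hm1, hm2⟩ := Finset.mem_Icc.mp hm
      rw [← mul_sub, norm_mul, Complex.norm_real, Real.norm_eq_abs]
      refine mul_le_mul (hc m hm1) ?_ (norm_nonneg _) (by positivity)
      refine (ee_lip _ _).trans ?_
      rw [← mul_sub, abs_mul, abs_of_nonneg (Nat.cast_nonneg m)]
      have : (m : ℝ) ≤ X := by exact_mod_cast hm2
      gcongr
    refine h1.trans (le_of_eq ?_)
    rw [Finset.sum_const, Nat.card_Icc, nsmul_eq_mul, Nat.add_sub_cancel]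
    ring

theorem fn_facts (D' : ℕ) : ∃ X0 : ℕ, ∀ X : ℕ, X0 ≤ X → ∀ w : ℕ, (w : ℝ) ≤ (Real.log X) ^ D' →
    ∀ n : ℕ, n ≤ X → (∀ x, FF w X n (x + 1) = FF w X n x) ∧
      (∀ x y, ‖FF w X n x - FF w X n y‖ ≤ (X : ℝ) ^ 4 * |x - y|) ∧
      ∀ x, ‖FF w X n x‖ ≤ (X : ℝ) ^ 3 := by
  obtain ⟨X1, hX1⟩ := ws_facts D'
  obtain ⟨X2, hX2⟩ := MP_log_pow 189 2 (show (0 : ℝ) < 1 by norm_num)
  refine ⟨max (max X1 X2) 1, fun X hX w hw n hn => ?_⟩
  have h1 : X1 ≤ X := (le_max_left _ _).trans ((le_max_left _ _).trans hX)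
  have h2 : X2 ≤ X := (le_max_right _ _).trans ((le_max_left _ _).trans hX)
  have h3 : 1 ≤ X := (le_max_right _ _).trans hX
  obtain ⟨p1, b1, l1⟩ := hX1 X h1 w hw (-1) (by norm_num)
  obtain ⟨p2, b2, l2⟩ := hX1 X h1 w hw 1 (by norm_num)
  have hlog : 189 * Real.log (X : ℝ) ^ 2 ≤ X := by
    have := hX2 X h2
    rwa [Real.rpow_one] at this
  have hL0 : 0 ≤ Real.log (X : ℝ) := Real.log_natCast_nonneg X
  have hX0 : (0 : ℝ) < X := by exact_mod_cast h3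
  have hnX : (n : ℝ) ≤ X := by exact_mod_cast hn
  refine ⟨?_, ?_, ?_⟩
  · intro x
    unfold PL.FF
    rw [p1, p2]
    congr 1
    have : -((n : ℝ) * (x + 1)) = -((n : ℝ) * x) + ((-(n : ℤ) : ℤ) : ℝ) := by push_cast; ring
    rw [this, ee_add_int]
  · intro x y
    unfold PL.FF
    have e : W (-1) w X x * W 1 w X x * ee (-((n : ℝ) * x)) -
        W (-1) w X y * W 1 w X y * ee (-((n : ℝ) * y)) =
        (W (-1) w X x - W (-1) w X y) * W 1 w X x * ee (-((n : ℝ) * x)) +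
        W (-1) w X y * (W 1 w X x - W 1 w X y) * ee (-((n : ℝ) * x)) +
        W (-1) w X y * W 1 w X y * (ee (-((n : ℝ) * x)) - ee (-((n : ℝ) * y))) := by ring
    rw [e]
    refine norm_add₃_le.trans ?_
    have c1 : ‖(W (-1) w X x - W (-1) w X y) * W 1 w X x * ee (-((n : ℝ) * x))‖ ≤
        (21 * (X : ℝ) ^ 2 * Real.log X * |x - y|) * (3 * X * Real.log X) := by
      rw [norm_mul, norm_ee, mul_one, norm_mul]
      exact mul_le_mul (l1 x y) (b2 x) (norm_nonneg _) (by positivity)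
    have c2 : ‖W (-1) w X y * (W 1 w X x - W 1 w X y) * ee (-((n : ℝ) * x))‖ ≤
        (3 * X * Real.log X) * (21 * (X : ℝ) ^ 2 * Real.log X * |x - y|) := by
      rw [norm_mul, norm_ee, mul_one, norm_mul]
      exact mul_le_mul (b1 y) (l2 x y) (norm_nonneg _) (by positivity)
    have c3 : ‖W (-1) w X y * W 1 w X y * (ee (-((n : ℝ) * x)) - ee (-((n : ℝ) * y)))‖ ≤
        (3 * X * Real.log X) * (3 * X * Real.log X) * (7 * (X * |x - y|)) := by
      rw [norm_mul, norm_mul]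
      refine mul_le_mul (mul_le_mul (b1 y) (b2 y) (norm_nonneg _) (by positivity)) ?_
        (norm_nonneg _) (by positivity)
      refine (ee_lip _ _).trans ?_
      have e2 : -((n : ℝ) * x) - -((n : ℝ) * y) = -((n : ℝ) * (x - y)) := by ring
      rw [e2, abs_neg, abs_mul, abs_of_nonneg (Nat.cast_nonneg n)]
      gcongr
    have habs := abs_nonneg (x - y)
    calc _ ≤ (21 * (X : ℝ) ^ 2 * Real.log X * |x - y|) * (3 * X * Real.log X) +
          (3 * X * Real.log X) * (21 * (X : ℝ) ^ 2 * Real.log X * |x - y|) +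
          (3 * X * Real.log X) * (3 * X * Real.log X) * (7 * (X * |x - y|)) := add_le_add (add_le_add c1 c2) c3
      _ = (189 * Real.log (X : ℝ) ^ 2) * ((X : ℝ) ^ 3 * |x - y|) := by ring
      _ ≤ X * ((X : ℝ) ^ 3 * |x - y|) := by gcongr
      _ = _ := by ring
  · intro x
    unfold PL.FF
    rw [norm_mul, norm_ee, mul_one, norm_mul]
    calc ‖W (-1) w X x‖ * ‖W 1 w X x‖ ≤ (3 * X * Real.log X) * (3 * X * Real.log X) :=
          mul_le_mul (b1 x) (b2 x) (norm_nonneg _) (by positivity)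
      _ = (9 * Real.log (X : ℝ) ^ 2) * (X : ℝ) ^ 2 := by ring
      _ ≤ (189 * Real.log (X : ℝ) ^ 2) * (X : ℝ) ^ 2 := by gcongr; norm_num
      _ ≤ X * (X : ℝ) ^ 2 := by gcongr
      _ = _ := by ring

end Pool.MP_dd84fd_nt.FA
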