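import Pool.Agent.Lib.MP_dd84fd_nt.FA.Defs
import Pool.Agent.Lib.MP_dd84fd_nt.FA.Lip

/-!
# FA-ArcN (0.4 h): arcs and absolute values

`arc_le`: `‖∫_{u/X}^{v/X} Fn (a/q + x)‖ ≤ ∫_{u/X}^{v/X} ‖W W (a/q + x)‖` (`‖ee‖ = 1`, `intervalIntegral.norm_integral_le_integral_norm`), and for the other one the substitution `x → -x`
(`intervalIntegral.integral_comp_neg`): `∫_{-v/X}^{-u/X} ‖W W (a/q + x)‖`. Both intervals are in `[-v'/X, v'/X]` and overlap at most in `0`: the sum is `≤ ∫_{-v'/X}^{v'/X}`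
(`integral_add_adjacent_intervals`, nonnegative integrand; `W` is continuous: finite sum of `ee`).
-/

set_option autoImplicit false

namespace Pool.MP_dd84fd_nt.FA

open Finset Pool.MP_67663b_nt.Odd Pool.MP_dd84fd_nt.En Pool.MP_dd84fd_nt.E2 Pool.MP_dd84fd_nt.LS
  Pool.MP_dd84fd_nt.GX

open Pool.MP_dd84fd_nt.L2G (nrm)

open Pool.MP_dd84fd_nt.PL (W FF rr)

theorem arcn_ee_cont (n : ℝ) : Continuous (fun θ : ℝ => ee (n * θ)) := by
  unfold ee
  fun_prop

theorem w_cont (s : ℝ) (X w : ℕ) : Continuous (W s w X) := by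
  have h : W s w X = fun θ => ∑ m ∈ Icc 1 X, ((ip m + s * f2 w m : ℝ) : ℂ) * ee ((m : ℝ) * θ) := by
    funext θ
    exact w_sum s X w θ
  rw [h]
  exact continuous_finsetSum _ fun m _ => continuous_const.mul (arcn_ee_cont m)

theorem arcn_cont (X w q a : ℕ) : Continuous (fun x : ℝ =>
    ‖W (-1) w X ((a : ℝ) / q + x) * W 1 w X ((a : ℝ) / q + x)‖) := by
  have h1 := w_cont (-1) X w
  have h2 := w_cont 1 X w
  fun_prop

theorem arcn_norm (X w n : ℕ) (θ : ℝ) : ‖Pool.MP_dd84fd_nt.PL.FF w X n θ‖ = ‖W (-1) w X θ * W 1 w X θ‖ := by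
  unfold Pool.MP_dd84fd_nt.PL.FF
  rw [norm_mul, norm_ee, mul_one]

theorem arc_le (X w n q : ℕ) (hX : 1 ≤ X) (u v v' : ℝ) (hu : 0 ≤ u) (huv : u ≤ v) (hv : v ≤ v') :
    ‖arc (FF w X n) X q u v‖ ≤ arcN w X q v' := by
  have hX0 : (0 : ℝ) < X := by exact_mod_cast hX
  unfold arc arcN
  refine (norm_sum_le _ _).trans (sum_le_sum fun a _ => ?_)
  obtain ⟨g, hg⟩ : ∃ g : ℝ → ℝ, g = fun x : ℝ =>
    ‖W (-1) w X ((a : ℝ) / q + x) * W 1 w X ((a : ℝ) / q + x)‖ := ⟨_, rfl⟩
  have hgc : Continuous g := by rw [hg]; exact arcn_cont X w q a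
  have hg0 : ∀ x, 0 ≤ g x := fun x => by rw [hg]; exact norm_nonneg _
  have hi : ∀ s t : ℝ, IntervalIntegrable g MeasureTheory.volume s t := fun s t =>
    hgc.intervalIntegrable s t
  have huX : 0 ≤ u / X := by positivity
  have huvX : u / X ≤ v / X := div_le_div_of_nonneg_right huv hX0.le
  have hvX : v / X ≤ v' / X := div_le_div_of_nonneg_right hv hX0.le
  have h1 : ‖∫ x in (u / X)..(v / X), FF w X n ((a : ℝ) / q + x)‖ ≤
      ∫ x in (u / X)..(v / X), g x := by
    refine (intervalIntegral.norm_integral_le_integral_norm huvX).trans (le_of_eq ?_)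
    apply intervalIntegral.integral_congr
    intro x _
    simp only
    rw [arcn_norm, hg]
  have h2 : ‖∫ x in (u / X)..(v / X), FF w X n ((a : ℝ) / q - x)‖ ≤
      ∫ x in (-(v / X))..(-(u / X)), g x := by
    refine (intervalIntegral.norm_integral_le_integral_norm huvX).trans (le_of_eq ?_)
    rw [← intervalIntegral.integral_comp_neg (f := g)]
    apply intervalIntegral.integral_congr
    intro x _
    simp only
    rw [arcn_norm, hg]
    simp only
    rw [← sub_eq_add_neg]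
  have h3 : ∫ x in (u / X)..(v / X), g x ≤ ∫ x in (0 : ℝ)..(v' / X), g x :=
    intervalIntegral.integral_mono_interval huX huvX hvX (Filter.Eventually.of_forall hg0) (hi _ _)
  have h4 : ∫ x in (-(v / X))..(-(u / X)), g x ≤ ∫ x in (-(v' / X))..(0 : ℝ), g x :=
    intervalIntegral.integral_mono_interval (by linarith) (by linarith) (by linarith)
      (Filter.Eventually.of_forall hg0) (hi _ _)
  have h5 := intervalIntegral.integral_add_adjacent_intervals (hi (-(v' / X)) 0) (hi 0 (v' / X))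
  have h6 : ∫ x in (-(v' / X))..(v' / X),
      ‖W (-1) w X ((a : ℝ) / q + x) * W 1 w X ((a : ℝ) / q + x)‖ =
      ∫ x in (-(v' / X))..(v' / X), g x := by rw [hg]
  rw [h6, ← h5]
  refine (norm_add_le _ _).trans ?_
  linarith

theorem arcN_nonneg (X w q : ℕ) (v : ℝ) (hv : 0 ≤ v) : 0 ≤ arcN w X q v := by
  unfold arcN
  apply sum_nonneg
  intro a _
  apply intervalIntegral.integral_nonneg
  · have : 0 ≤ v / X := by positivity
    linarith
  · intro x _
    exact norm_nonneg _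

end Pool.MP_dd84fd_nt.FA
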