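import Pool.Agent.Lib.MP_dd84fd_nt.FA.Defs
import Pool.Agent.Lib.MP_dd84fd_nt.FA.Lip
import Pool.Agent.Lib.MP_dd84fd_nt.GX.Den
import Pool.Agent.Lib.MP_67663b_nt.OddB.LSieve

/-!
# FA-Centre (0.8 h): the centres of the arcs

`‖Ph cw n‖ ≤ (1/G) Σ_{j central} ‖U_j‖ ‖V_j‖ ≤ (1/(2G)) Σ_{j central} (‖U_j‖² + ‖V_j‖²)`. For `j` central: `q = qd X (al j) ≤ Nat.sqrt X`, `a = round (q al)`, `G = q m` (`Grid`), `s(j) = j.val - a m` (integer):
`q s/G = q al - a`, `|s| X/G = X nrm (q al)/q < 2^(log_2 q)/(2^I q) ≤ 1/2^I`, so `|s| ≤ S = ⌊G/(2^I X)⌋`. For fixed `s` the points `al j`, `s(j) = s`, satisfy `|al j - al j' - z| ≥ 1/(q q') ≥ 1/X` (`j ≠ j'`): `al j - al j' - z = a/q - a'/q' - z`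
is not `0` (`al` is injective with values in `[0, 1)`). `large_sieve_c` (namespace `Pool.MP_67663b_nt.Odd`, `δ = 1/X`, `N = X`, coefficients from `w_sum`, `w_coef`):
`Σ_{j : s(j) = s} ‖W(al j)‖² ≤ (X + 4π X) · X · 9 L² ≤ 130 X² L²`. Number of `s`: `2S + 1`. Total `≤ (1/G)(2G/(2^I X) + 1) 130 X² L² = 260 X L²/2^I + 130 X² L²/G`, `G ≥ X^10`.
-/

set_option autoImplicit false

namespace Pool.MP_dd84fd_nt.FA

open Finset Pool.MP_67663b_nt.Odd Pool.MP_dd84fd_nt.En Pool.MP_dd84fd_nt.E2 Pool.MP_dd84fd_nt.LS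
  Pool.MP_dd84fd_nt.GX

open Pool.MP_dd84fd_nt.L2G (nrm)

open Pool.MP_dd84fd_nt.PL (W FF rr)

private theorem ce_al (G : ℕ) [NeZero G] (j : ZMod G) : 0 ≤ al G j ∧ al G j < 1 := by
  have hG : (0 : ℝ) < G := by exact_mod_cast Nat.pos_of_ne_zero (NeZero.ne G)
  unfold al
  constructor
  · positivity
  · rw [div_lt_one hG]
    exact_mod_cast ZMod.val_lt j

private theorem ce_inj (G : ℕ) [NeZero G] (i j : ZMod G) (h : al G i = al G j) : i = j := by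
  have hG : (0 : ℝ) < G := by exact_mod_cast Nat.pos_of_ne_zero (NeZero.ne G)
  unfold al at h
  rw [div_left_inj' hG.ne'] at h
  exact ZMod.val_injective G (by exact_mod_cast h)

/-- the displacement from the nearest fraction, in grid steps -/
private noncomputable def ceS (G X : ℕ) (j : ZMod G) : ℤ :=
  (j.val : ℤ) - round ((qd X (al G j) : ℝ) * al G j) * ((G / qd X (al G j) : ℕ) : ℤ)

private theorem ce_dvd (G X : ℕ) (hX : 1 ≤ X) (hG : Grid X G) (j : ZMod G) :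
    qd X (al G j) ∣ G := by
  obtain ⟨q1, q2, -, -⟩ := qd_spec X hX (al G j)
  have h := hG.2.2 (qd X (al G j)) 0 q1 (q2.trans (Nat.sqrt_le_self X)) (Nat.zero_le _)
  exact Dvd.dvd.trans ⟨2 ^ 0 * X, by ring⟩ h

private theorem ce_s (G X : ℕ) [NeZero G] (hX : 1 ≤ X) (hG : Grid X G) (j : ZMod G) :
    (ceS G X j : ℝ) / G = al G j -
      (round ((qd X (al G j) : ℝ) * al G j) : ℝ) / (qd X (al G j) : ℝ) := by
  obtain ⟨q1, q2, -, -⟩ := qd_spec X hX (al G j)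
  have hd := ce_dvd G X hX hG j
  have hG0 : (G : ℝ) ≠ 0 := by exact_mod_cast NeZero.ne G
  have hq0 : (qd X (al G j) : ℝ) ≠ 0 := by
    have : (0 : ℝ) < qd X (al G j) := by exact_mod_cast q1
    exact this.ne'
  unfold ceS
  rw [Int.cast_sub, Int.cast_mul, Int.cast_natCast, Int.cast_natCast, Nat.cast_div hd hq0, sub_div]
  congr 1
  field_simp

private theorem ce_abs (G X I : ℕ) [NeZero G] (hX : 1 ≤ X) (hG : Grid X G) (j : ZMod G)
    (hj : X * nrm ((qd X (al G j) : ℝ) * al G j) <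
      (2 : ℝ) ^ (Nat.log 2 (qd X (al G j))) / 2 ^ I) :
    |(ceS G X j : ℝ)| ≤ G / (2 ^ I * X) := by
  obtain ⟨q1, q2, -, -⟩ := qd_spec X hX (al G j)
  have hs := ce_s G X hX hG j
  set q := qd X (al G j) with hq
  have hG0 : (0 : ℝ) < G := by exact_mod_cast Nat.pos_of_ne_zero (NeZero.ne G)
  have hq0 : (0 : ℝ) < q := by exact_mod_cast q1
  have hX0 : (0 : ℝ) < X := by exact_mod_cast hX
  have hI : (0 : ℝ) < 2 ^ I := by positivity
  have h1 : ((2 : ℝ) ^ (Nat.log 2 q)) ≤ q := by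
    have := Nat.pow_log_le_self 2 (show q ≠ 0 by omega)
    exact_mod_cast this
  have h2 : nrm ((q : ℝ) * al G j) = q * |(ceS G X j : ℝ) / G| := by
    unfold nrm
    rw [hs]
    rw [← abs_of_pos hq0, ← abs_mul, abs_of_pos hq0]
    congr 1
    field_simp
  rw [h2] at hj
  have h3 : (X : ℝ) * (q * |(ceS G X j : ℝ) / G|) ≤ q / 2 ^ I :=
    hj.le.trans (div_le_div_of_nonneg_right h1 hI.le)
  have h4 : |(ceS G X j : ℝ) / G| = |(ceS G X j : ℝ)| / G := by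
    rw [abs_div, abs_of_pos hG0]
  rw [h4] at h3
  rw [le_div_iff₀ (by positivity)]
  rw [le_div_iff₀ hI] at h3
  have h5 : (X : ℝ) * (q * (|(ceS G X j : ℝ)| / G)) * 2 ^ I =
      q * ((|(ceS G X j : ℝ)| * (2 ^ I * X)) / G) := by ring
  rw [h5] at h3
  have h6 : (|(ceS G X j : ℝ)| * (2 ^ I * X)) / G ≤ 1 := by
    by_contra hc
    have hc' := not_le.1 hc
    have := mul_lt_mul_of_pos_left hc' hq0
    linarith
  rw [div_le_one hG0] at h6
  exact h6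

private theorem ce_sp (G X : ℕ) [NeZero G] (hX : 1 ≤ X) (hG : Grid X G) (i j : ZMod G)
    (hij : i ≠ j) (hs : ceS G X i = ceS G X j) (z : ℤ) :
    1 / (X : ℝ) ≤ |al G i - al G j - z| := by
  obtain ⟨p1, p2, -, -⟩ := qd_spec X hX (al G i)
  obtain ⟨q1, q2, -, -⟩ := qd_spec X hX (al G j)
  have hi := ce_s G X hX hG i
  have hj := ce_s G X hX hG j
  rw [hs] at hi
  obtain ⟨i0, i1⟩ := ce_al G i
  obtain ⟨j0, j1⟩ := ce_al G j
  set p := qd X (al G i) with hp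
  set q := qd X (al G j) with hq
  set a : ℤ := round ((p : ℝ) * al G i) with ha
  set b : ℤ := round ((q : ℝ) * al G j) with hb
  have hp0 : (0 : ℝ) < p := by exact_mod_cast p1
  have hq0 : (0 : ℝ) < q := by exact_mod_cast q1
  have hX0 : (0 : ℝ) < X := by exact_mod_cast hX
  have h1 : al G i - al G j - z = ((a * q - b * p - z * (p * q) : ℤ) : ℝ) / (p * q) := by
    have e1 : al G i - al G j = a / p - b / q := by linarith
    rw [e1]
    push_cast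
    field_simp
  have h2 : (a * q - b * p - z * (p * q) : ℤ) ≠ 0 := by
    intro h0
    rw [h0, Int.cast_zero, zero_div] at h1
    have h3 : al G i - al G j = z := by linarith
    have h4 : |(z : ℝ)| < 1 := by
      rw [← h3, abs_lt]
      constructor <;> linarith
    have h5 : z = 0 := by
      have : |z| < 1 := by exact_mod_cast h4
      exact Int.abs_lt_one_iff.1 this
    rw [h5, Int.cast_zero] at h3
    exact hij (ce_inj G i j (by linarith))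
  have h3 : (1 : ℝ) ≤ |((a * q - b * p - z * (p * q) : ℤ) : ℝ)| := by
    have : 1 ≤ |(a * q - b * p - z * (p * q) : ℤ)| := Int.one_le_abs h2
    exact_mod_cast this
  have h4 : (p : ℝ) * q ≤ X := by
    have h5 : p * q ≤ X := by
      calc p * q ≤ Nat.sqrt X * Nat.sqrt X := Nat.mul_le_mul p2 q2
        _ ≤ X := Nat.sqrt_le X
    exact_mod_cast h5
  rw [h1, abs_div, abs_of_pos (mul_pos hp0 hq0)]
  calc 1 / (X : ℝ) ≤ 1 / (p * q) := one_div_le_one_div_of_le (mul_pos hp0 hq0) h4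
    _ ≤ _ := div_le_div_of_nonneg_right h3 (mul_pos hp0 hq0).le

private theorem ce_ls (G X I w : ℕ) [NeZero G] (hX : 1 ≤ X) (hG : Grid X G) (s : ℝ)
    (hc : ∀ m : ℕ, 1 ≤ m → |ip m + s * f2 w m| ≤ 3 * Real.log X) :
    ∑ j ∈ (univ : Finset (ZMod G)).filter (fun j => X * nrm ((qd X (al G j) : ℝ) * al G j) <
      (2 : ℝ) ^ (Nat.log 2 (qd X (al G j))) / 2 ^ I), ‖W s w X (al G j)‖ ^ 2 ≤
      (2 * (G / (2 ^ I * X)) + 1) * (130 * (X : ℝ) ^ 2 * (Real.log X) ^ 2) := by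
  classical
  have hX0 : (0 : ℝ) < X := by exact_mod_cast hX
  have hX1 : (1 : ℝ) ≤ X := by exact_mod_cast hX
  have hG0 : (0 : ℝ) < G := by exact_mod_cast Nat.pos_of_ne_zero (NeZero.ne G)
  set S := (univ : Finset (ZMod G)).filter (fun j => X * nrm ((qd X (al G j) : ℝ) * al G j) <
      (2 : ℝ) ^ (Nat.log 2 (qd X (al G j))) / 2 ^ I) with hS
  set R : ℝ := G / (2 ^ I * X) with hR
  have hR0 : 0 ≤ R := by positivity
  have hmaps : ∀ j ∈ S, ceS G X j ∈ Icc (-⌊R⌋) ⌊R⌋ := by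
    intro j hj
    have h1 := ce_abs G X I hX hG j (mem_filter.1 hj).2
    rw [mem_Icc, ← abs_le, Int.le_floor]
    push_cast
    exact h1
  rw [← sum_fiberwise_of_maps_to hmaps]
  have hfib : ∀ t ∈ Icc (-⌊R⌋) ⌊R⌋, ∑ j ∈ S.filter (fun j => ceS G X j = t),
      ‖W s w X (al G j)‖ ^ 2 ≤ 130 * (X : ℝ) ^ 2 * (Real.log X) ^ 2 := by
    intro t _
    have h1 := large_sieve_c (S.filter (fun j => ceS G X j = t)) (fun j => al G j)
      (δ := 1 / (X : ℝ)) (by positivity) ((div_le_one hX0).2 hX1) (by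
        intro i hi j hj hij z
        exact ce_sp G X hX hG i j hij ((mem_filter.1 hi).2.trans (mem_filter.1 hj).2.symm) z)
      (Icc 1 X) (fun m => ((ip m + s * f2 w m : ℝ) : ℂ)) (N := (X : ℝ)) hX0
      (fun m hm => by exact_mod_cast (mem_Icc.1 hm).2)
    have h2 : ∑ m ∈ Icc 1 X, ‖((ip m + s * f2 w m : ℝ) : ℂ)‖ ^ 2 ≤
        X * (9 * (Real.log X) ^ 2) := by
      have h3 : ∀ m ∈ Icc 1 X, ‖((ip m + s * f2 w m : ℝ) : ℂ)‖ ^ 2 ≤ 9 * (Real.log X) ^ 2 := by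
        intro m hm
        rw [Complex.norm_real, Real.norm_eq_abs]
        calc |ip m + s * f2 w m| ^ 2 ≤ (3 * Real.log X) ^ 2 :=
              pow_le_pow_left₀ (abs_nonneg _) (hc m (mem_Icc.1 hm).1) 2
          _ = 9 * (Real.log X) ^ 2 := by ring
      refine (sum_le_card_nsmul _ _ _ h3).trans (le_of_eq ?_)
      rw [Nat.card_Icc, nsmul_eq_mul]
      simp
    have h4 : ∑ j ∈ S.filter (fun j => ceS G X j = t), ‖W s w X (al G j)‖ ^ 2 =
        ∑ j ∈ S.filter (fun j => ceS G X j = t),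
          ‖∑ m ∈ Icc 1 X, ((ip m + s * f2 w m : ℝ) : ℂ) * ee ((m : ℝ) * al G j)‖ ^ 2 := by
      refine sum_congr rfl fun j _ => ?_
      rw [w_sum]
    rw [h4]
    refine h1.trans ?_
    have hpi : Real.pi ≤ 3.2 := by
      have := Real.pi_lt_d2
      linarith
    have h5 : ((1 / (X : ℝ))⁻¹ + 4 * Real.pi * X) ≤ 13.8 * X := by
      rw [one_div, inv_inv]
      nlinarith
    have h6 : 0 ≤ ∑ m ∈ Icc 1 X, ‖((ip m + s * f2 w m : ℝ) : ℂ)‖ ^ 2 :=
      sum_nonneg fun _ _ => by positivity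
    calc ((1 / (X : ℝ))⁻¹ + 4 * Real.pi * X) * ∑ m ∈ Icc 1 X, ‖((ip m + s * f2 w m : ℝ) : ℂ)‖ ^ 2
        ≤ (13.8 * X) * (X * (9 * (Real.log X) ^ 2)) :=
          mul_le_mul h5 h2 h6 (by positivity)
      _ ≤ 130 * (X : ℝ) ^ 2 * (Real.log X) ^ 2 := by
        have : 0 ≤ (X : ℝ) ^ 2 * (Real.log X) ^ 2 := by positivity
        nlinarith
  refine (sum_le_card_nsmul _ _ _ hfib).trans ?_
  rw [nsmul_eq_mul]
  refine mul_le_mul_of_nonneg_right ?_ (by positivity)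
  rw [Int.card_Icc]
  have hf0 : 0 ≤ ⌊R⌋ := Int.floor_nonneg.2 hR0
  have hf1 : (⌊R⌋ : ℝ) ≤ R := Int.floor_le R
  have h7 : (((⌊R⌋ + 1 - -⌊R⌋).toNat : ℕ) : ℝ) = 2 * (⌊R⌋ : ℝ) + 1 := by
    have h8 : (((⌊R⌋ + 1 - -⌊R⌋).toNat : ℕ) : ℤ) = 2 * ⌊R⌋ + 1 := by
      rw [Int.toNat_of_nonneg (by omega)]
      ring
    exact_mod_cast h8
  rw [h7]
  linarith

theorem centre (D' : ℕ) : ∃ X0 : ℕ, ∀ X : ℕ, X0 ≤ X → ∀ w : ℕ, (w : ℝ) ≤ (Real.log X) ^ D' →
    ∀ (G : ℕ) [NeZero G], Grid X G → ∀ I n : ℕ,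
      ‖Pv G X w (cw G X I) n‖ ≤ 300 * X * (Real.log X) ^ 2 * (1 / 2 ^ I) + 1 := by
  classical
  obtain ⟨X1, hX1⟩ := w_coef D'
  refine ⟨max X1 130, fun X hX w hw G _ hG I n => ?_⟩
  have k1 : X1 ≤ X := (le_max_left _ _).trans hX
  have k2 : 130 ≤ X := (le_max_right _ _).trans hX
  have hXone : 1 ≤ X := by omega
  have hX0 : (0 : ℝ) < X := by exact_mod_cast hXone
  have hXr : (130 : ℝ) ≤ X := by exact_mod_cast k2
  have hG0 : (0 : ℝ) < G := by exact_mod_cast Nat.pos_of_ne_zero (NeZero.ne G)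
  set L := Real.log X with hL
  have hL0 : 0 ≤ L := Real.log_nonneg (by linarith)
  have hLX : L ≤ X := (Real.log_le_sub_one_of_pos hX0).trans (by linarith)
  set S := (univ : Finset (ZMod G)).filter (fun j => X * nrm ((qd X (al G j) : ℝ) * al G j) <
      (2 : ℝ) ^ (Nat.log 2 (qd X (al G j))) / 2 ^ I) with hS
  set B : ℝ := (2 * (G / (2 ^ I * X)) + 1) * (130 * (X : ℝ) ^ 2 * L ^ 2) with hB
  have hm := ce_ls G X I w hXone hG (-1) (hX1 X k1 w hw (-1) (by norm_num))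
  have hp := ce_ls G X I w hXone hG 1 (hX1 X k1 w hw 1 (by norm_num))
  have h1 : ‖Pv G X w (cw G X I) n‖ ≤ (1 / (G : ℝ)) * ∑ j ∈ S,
      ((‖W (-1) w X (al G j)‖ ^ 2 + ‖W 1 w X (al G j)‖ ^ 2) / 2) := by
    unfold Pv Ph
    rw [norm_mul]
    have e1 : ‖(1 / (G : ℂ))‖ = 1 / (G : ℝ) := by
      rw [norm_div, norm_one, Complex.norm_natCast]
    rw [e1]
    refine mul_le_mul_of_nonneg_left ?_ (by positivity)
    refine (norm_sum_le _ _).trans ?_
    rw [hS, sum_filter]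
    refine sum_le_sum fun j _ => ?_
    rw [norm_mul, norm_mul, norm_mul, AddChar.norm_apply, mul_one, uu_eq, vv_eq]
    unfold cw
    split_ifs with h
    · rw [norm_one, one_mul]
      nlinarith [sq_nonneg (‖W (-1) w X (al G j)‖ - ‖W 1 w X (al G j)‖)]
    · rw [norm_zero, zero_mul, zero_mul]
  refine h1.trans ?_
  have h2 : ∑ j ∈ S, ((‖W (-1) w X (al G j)‖ ^ 2 + ‖W 1 w X (al G j)‖ ^ 2) / 2) ≤ B := by
    rw [← sum_div, sum_add_distrib]
    linarith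
  have h3 : (1 / (G : ℝ)) * ∑ j ∈ S,
      ((‖W (-1) w X (al G j)‖ ^ 2 + ‖W 1 w X (al G j)‖ ^ 2) / 2) ≤ (1 / (G : ℝ)) * B :=
    mul_le_mul_of_nonneg_left h2 (by positivity)
  refine h3.trans ?_
  have h4 : (1 / (G : ℝ)) * B = 260 * X * L ^ 2 * (1 / 2 ^ I) + 130 * (X : ℝ) ^ 2 * L ^ 2 / G := by
    rw [hB]
    field_simp
    ring
  rw [h4]
  have h5 : 130 * (X : ℝ) ^ 2 * L ^ 2 / G ≤ 1 := by
    rw [div_le_one hG0]
    have h6 : (X : ℝ) ^ 10 ≤ G := by exact_mod_cast hG.2.1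
    refine le_trans ?_ h6
    have h7 : L ^ 2 ≤ (X : ℝ) ^ 2 := pow_le_pow_left₀ hL0 hLX 2
    have hX1' : (1 : ℝ) ≤ X := by linarith
    calc 130 * (X : ℝ) ^ 2 * L ^ 2 ≤ X * (X : ℝ) ^ 2 * (X : ℝ) ^ 2 := by
          refine mul_le_mul (mul_le_mul_of_nonneg_right hXr (by positivity)) h7 (by positivity)
            (by positivity)
      _ = (X : ℝ) ^ 5 := by ring
      _ ≤ (X : ℝ) ^ 10 := pow_le_pow_right₀ hX1' (by norm_num)
  have h8 : 260 * X * L ^ 2 * (1 / 2 ^ I) ≤ 300 * X * L ^ 2 * (1 / 2 ^ I) := by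
    have : 0 ≤ X * L ^ 2 * (1 / (2 : ℝ) ^ I) := by positivity
    nlinarith
  linarith

end Pool.MP_dd84fd_nt.FA
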