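import Pool.Agent.Lib.MP_dd84fd_nt.FA.Defs

/-!
# FA-Grd (0.3 h): the grid

`gg X = 3 * 2^X * (X * X!)`. `3 X ≤`: `2^X ≥ 1`, `X! ≥ 1`. `X^10 ≤ 2^X` for large `X` (e.g. `X ≥ 64`: induction, or
`Filter` : `tendsto_pow_const_div_const_pow_of_one_lt`, or `isLittleO`). Divisibility: `2^I ∣ 2^X` (`pow_dvd_pow`), `q ∣ X!`
(`Nat.dvd_factorial`), so `2^I (X q) ∣ 2^X (X X!)`.
-/

set_option autoImplicit false

namespace Pool.MP_dd84fd_nt.FA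

open Finset Pool.MP_67663b_nt.Odd Pool.MP_dd84fd_nt.En Pool.MP_dd84fd_nt.E2 Pool.MP_dd84fd_nt.LS
  Pool.MP_dd84fd_nt.GX

open Pool.MP_dd84fd_nt.L2G (nrm)

open Pool.MP_dd84fd_nt.PL (W FF rr)

theorem grid_gg : ∃ X0 : ℕ, 1 ≤ X0 ∧ ∀ X : ℕ, X0 ≤ X → Grid X (gg X) ∧ gg X ≠ 0 := by
  have h1 : ∀ᶠ X : ℕ in Filter.atTop, (X : ℝ) ^ 10 / 2 ^ X < 1 :=
    (tendsto_pow_const_div_const_pow_of_one_lt 10 (by norm_num : (1 : ℝ) < 2)).eventually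
      (gt_mem_nhds (by norm_num))
  obtain ⟨X₁, hX₁⟩ := Filter.eventually_atTop.1 h1
  refine ⟨max 1 X₁, le_max_left _ _, fun X hX => ?_⟩
  have hX1 : 1 ≤ X := (le_max_left _ _).trans hX
  have hpow : X ^ 10 ≤ 2 ^ X := by
    have h2 := hX₁ X ((le_max_right _ _).trans hX)
    rw [div_lt_one (by positivity)] at h2
    exact_mod_cast h2.le
  have hf : 1 ≤ X.factorial := Nat.factorial_pos X
  have h2X : 1 ≤ 2 ^ X := Nat.one_le_two_pow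
  have hXf : 1 ≤ X * X.factorial := Nat.one_le_iff_ne_zero.2 (by positivity)
  refine ⟨⟨?_, ?_, ?_⟩, ?_⟩
  · unfold gg
    calc 3 * X = 3 * 1 * (X * 1) := by ring
      _ ≤ 3 * 2 ^ X * (X * X.factorial) := by gcongr
  · unfold gg
    calc X ^ 10 ≤ 2 ^ X := hpow
      _ = 1 * 2 ^ X * 1 := by ring
      _ ≤ 3 * 2 ^ X * (X * X.factorial) := by gcongr; norm_num
  · intro q I hq hqX hI
    unfold gg
    have h3 : 2 ^ I ∣ 2 ^ X := pow_dvd_pow 2 hI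
    have h4 : q ∣ X.factorial := Nat.dvd_factorial hq hqX
    exact mul_dvd_mul (dvd_mul_of_dvd_right h3 3) (mul_dvd_mul_left X h4)
  · unfold gg
    positivity

end Pool.MP_dd84fd_nt.FA
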