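import Pool.Agent.Lib.MP_dd84fd_nt.FA.One
import Pool.Agent.Lib.MP_dd84fd_nt.FA.Grd
import Pool.Agent.Lib.MP_dd84fd_nt.FA.Centre
import Pool.Agent.Lib.MP_dd84fd_nt.GX.Tree
import Pool.Agent.Lib.MP_dd84fd_nt.GX.Rep
import Pool.Agent.Lib.MP_dd84fd_nt.LS.Point

/-!
# FA-Bd (0.7 h): one scale, one `n`

`bd`: for `n` outside the sets `B a t` (see `Bset`) and not divisible by any `d ∈ D`. `ph_split`, `rep` (`G = gg X`, `3 X ≤ G`), `centre` with `2^I ≥ L^(A+6)`: `300 X L²/2^I ≤ 300 X/L^(A+4)`; for each piece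
`n ∉ Bset a t` means: `‖Ph pw n‖ ≤ X/L^A1` or there is `Λ` with `‖Ph (rs ..) n‖ ≤ X/L^A1`, and then `one` and the bound of `greedy` give `‖Ph pw n‖ ≤ 3 X/L^A1 + 1`. The number of pieces is
`(Nat.log 2 X + 1)(I + Nat.log 2 X + 1) ≤ (2L)(4L)` (`Nat.log 2 X ≤ log X/log 2 ≤ 1.45 L`, `2^(I+1) ≤ L^A0` so `I ≤ L`). `A1 = A + 4`: total `≤ X/(4 L^A)` for large `X`.
-/

set_option autoImplicit false

namespace Pool.MP_dd84fd_nt.FA

open Finset Pool.MP_67663b_nt.Odd Pool.MP_dd84fd_nt.En Pool.MP_dd84fd_nt.E2 Pool.MP_dd84fd_nt.LS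
  Pool.MP_dd84fd_nt.GX

open Pool.MP_dd84fd_nt.L2G (nrm)

open Pool.MP_dd84fd_nt.PL (W FF rr)

private lemma bd_ev (c : ℝ) (k : ℕ) {η : ℝ} (hη : 0 < η) :
    ∀ᶠ X : ℕ in Filter.atTop, c * (Real.log X) ^ k ≤ (X : ℝ) ^ η := by
  have h1 := isLittleO_log_rpow_rpow_atTop (k : ℝ) hη
  have h2 := h1.bound (c := (|c| + 1)⁻¹) (by positivity)
  have h3 := tendsto_natCast_atTop_atTop (R := ℝ) |>.eventually h2
  have h4 : ∀ᶠ X : ℕ in Filter.atTop, 1 ≤ X := Filter.eventually_ge_atTop 1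
  filter_upwards [h3, h4] with X h5 h6
  have hX : (1 : ℝ) ≤ X := by exact_mod_cast h6
  have hL : 0 ≤ Real.log X := Real.log_nonneg hX
  rw [Real.rpow_natCast, Real.norm_of_nonneg (by positivity), Real.norm_of_nonneg (by positivity),
    inv_mul_eq_div, le_div_iff₀ (by positivity)] at h5
  have h7 : c ≤ |c| + 1 := (le_abs_self c).trans (by linarith)
  nlinarith [mul_le_mul_of_nonneg_right h7 (pow_nonneg hL k)]

private lemma bd_log (c : ℝ) : ∀ᶠ X : ℕ in Filter.atTop, c ≤ Real.log X :=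
  (Real.tendsto_log_atTop.comp (tendsto_natCast_atTop_atTop (R := ℝ))).eventually_ge_atTop c

open Classical in
/-- the exceptional set of the piece `(a, t)` -/
noncomputable def Bset (G X w I a t A : ℕ) [NeZero G] (ε : ℝ) : Finset ℕ :=
  (Icc 1 X).filter (fun n => (X : ℝ) / (Real.log X) ^ A < ‖Pv G X w (pw G X I a t) n‖ ∧
      ∀ Λ : ℕ, 1 ≤ Λ → (Λ : ℝ) * 2 ^ (a + (t - I)) ≤ 2 ^ a * (X : ℝ) ^ (1 / 2 - ε / 2) →
        (X : ℝ) / (Real.log X) ^ A < ‖Pv G X w (rs G X Λ (ε / 8) (pw G X I a t)) n‖)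

theorem bd (A : ℕ) : ∃ K1 K2 : ℕ, ∀ (ε : ℝ) (D' A0 : ℕ), 0 < ε → ε ≤ 1 / 2 → 1 ≤ D' →
    ∃ X0 : ℕ, ∀ X : ℕ, X0 ≤ X → ∀ (G : ℕ) [NeZero G], Grid X G →
    ∀ n : ℕ, X < 2 * n → n ≤ X → ∀ I : ℕ, (2 : ℝ) ^ (I + 1) ≤ (Real.log X) ^ A0 →
    (Real.log X) ^ (A + 6) ≤ (2 : ℝ) ^ I →
    (∀ a ∈ range (Nat.log 2 X + 1), ∀ t ∈ range (I + Nat.log 2 X + 1),
      n ∉ Bset G X (wX D' X) I a t (A + 4) ε) →
    ∑ q ∈ (Icc 1 ⌊(X : ℝ) ^ (1 / 2 - ε / 4)⌋₊).filter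
          (fun q : ℕ => (q : ℝ) ≤ (Real.log X) ^ K1 * (Nat.gcd q n : ℝ)),
          arcN (wX D' X) X q ((Real.log X) ^ K2) ≤ X / (Real.log X) ^ (A + 4) →
    |(g n : ℝ) - conv2 (wX D' X) n| ≤ X / (4 * (Real.log X) ^ A) := by
  obtain ⟨K1, K2, hone⟩ := one (A + 4)
  refine ⟨K1, K2, fun ε D' A0 hε hε2 hD => ?_⟩
  obtain ⟨XO, hXO⟩ := hone ε D' A0 hε hε2 hD
  obtain ⟨XC, hXC⟩ := centre D'
  have hlog2 : 0 < Real.log 2 := Real.log_pos (by norm_num)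
  have hev : ∀ᶠ X : ℕ in Filter.atTop, XO ≤ X ∧ XC ≤ X ∧ 100 ≤ Real.log X ∧ 1 ≤ X ∧
      1 * (Real.log X) ^ A0 ≤ (X : ℝ) ^ (Real.log 2) ∧
      120 * (Real.log X) ^ (A + 2) ≤ (X : ℝ) ^ (1 : ℝ) :=
    (Filter.eventually_ge_atTop XO).and ((Filter.eventually_ge_atTop XC).and
      ((bd_log _).and ((Filter.eventually_ge_atTop 1).and
        ((bd_ev 1 A0 hlog2).and (bd_ev 120 (A + 2) one_pos)))))
  obtain ⟨X0, hX0⟩ := Filter.eventually_atTop.1 hev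
  refine ⟨X0, fun X hX G _ hG n hn1 hn2 I hI1 hI2 hB hgr => ?_⟩
  obtain ⟨g1, g2, g3, g4, g5, g6⟩ := hX0 X hX
  obtain ⟨w, hw⟩ : ∃ w : ℕ, w = wX D' X := ⟨_, rfl⟩
  rw [← hw] at hB hgr ⊢
  obtain ⟨L, hL⟩ : ∃ L : ℝ, L = Real.log X := ⟨_, rfl⟩
  have hX1 : (1 : ℝ) ≤ X := by exact_mod_cast g4
  have hXp : (0 : ℝ) < X := by linarith
  have hwle : (w : ℝ) ≤ (Real.log X) ^ D' := by
    rw [hw, wX]
    exact Nat.floor_le (by positivity)
  have hLX : L ≤ X := by rw [hL]; exact Real.log_le_self hXp.le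
  have hIL : (I : ℝ) + 1 ≤ L := by
    have h1 : (2 : ℝ) ^ (I + 1) ≤ (X : ℝ) ^ (Real.log 2) := hI1.trans (by linarith)
    have h2 := Real.log_le_log (by positivity) h1
    rw [Real.log_pow, Real.log_rpow hXp, ← hL, mul_comm (Real.log 2)] at h2
    have h3 := le_of_mul_le_mul_right h2 hlog2
    push_cast at h3
    exact h3
  have hIX : I ≤ X := by
    have : (I : ℝ) ≤ X := by linarith
    exact_mod_cast this
  rw [← hL] at g3
  have hlg : (Nat.log 2 X : ℝ) + 1 ≤ 2 * L := by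
    have h1 : ((2 ^ Nat.log 2 X : ℕ) : ℝ) ≤ X := by
      exact_mod_cast Nat.pow_log_le_self 2 (by omega)
    push_cast at h1
    have h2 := Real.log_le_log (by positivity) h1
    rw [Real.log_pow, ← hL] at h2
    have h3 := Real.log_two_gt_d9
    have h4 : (0 : ℝ) ≤ (Nat.log 2 X : ℝ) := Nat.cast_nonneg _
    nlinarith
  have hLp : 0 < L := by linarith
  -- the central part
  have hcen : ‖Pv G X w (cw G X I) n‖ ≤ 300 * (X / L ^ (A + 4)) + 1 := by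
    have h1 := hXC X g2 w hwle G hG I n
    rw [← hL] at h1 hI2
    have h2 : (1 : ℝ) / 2 ^ I ≤ 1 / L ^ (A + 6) :=
      div_le_div_of_nonneg_left zero_le_one (by positivity) hI2
    have h3 : 300 * (X : ℝ) * L ^ 2 * (1 / 2 ^ I) ≤ 300 * X * L ^ 2 * (1 / L ^ (A + 6)) :=
      mul_le_mul_of_nonneg_left h2 (by positivity)
    have h4 : 300 * (X : ℝ) * L ^ 2 * (1 / L ^ (A + 6)) = 300 * (X / L ^ (A + 4)) := by
      rw [show A + 6 = (A + 4) + 2 by ring, pow_add]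
      field_simp
    linarith
  -- the pieces
  have hpc : ∀ a ∈ range (Nat.log 2 X + 1), ∀ t ∈ range (I + Nat.log 2 X + 1),
      ‖Pv G X w (pw G X I a t) n‖ ≤ 3 * (X / L ^ (A + 4)) + 1 := by
    intro a ha t ht
    have hpos : 0 ≤ (X : ℝ) / L ^ (A + 4) := by positivity
    by_cases h1 : ‖Pv G X w (pw G X I a t) n‖ ≤ X / L ^ (A + 4)
    · linarith
    push Not at h1
    have h2 := hB a ha t ht
    classical
    unfold Bset at h2
    rw [mem_filter, not_and, not_and] at h2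
    have h3 := h2 (by rw [mem_Icc]; omega) (by rw [← hL]; exact h1)
    push Not at h3
    obtain ⟨Λ, hΛ1, hΛ2, hΛ3⟩ := h3
    have h4 := hXO X g1 G hG n hn1 hn2 I a t Λ hIX hI1 hΛ1 hΛ2
    rw [← hw, ← hL] at h4
    rw [← hL] at hΛ3 hgr
    linarith
  have hn0 : 1 ≤ n := by omega
  have hrep := rep X G w hG.1 n hn0 hn2
  have habs : |(g n : ℝ) - conv2 w n| = ‖Pv G X w (fun _ => 1) n‖ := by
    unfold Pv
    rw [hrep, Complex.norm_real, Real.norm_eq_abs]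
  rw [habs, ph_split X G w I g4 n]
  have hsum : ‖∑ a ∈ range (Nat.log 2 X + 1), ∑ t ∈ range (I + Nat.log 2 X + 1),
      Pv G X w (pw G X I a t) n‖ ≤ (2 * L) * ((4 * L) * (3 * (X / L ^ (A + 4)) + 1)) := by
    have hq : (0 : ℝ) ≤ 3 * (X / L ^ (A + 4)) + 1 := by positivity
    refine (norm_sum_le _ _).trans ?_
    calc _ ≤ ∑ a ∈ range (Nat.log 2 X + 1), ((4 * L) * (3 * (X / L ^ (A + 4)) + 1)) := by
          refine sum_le_sum fun a ha => ?_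
          refine (norm_sum_le _ _).trans ?_
          calc _ ≤ ∑ t ∈ range (I + Nat.log 2 X + 1), (3 * (X / L ^ (A + 4)) + 1) :=
                sum_le_sum fun t ht => hpc a ha t ht
            _ = ((I : ℝ) + Nat.log 2 X + 1) * (3 * (X / L ^ (A + 4)) + 1) := by
                rw [sum_const, card_range, nsmul_eq_mul]
                push_cast
                ring
            _ ≤ _ := mul_le_mul_of_nonneg_right (by linarith) hq
      _ = ((Nat.log 2 X : ℝ) + 1) * ((4 * L) * (3 * (X / L ^ (A + 4)) + 1)) := by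
          rw [sum_const, card_range, nsmul_eq_mul]
          push_cast
          ring
      _ ≤ _ := mul_le_mul_of_nonneg_right hlg (by positivity)
  refine (norm_add_le _ _).trans ((add_le_add hcen hsum).trans ?_)
  rw [← hL]
  rw [← hL, Real.rpow_one] at g6
  -- real inequality
  obtain ⟨Q, hQ⟩ : ∃ Q : ℝ, Q = X / L ^ (A + 4) := ⟨_, rfl⟩
  have hQ0 : 0 ≤ Q := by rw [hQ]; positivity
  have hA0 : (X : ℝ) / (4 * L ^ A) = Q * L ^ 4 / 4 := by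
    rw [hQ, pow_add]
    field_simp
  have hQ2 : 120 ≤ Q * L ^ 2 := by
    have : Q * L ^ 2 = X / L ^ (A + 2) := by
      rw [hQ, show A + 4 = (A + 2) + 2 by ring, pow_add]
      field_simp
    rw [this, le_div_iff₀ (by positivity)]
    exact g6
  rw [hA0, ← hQ]
  have hL2 : (10000 : ℝ) ≤ L ^ 2 := by nlinarith
  have e1 : Q * 10000 ≤ Q * L ^ 2 := mul_le_mul_of_nonneg_left hL2 hQ0
  have e2 : (Q * L ^ 2) * 10000 ≤ (Q * L ^ 2) * L ^ 2 :=
    mul_le_mul_of_nonneg_left hL2 (by positivity)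
  have e3 : 120 * L ^ 2 ≤ (Q * L ^ 2) * L ^ 2 := mul_le_mul_of_nonneg_right hQ2 (by positivity)
  have e4 : (Q * L ^ 2) * L ^ 2 = Q * L ^ 4 := by ring
  have e5 : 2 * L * (4 * L * (3 * Q + 1)) = 24 * (Q * L ^ 2) + 8 * L ^ 2 := by ring
  rw [e5]
  rw [e4] at e2 e3
  linarith

end Pool.MP_dd84fd_nt.FA
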