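import Pool.Agent.Lib.MP_dd84fd_nt.FA.Defs
import Pool.Agent.Lib.MP_dd84fd_nt.GX.Den

/-!
# FA-Near (0.4 h): the denominator near a fraction

`nrm y = |y - round y|`. `q (a/q + x) = a + q x`, `q |x| < 1/(4 √X) < 1/2`, so `nrm (q α) = q |x|` (`α = a/q + x`;
`round (a + y) = a + round y`, `round y = 0` for `|y| < 1/2`). `d = qd X α` (`GX.qd_spec`: `1 ≤ d`, `nrm (d α) ≤ 1/(Nat.sqrt X + 1)`, and
`Real.sqrt X < Nat.sqrt X + 1`). `d ≤ q` (or `d ∣ q` by `GX.near_frac`, whose hypotheses are exactly `h1`, `h2`). Suppose `d < q`: with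
`m = round (d α)`: `d a - m q = q (d α - m) - q d x`, `|q (d α - m)| ≤ q/√X < 1/4`, `|q d x| ≤ d q |x| ≤ (√X/4) (1/(4 √X)) < 1/4`, so the integer
`d a - m q` is `0`, `q ∣ d a`, `gcd(a, q) = 1`, `q ∣ d`: contradiction with `0 < d < q`.
-/

set_option autoImplicit false

namespace Pool.MP_dd84fd_nt.FA

open Finset Pool.MP_67663b_nt.Odd Pool.MP_dd84fd_nt.En Pool.MP_dd84fd_nt.E2 Pool.MP_dd84fd_nt.LS
  Pool.MP_dd84fd_nt.GX

open Pool.MP_dd84fd_nt.L2G (nrm)

open Pool.MP_dd84fd_nt.PL (W FF rr)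

theorem near (X q : ℕ) (hX : 1 ≤ X) (a : ℤ) (x : ℝ) (hq : 1 ≤ q) (hc : Int.gcd a q = 1)
    (h1 : 4 * (q : ℝ) < Real.sqrt X) (h2 : 4 * ((X : ℝ) * (q * |x|)) < Real.sqrt X) :
    qd X ((a : ℝ) / q + x) = q ∧ nrm ((q : ℝ) * ((a : ℝ) / q + x)) = q * |x| := by
  have hX0 : (0 : ℝ) < X := by exact_mod_cast hX
  have hX1 : (1 : ℝ) ≤ X := by exact_mod_cast hX
  have hs0 : 0 < Real.sqrt X := Real.sqrt_pos.2 hX0
  have hs1 : 1 ≤ Real.sqrt X := by
    rw [Real.one_le_sqrt]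
    exact hX1
  have hss : Real.sqrt X * Real.sqrt X = X := Real.mul_self_sqrt hX0.le
  have hq0 : (0 : ℝ) < q := by exact_mod_cast hq
  have hy : q * |x| < 1 / (4 * Real.sqrt X) := by
    rw [lt_div_iff₀ (by positivity)]
    by_contra hcon
    push Not at hcon
    have h3 : Real.sqrt X * 1 ≤ Real.sqrt X * (q * |x| * (4 * Real.sqrt X)) :=
      mul_le_mul_of_nonneg_left hcon hs0.le
    have h4 : Real.sqrt X * (q * |x| * (4 * Real.sqrt X)) = 4 * ((X : ℝ) * (q * |x|)) := by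
      calc Real.sqrt X * (q * |x| * (4 * Real.sqrt X))
          = 4 * ((Real.sqrt X * Real.sqrt X) * (q * |x|)) := by ring
        _ = 4 * ((X : ℝ) * (q * |x|)) := by rw [hss]
    rw [h4] at h3
    linarith
  have hy4 : q * |x| < 1 / 4 := by
    refine hy.trans_le ?_
    rw [div_le_div_iff₀ (by positivity) (by norm_num)]
    linarith
  have hqx : |(q : ℝ) * x| = q * |x| := by rw [abs_mul, abs_of_pos hq0]
  have hqα : (q : ℝ) * ((a : ℝ) / q + x) = (a : ℝ) + q * x := by field_simp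
  have hr0 : round ((q : ℝ) * x) = 0 := by
    rw [round_eq_zero_iff]
    have h3 := abs_lt.1 (show |(q : ℝ) * x| < 1 / 4 by rw [hqx]; exact hy4)
    constructor
    · linarith [h3.1]
    · linarith [h3.2]
  have hnrm : nrm ((q : ℝ) * ((a : ℝ) / q + x)) = q * |x| := by
    rw [hqα]
    unfold nrm
    have e1 : round ((a : ℝ) + q * x) = a := by
      rw [add_comm, round_add_intCast, hr0, zero_add]
    rw [e1, ← hqx]
    congr 1
    ring
  refine ⟨?_, hnrm⟩
  have hdvd : qd X ((a : ℝ) / q + x) ∣ q := by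
    refine (near_frac X hX ((a : ℝ) / q + x) q hq (by linarith) ?_).1
    rw [hnrm]
    exact hy
  obtain ⟨k1, k2, k3, k4⟩ := qd_spec X hX ((a : ℝ) / q + x)
  set d := qd X ((a : ℝ) / q + x) with hd
  set m : ℤ := round ((d : ℝ) * ((a : ℝ) / q + x)) with hm
  have hd0 : (0 : ℝ) < d := by exact_mod_cast k1
  have hsx : Real.sqrt X < (Nat.sqrt X : ℝ) + 1 := by
    rw [Real.sqrt_lt' (by positivity)]
    have h3 : X < (Nat.sqrt X + 1) * (Nat.sqrt X + 1) := Nat.lt_succ_sqrt X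
    have h4 : (X : ℝ) < ((Nat.sqrt X + 1) * (Nat.sqrt X + 1) : ℕ) := by exact_mod_cast h3
    push_cast at h4
    rw [sq]
    exact h4
  have hδ : |(d : ℝ) * ((a : ℝ) / q + x) - m| < 1 / Real.sqrt X := by
    have e1 : |(d : ℝ) * ((a : ℝ) / q + x) - m| ≤ 1 / ((Nat.sqrt X : ℝ) + 1) := k3
    exact e1.trans_lt (one_div_lt_one_div_of_lt hs0 hsx)
  have hdq : (d : ℝ) ≤ q := by exact_mod_cast Nat.le_of_dvd (by omega) hdvd
  have hz : (d : ℤ) * a - m * q = 0 := by
    have e1 : (((d : ℤ) * a - m * q : ℤ) : ℝ) =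
        q * ((d : ℝ) * ((a : ℝ) / q + x) - m) - d * (q * x) := by
      push_cast
      field_simp
      ring
    have e2 : |(((d : ℤ) * a - m * q : ℤ) : ℝ)| < 1 := by
      rw [e1]
      have f1 : |(q : ℝ) * ((d : ℝ) * ((a : ℝ) / q + x) - m)| ≤ 1 / 4 := by
        rw [abs_mul, abs_of_pos hq0]
        calc (q : ℝ) * |(d : ℝ) * ((a : ℝ) / q + x) - m|
            ≤ (Real.sqrt X / 4) * (1 / Real.sqrt X) :=
              mul_le_mul (by linarith) hδ.le (abs_nonneg _) (by positivity)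
          _ = 1 / 4 := by field_simp
      have f2 : |(d : ℝ) * (q * x)| ≤ 1 / 4 := by
        rw [abs_mul, abs_of_pos hd0, hqx]
        calc (d : ℝ) * (q * |x|) ≤ (Real.sqrt X / 4) * (1 / (4 * Real.sqrt X)) :=
              mul_le_mul (by linarith) hy.le (by positivity) (by positivity)
          _ = 1 / 16 := by
              field_simp
              norm_num
          _ ≤ 1 / 4 := by norm_num
      have f3 := abs_sub ((q : ℝ) * ((d : ℝ) * ((a : ℝ) / q + x) - m)) ((d : ℝ) * (q * x))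
      linarith
    have e3 : |((d : ℤ) * a - m * q)| < 1 := by exact_mod_cast e2
    exact Int.abs_lt_one_iff.1 e3
  have hcop : IsCoprime (q : ℤ) a := by
    rw [Int.isCoprime_iff_gcd_eq_one, Int.gcd_comm]
    exact hc
  have hqd : (q : ℤ) ∣ d := by
    have e1 : (q : ℤ) ∣ d * a := ⟨m, by linarith⟩
    exact hcop.dvd_of_dvd_mul_right e1
  have hqd' : q ∣ d := by exact_mod_cast hqd
  exact Nat.dvd_antisymm hdvd hqd'

end Pool.MP_dd84fd_nt.FA
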