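import Pool.Agent.Lib.MP_dd84fd_nt.FA.Defs
import Pool.Agent.Lib.MP_dd84fd_nt.FA.Near
import Pool.Agent.Lib.MP_dd84fd_nt.GX.Den

/-!
# FA-Bij (1 h): grid points near the fractions with denominator `q`

`G = q m`. For `a ∈ rr q`, `s ∈ [s1, s2)`, `σ = ±1` let `j(a, s, σ)` be the class of the integer `a m + σ s` modulo `G`. For an integer `k`:
`al G (k : ZMod G) = k/G - z` with an integer `z` (`ZMod.val_intCast`: `val = k % G`, `Int.emod_def`), so `f (al G k) = f (k/G)` (periodicity for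
integer shifts: prove `f (x + z) = f x` for `z : ℤ` from `hper`, e.g. `Function.Periodic.int_mul`, `Function.Periodic.sub_zsmul_eq`), and `k/G = a/q + σ s/G`.
By `near` with the integer `a - q z` (`gcd = 1`) and `x = σ s/G`: `qd = q`, `X nrm (q al) = X q s/G`, so `j(a, s, σ)` is in the filter set.
Injective: `j(a,s,σ) = j(a',s',σ')` gives `(a - a') m + (σ s - σ' s') = k q m`, `|σ s - σ' s'| < 2 s2 ≤ m` (from `h2`: `4 X s2 ≤ m √X ≤ m X`), so
`m ∣ σ s - σ' s'` forces `σ s = σ' s'`, hence `σ = σ'`, `s = s'` (as `s ≥ 1`), and then `q ∣ a - a'`, `a = a'`.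
Surjective: for `j` in the set put `v = j.val`, `a0 = round (q al)`, `s' = v - a0 m` (integer): `q s'/G = q al - a0`, so `nrm (q al) = q |s'|/G` and
`s1 ≤ |s'| < s2`; `gcd(a0, q) = 1` (`GX.qd_spec`), `a = a0 mod q ∈ rr q`; `j = j(a, |s'|, sign s')`.
Suggested form: first write the right side as a sum over `(rr q ×ˢ Ico s1 s2) ×ˢ ({1, -1} : Finset ℤ)`, then `Finset.sum_nbij`/`Finset.sum_bij`.
-/

set_option autoImplicit false

namespace Pool.MP_dd84fd_nt.FA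

open Finset Pool.MP_67663b_nt.Odd Pool.MP_dd84fd_nt.En Pool.MP_dd84fd_nt.E2 Pool.MP_dd84fd_nt.LS
  Pool.MP_dd84fd_nt.GX

open Pool.MP_dd84fd_nt.L2G (nrm)

open Pool.MP_dd84fd_nt.PL (W FF rr)

private theorem al_int (G : ℕ) [NeZero G] (k : ℤ) :
    ∃ z : ℤ, al G (k : ZMod G) = (k : ℝ) / G - z := by
  refine ⟨k / G, ?_⟩
  have hG : (G : ℝ) ≠ 0 := Nat.cast_ne_zero.2 (NeZero.ne G)
  have h := ZMod.val_intCast (n := G) k
  have h2 : (k % G : ℤ) = k - G * (k / G) := Int.emod_def _ _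
  have h3 : (((k : ZMod G).val : ℤ) : ℝ) = ((k - G * (k / G) : ℤ) : ℝ) := by
    rw [h, h2]
  unfold al
  push_cast at h3
  rw [h3]
  field_simp

private theorem f_sub (f : ℝ → ℂ) (hper : ∀ x, f (x + 1) = f x) (x : ℝ) (z : ℤ) :
    f (x - z) = f x := by
  have hp : Function.Periodic f 1 := hper
  have h := hp.sub_zsmul_eq (x := x) z
  rw [zsmul_eq_mul, mul_one] at h
  exact h

/-- the grid point `a m + σ s` -/
private def ee (G m : ℕ) (t : ℕ × ℕ × ℤ) : ZMod G := (((t.1 : ℤ) * m + t.2.2 * t.2.1 : ℤ) : ZMod G)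

theorem grid_sum (X G q s1 s2 : ℕ) [NeZero G] (hX : 1 ≤ X) (hq : 1 ≤ q)
    (hqX : 4 * (q : ℝ) < Real.sqrt X) (hdiv : q ∣ G) (h1 : 1 ≤ s1) (h12 : s1 ≤ s2)
    (h2 : 4 * ((X : ℝ) * q * s2) ≤ G * Real.sqrt X) (f : ℝ → ℂ) (hper : ∀ x, f (x + 1) = f x) :
    ∑ j ∈ (univ : Finset (ZMod G)).filter (fun j => qd X (al G j) = q ∧
      (X : ℝ) * q * s1 / G ≤ X * nrm ((q : ℝ) * al G j) ∧
      X * nrm ((q : ℝ) * al G j) < (X : ℝ) * q * s2 / G), f (al G j) =
    ∑ a ∈ rr q, (∑ s ∈ Ico s1 s2, f ((a : ℝ) / q + (s : ℝ) / G) +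
      ∑ s ∈ Ico s1 s2, f ((a : ℝ) / q - (s : ℝ) / G)) := by
  have hG0 : 0 < G := Nat.pos_of_ne_zero (NeZero.ne G)
  obtain ⟨m, rfl⟩ := hdiv
  have hm0 : 0 < m := Nat.pos_of_mul_pos_left hG0
  have hXR : (1 : ℝ) ≤ X := by exact_mod_cast hX
  have hX0 : (0 : ℝ) < X := by linarith
  have hs0 : 0 < Real.sqrt X := Real.sqrt_pos.2 hX0
  have hsX : Real.sqrt X ≤ X := by
    rw [Real.sqrt_le_left hX0.le]
    nlinarith
  have hqR : (1 : ℝ) ≤ q := by exact_mod_cast hq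
  have hq0 : (0 : ℝ) < q := by linarith
  have hmR : (0 : ℝ) < m := by exact_mod_cast hm0
  have hGR : ((q * m : ℕ) : ℝ) = q * m := by push_cast; ring
  have h2' : 4 * ((X : ℝ) * s2) ≤ m * Real.sqrt X := by
    rw [hGR] at h2
    have e : 4 * ((X : ℝ) * q * s2) = q * (4 * ((X : ℝ) * s2)) := by ring
    have e' : (q : ℝ) * m * Real.sqrt X = q * (m * Real.sqrt X) := by ring
    rw [e, e'] at h2
    exact le_of_mul_le_mul_left h2 hq0
  have h4 : 4 * (s2 : ℝ) ≤ m := by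
    have e1 : (m : ℝ) * Real.sqrt X ≤ m * X := mul_le_mul_of_nonneg_left hsX hmR.le
    have e2 : X * (4 * (s2 : ℝ)) ≤ X * m := by nlinarith
    exact le_of_mul_le_mul_left e2 hX0
  have h4z : 4 * (s2 : ℤ) ≤ m := by exact_mod_cast h4
  -- the right side as a sum over triples
  set T : Finset (ℕ × ℕ × ℤ) := rr q ×ˢ (Ico s1 s2 ×ˢ ({1, -1} : Finset ℤ)) with hT
  have hR : ∑ a ∈ rr q, (∑ s ∈ Ico s1 s2, f ((a : ℝ) / q + (s : ℝ) / ((q * m : ℕ) : ℝ)) +
      ∑ s ∈ Ico s1 s2, f ((a : ℝ) / q - (s : ℝ) / ((q * m : ℕ) : ℝ))) =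
      ∑ t ∈ T, f ((t.1 : ℝ) / q + ((t.2.2 : ℝ) * t.2.1) / ((q * m : ℕ) : ℝ)) := by
    rw [hT, Finset.sum_product]
    refine Finset.sum_congr rfl fun a _ => ?_
    rw [Finset.sum_product, ← Finset.sum_add_distrib]
    refine Finset.sum_congr rfl fun s _ => ?_
    rw [Finset.sum_pair (by norm_num)]
    congr 2
    · push_cast
      ring
    · push_cast
      ring
  rw [hR]
  symm
  have hTm : ∀ t ∈ T, t.1 < q ∧ Nat.Coprime t.1 q ∧ s1 ≤ t.2.1 ∧ t.2.1 < s2 ∧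
      (t.2.2 = 1 ∨ t.2.2 = -1) := by
    intro t ht
    rw [hT, Finset.mem_product, Finset.mem_product, rr, Finset.mem_filter, Finset.mem_range,
      Finset.mem_Ico, Finset.mem_insert, Finset.mem_singleton] at ht
    exact ⟨ht.1.1, ht.1.2, ht.2.1.1, ht.2.1.2, ht.2.2⟩
  have hal : ∀ t ∈ T, ∃ z : ℤ, al (q * m) (ee (q * m) m t) =
      (((t.1 : ℤ) - q * z : ℤ) : ℝ) / q + ((t.2.2 : ℝ) * t.2.1) / ((q * m : ℕ) : ℝ) ∧
      al (q * m) (ee (q * m) m t) =
      (t.1 : ℝ) / q + ((t.2.2 : ℝ) * t.2.1) / ((q * m : ℕ) : ℝ) - z := by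
    intro t _
    obtain ⟨z, hz⟩ := al_int (q * m) ((t.1 : ℤ) * m + t.2.2 * t.2.1)
    refine ⟨z, ?_, ?_⟩
    · rw [ee, hz]
      push_cast
      field_simp
      ring
    · rw [ee, hz]
      push_cast
      field_simp
  refine Finset.sum_bij (fun t _ => ee (q * m) m t) ?_ ?_ ?_ ?_
  · -- maps into the set
    intro t ht
    obtain ⟨k1, k2, k3, k4, k5⟩ := hTm t ht
    obtain ⟨z, hz, -⟩ := hal t ht
    have habs : |((t.2.2 : ℝ) * t.2.1) / ((q * m : ℕ) : ℝ)| = (t.2.1 : ℝ) / (q * m) := by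
      rw [abs_div, abs_mul, hGR, abs_of_pos (mul_pos hq0 hmR),
        abs_of_nonneg (show (0 : ℝ) ≤ (t.2.1 : ℝ) from Nat.cast_nonneg _)]
      rcases k5 with h | h
      · rw [h]
        norm_num
      · rw [h]
        norm_num
    have hgcd : Int.gcd ((t.1 : ℤ) - q * z) q = 1 := by
      have e1 : IsCoprime ((t.1 : ℤ) - q * z) (q : ℤ) := by
        have e2 : IsCoprime (t.1 : ℤ) (q : ℤ) := Nat.isCoprime_iff_coprime.2 k2
        have e3 : (t.1 : ℤ) - q * z = t.1 + q * (-z) := by ring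
        rw [e3]
        exact IsCoprime.add_mul_left_left e2 _
      exact Int.isCoprime_iff_gcd_eq_one.1 e1
    have hs2R : (t.2.1 : ℝ) < s2 := by exact_mod_cast k4
    have hlt : 4 * ((X : ℝ) * (q * |((t.2.2 : ℝ) * t.2.1) / ((q * m : ℕ) : ℝ)|)) <
        Real.sqrt X := by
      rw [habs]
      have e1 : (q : ℝ) * ((t.2.1 : ℝ) / (q * m)) = t.2.1 / m := by field_simp
      rw [e1]
      have e2 : 4 * ((X : ℝ) * (t.2.1 / m)) = (4 * (X * t.2.1)) / m := by ring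
      rw [e2, div_lt_iff₀ hmR]
      have e3 : (X : ℝ) * t.2.1 < X * s2 := mul_lt_mul_of_pos_left hs2R hX0
      nlinarith
    have hn := near X q hX ((t.1 : ℤ) - q * z)
      (((t.2.2 : ℝ) * t.2.1) / ((q * m : ℕ) : ℝ)) hq hgcd hqX hlt
    rw [Finset.mem_filter]
    have hn2 := hn.2
    rw [habs] at hn2
    have e1 : (q : ℝ) * ((t.2.1 : ℝ) / (q * m)) = t.2.1 / m := by field_simp
    rw [e1] at hn2
    refine ⟨Finset.mem_univ _, ?_, ?_, ?_⟩
    · rw [hz]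
      exact hn.1
    · rw [hz, hn2, hGR]
      have e2 : (X : ℝ) * q * s1 / (q * m) = X * (s1 / m) := by field_simp
      rw [e2]
      refine mul_le_mul_of_nonneg_left ?_ hX0.le
      have e3 : (s1 : ℝ) ≤ t.2.1 := by exact_mod_cast k3
      exact div_le_div_of_nonneg_right e3 hmR.le
    · rw [hz, hn2, hGR]
      have e2 : (X : ℝ) * q * s2 / (q * m) = X * (s2 / m) := by field_simp
      rw [e2]
      refine mul_lt_mul_of_pos_left ?_ hX0
      exact div_lt_div_of_pos_right hs2R hmR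
  · -- injective
    intro t ht t' ht' heq
    obtain ⟨k1, k2, k3, k4, k5⟩ := hTm t ht
    obtain ⟨l1, l2, l3, l4, l5⟩ := hTm t' ht'
    have hdv : ((q * m : ℕ) : ℤ) ∣ ((t'.1 : ℤ) * m + t'.2.2 * t'.2.1) -
        ((t.1 : ℤ) * m + t.2.2 * t.2.1) := by
      exact (ZMod.intCast_eq_intCast_iff_dvd_sub _ _ _).1 heq
    have hmz : (0 : ℤ) < m := by exact_mod_cast hm0
    have hdm : (m : ℤ) ∣ t'.2.2 * t'.2.1 - t.2.2 * t.2.1 := by
      have e1 : (m : ℤ) ∣ ((t'.1 : ℤ) * m + t'.2.2 * t'.2.1) -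
          ((t.1 : ℤ) * m + t.2.2 * t.2.1) :=
        (Dvd.intro_left (q : ℤ) (by push_cast; ring)).trans hdv
      have e2 : t'.2.2 * (t'.2.1 : ℤ) - t.2.2 * t.2.1 =
          (((t'.1 : ℤ) * m + t'.2.2 * t'.2.1) - ((t.1 : ℤ) * m + t.2.2 * t.2.1)) -
            m * ((t'.1 : ℤ) - t.1) := by ring
      rw [e2]
      exact dvd_sub e1 (Dvd.intro _ rfl)
    have hb : |t'.2.2 * (t'.2.1 : ℤ) - t.2.2 * t.2.1| < m := by
      have a1 : (t.2.1 : ℤ) < s2 := by exact_mod_cast k4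
      have a2 : (t'.2.1 : ℤ) < s2 := by exact_mod_cast l4
      have a3 : (0 : ℤ) ≤ t.2.1 := Int.natCast_nonneg _
      have a4 : (0 : ℤ) ≤ t'.2.1 := Int.natCast_nonneg _
      rw [abs_lt]
      rcases k5 with h | h <;> rcases l5 with h' | h' <;> rw [h, h'] <;> constructor <;> omega
    have hz0 : t'.2.2 * (t'.2.1 : ℤ) - t.2.2 * t.2.1 = 0 := Int.eq_zero_of_abs_lt_dvd hdm hb
    have b1 : (1 : ℤ) ≤ t.2.1 := by exact_mod_cast h1.trans k3
    have b2 : (1 : ℤ) ≤ t'.2.1 := by exact_mod_cast h1.trans l3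
    have hσ : t.2.2 = t'.2.2 ∧ (t.2.1 : ℤ) = t'.2.1 := by
      rcases k5 with h | h <;> rcases l5 with h' | h' <;> rw [h, h'] at hz0 ⊢ <;> constructor <;>
        omega
    have hda : ((q * m : ℕ) : ℤ) ∣ ((t'.1 : ℤ) - t.1) * m := by
      have e1 : ((t'.1 : ℤ) - t.1) * m = (((t'.1 : ℤ) * m + t'.2.2 * t'.2.1) -
        ((t.1 : ℤ) * m + t.2.2 * t.2.1)) - (t'.2.2 * (t'.2.1 : ℤ) - t.2.2 * t.2.1) := by ring
      rw [e1, hz0, sub_zero]
      exact hdv
    have hdq : (q : ℤ) ∣ (t'.1 : ℤ) - t.1 := by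
      have e1 : ((q * m : ℕ) : ℤ) = q * m := by push_cast; ring
      rw [e1] at hda
      exact Int.dvd_of_mul_dvd_mul_right hmz.ne' hda
    have hba : |(t'.1 : ℤ) - t.1| < q := by
      rw [abs_lt]
      constructor <;> omega
    have hz1 : (t'.1 : ℤ) - t.1 = 0 := Int.eq_zero_of_abs_lt_dvd hdq hba
    refine Prod.ext ?_ (Prod.ext ?_ ?_)
    · omega
    · exact_mod_cast hσ.2
    · exact hσ.1
  · -- surjective
    intro j hj
    rw [Finset.mem_filter] at hj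
    obtain ⟨-, c1, c2, c3⟩ := hj
    obtain ⟨d1, d2, d3, d4⟩ := qd_spec X hX (al (q * m) j)
    rw [c1] at d4
    set a0 : ℤ := round ((q : ℝ) * al (q * m) j) with ha0
    set v : ℤ := (j.val : ℤ) with hv
    set s' : ℤ := v - a0 * m with hs'
    have hqa : (q : ℝ) * al (q * m) j = v / m := by
      unfold al
      rw [hGR, hv]
      push_cast
      field_simp
    have hns : nrm ((q : ℝ) * al (q * m) j) = |(s' : ℝ)| / m := by
      have e1 : nrm ((q : ℝ) * al (q * m) j) = |(q : ℝ) * al (q * m) j - a0| := rfl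
      rw [e1, hqa]
      have e2 : (v : ℝ) / m - a0 = s' / m := by
        rw [hs']
        push_cast
        field_simp
      rw [e2, abs_div, abs_of_pos hmR]
    have hlo : (s1 : ℤ) ≤ |s'| := by
      rw [hns, hGR] at c2
      have e2 : (X : ℝ) * q * s1 / (q * m) = X * (s1 / m) := by field_simp
      rw [e2] at c2
      have e3 := le_of_mul_le_mul_left c2 hX0
      have e4 : (s1 : ℝ) ≤ |(s' : ℝ)| := by
        rwa [div_le_div_iff_of_pos_right hmR] at e3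
      exact_mod_cast e4
    have hhi : |s'| < (s2 : ℤ) := by
      rw [hns, hGR] at c3
      have e2 : (X : ℝ) * q * s2 / (q * m) = X * (s2 / m) := by field_simp
      rw [e2] at c3
      have e3 := lt_of_mul_lt_mul_left c3 hX0.le
      have e4 : |(s' : ℝ)| < (s2 : ℝ) := by
        rwa [div_lt_div_iff_of_pos_right hmR] at e3
      exact_mod_cast e4
    have hqz : (0 : ℤ) < q := by exact_mod_cast hq
    obtain ⟨a, ha⟩ : ∃ a : ℕ, (a : ℤ) = a0 % q :=
      ⟨(a0 % q).toNat, Int.toNat_of_nonneg (Int.emod_nonneg _ hqz.ne')⟩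
    have haq : (a : ℤ) < q := by
      rw [ha]
      exact Int.emod_lt_of_pos _ hqz
    have hac : Nat.Coprime a q := by
      have e1 : IsCoprime (a : ℤ) (q : ℤ) := by
        rw [ha, Int.emod_def]
        have e2 : IsCoprime a0 (q : ℤ) := Int.isCoprime_iff_gcd_eq_one.2 d4
        have e3 : a0 - q * (a0 / q) = a0 + q * (-(a0 / q)) := by ring
        rw [e3]
        exact IsCoprime.add_mul_left_left e2 _
      exact Nat.isCoprime_iff_coprime.1 e1
    have hs1z : (1 : ℤ) ≤ s1 := by exact_mod_cast h1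
    obtain ⟨σ, s, hσ1, hσ2⟩ : ∃ σ : ℤ, ∃ s : ℕ, (σ = 1 ∨ σ = -1) ∧ ((s : ℤ) = |s'| ∧ σ * s = s') := by
      rcases le_or_gt 0 s' with h | h
      · refine ⟨1, s'.natAbs, Or.inl rfl, ?_, ?_⟩
        · rw [Int.natCast_natAbs]
        · rw [Int.natCast_natAbs, abs_of_nonneg h, one_mul]
      · refine ⟨-1, s'.natAbs, Or.inr rfl, ?_, ?_⟩
        · rw [Int.natCast_natAbs]
        · rw [Int.natCast_natAbs, abs_of_neg h]
          ring
    refine ⟨(a, s, σ), ?_, ?_⟩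
    · rw [hT, Finset.mem_product, Finset.mem_product, rr, Finset.mem_filter, Finset.mem_range,
        Finset.mem_Ico, Finset.mem_insert, Finset.mem_singleton]
      refine ⟨⟨by exact_mod_cast haq, hac⟩, ⟨?_, ?_⟩, hσ1⟩
      · have : (s1 : ℤ) ≤ s := by rw [hσ2.1]; exact hlo
        exact_mod_cast this
      · have : (s : ℤ) < s2 := by rw [hσ2.1]; exact hhi
        exact_mod_cast this
    · show (((a : ℤ) * m + σ * s : ℤ) : ZMod (q * m)) = j
      have e1 : (j : ZMod (q * m)) = ((v : ℤ) : ZMod (q * m)) := by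
        rw [hv]
        simp
      rw [e1, ZMod.intCast_eq_intCast_iff_dvd_sub, hσ2.2, hs', ha, Int.emod_def]
      refine ⟨a0 / q, ?_⟩
      push_cast
      ring
  · -- values
    intro t ht
    obtain ⟨z, -, hz⟩ := hal t ht
    rw [hz, f_sub f hper]

end Pool.MP_dd84fd_nt.FA
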