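import Pool.Agent.Lib.MP_dd84fd_nt.FA.Fin

/-!
# Theorem F: numbers without exceptional moduli
-/

set_option autoImplicit false

namespace Pool.MP_dd84fd_nt.FA

open Finset Pool.MP_67663b_nt.Odd Pool.MP_dd84fd_nt.En Pool.MP_dd84fd_nt.E2 Pool.MP_dd84fd_nt.LS
  Pool.MP_dd84fd_nt.GX

/-- even numbers without a divisor between `(log X)^K` and `√X` -/
theorem cor_div (A K : ℕ) (ε : ℝ) (hε : 0 < ε) : ∃ X0 : ℕ, ∀ X : ℕ, X0 ≤ X →
    ∀ P : ℕ → Prop, ∀ _ : DecidablePred P,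
      (∀ n, P n → Even n ∧ (∀ d : ℕ, d ∣ n → (Real.log X) ^ K ≤ (d : ℝ) → Real.sqrt X < d) ∧
        (n : ℝ) / (Real.log n) ^ A < |(g n : ℝ) - SS n * JJ n|) →
      (((Icc 1 X).filter P).card : ℝ) ≤ (X : ℝ) ^ (1 / 2 + ε) := by
  obtain ⟨C, hC⟩ := ffin A ε hε
  obtain ⟨X0, hX0⟩ := hC K
  refine ⟨X0, fun X hX P _ hP => ?_⟩
  obtain ⟨D, -, h2, h3⟩ := hX0 X hX
  refine le_trans ?_ h3
  have h4 : (Icc 1 X).filter P ⊆ (Icc 1 X).filter (fun n => Even n ∧ (∀ d ∈ D, ¬ d ∣ n) ∧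
      (n : ℝ) / (Real.log n) ^ A < |(g n : ℝ) - SS n * JJ n|) := by
    intro n hn
    rw [Finset.mem_filter] at hn ⊢
    obtain ⟨hn1, hn2⟩ := hn
    obtain ⟨h5, h6, h7⟩ := hP n hn2
    refine ⟨hn1, h5, fun d hd hdn => ?_, h7⟩
    have h8 := h6 d hdn (h2 d hd).1
    have h9 := (h2 d hd).2
    rw [← Real.sqrt_eq_rpow] at h9
    linarith
  exact_mod_cast Finset.card_le_card h4

private lemma cor_ev (c : ℝ) (ε : ℝ) (hε : 0 < ε) : ∃ X0 : ℕ, ∀ X : ℕ, X0 ≤ X →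
    c ≤ (X : ℝ) ^ ε := by
  have h := ((tendsto_rpow_atTop hε).comp (tendsto_natCast_atTop_atTop (R := ℝ))).eventually_ge_atTop c
  obtain ⟨X0, h1⟩ := Filter.eventually_atTop.1 h
  exact ⟨X0, fun X hX => h1 X hX⟩

/-- primes as means of two primes -/
theorem cor_prime (A : ℕ) (ε : ℝ) (hε : 0 < ε) : ∃ X0 : ℕ, ∀ X : ℕ, X0 ≤ X →
    ∀ P : ℕ → Prop, ∀ _ : DecidablePred P,
      (∀ p, P p → p.Prime ∧ ((2 * p : ℕ) : ℝ) / (Real.log ((2 * p : ℕ) : ℝ)) ^ A <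
        |(g (2 * p) : ℝ) - SS (2 * p) * JJ (2 * p)|) →
      (((Icc 1 X).filter P).card : ℝ) ≤ (X : ℝ) ^ (1 / 2 + ε) := by
  obtain ⟨X1, hX1⟩ := cor_div A 1 (ε / 2) (by linarith)
  obtain ⟨X2, hX2⟩ := cor_ev (2 + (2 : ℝ) ^ (1 / 2 + ε / 2)) (ε / 2) (by linarith)
  refine ⟨max X1 (max X2 8), fun X hX P _ hP => ?_⟩
  simp only [max_le_iff] at hX
  obtain ⟨hXa, hXb, hXc⟩ := hX
  have hXR : (8 : ℝ) ≤ X := by exact_mod_cast hXc
  have hX0 : (0 : ℝ) < X := by linarith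
  classical
  -- large primes
  have h1 := hX1 (2 * X) (by omega) (fun n => ∃ p : ℕ, n = 2 * p ∧ P p ∧ Real.sqrt ((2 * X : ℕ) : ℝ) < p)
    (Classical.decPred _) (by
      rintro n ⟨p, rfl, hp, hpl⟩
      obtain ⟨h2, h3⟩ := hP p hp
      refine ⟨even_two_mul p, fun d hd hL => ?_, h3⟩
      rw [pow_one] at hL
      have h4 : (2 : ℝ) < Real.log ((2 * X : ℕ) : ℝ) := by
        rw [Real.lt_log_iff_exp_lt (by push_cast; linarith)]
        have h5 : Real.exp 2 = Real.exp 1 * Real.exp 1 := by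
          rw [← Real.exp_add]; norm_num
        have h6 := Real.exp_one_lt_d9
        have h7 := Real.exp_pos 1
        rw [h5]
        push_cast
        nlinarith
      have h5 : 2 < d := by
        have : (2 : ℝ) < d := by linarith
        exact_mod_cast this
      have h6 : p ∣ d := by
        by_contra h7
        have h8 : Nat.Coprime d p := ((Nat.Prime.coprime_iff_not_dvd h2).2 h7).symm
        have h9 : d ∣ 2 := h8.dvd_of_dvd_mul_right hd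
        exact absurd (Nat.le_of_dvd (by norm_num) h9) (by omega)
      have h7 : p ≤ d := Nat.le_of_dvd (by omega) h6
      have h8 : (p : ℝ) ≤ d := by exact_mod_cast h7
      linarith)
  have h2 : ((Icc 1 X).filter P).card ≤ (Nat.sqrt (2 * X)) +
      ((Icc 1 (2 * X)).filter (fun n => ∃ p : ℕ, n = 2 * p ∧ P p ∧
        Real.sqrt ((2 * X : ℕ) : ℝ) < p)).card := by
    have h3 : (Icc 1 X).filter P ⊆ (Icc 1 (Nat.sqrt (2 * X))) ∪
        (((Icc 1 X).filter (fun p => P p ∧ Real.sqrt ((2 * X : ℕ) : ℝ) < p))) := by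
      intro p hp
      rw [Finset.mem_filter, Finset.mem_Icc] at hp
      rw [Finset.mem_union, Finset.mem_Icc, Finset.mem_filter, Finset.mem_Icc]
      by_cases h4 : p ≤ Nat.sqrt (2 * X)
      · exact Or.inl ⟨hp.1.1, h4⟩
      · refine Or.inr ⟨hp.1, hp.2, ?_⟩
        rw [Real.sqrt_lt' (by exact_mod_cast hp.1.1)]
        have h5 : 2 * X < p * p := Nat.sqrt_lt.1 (not_le.1 h4)
        have h6 : ((2 * X : ℕ) : ℝ) < ((p * p : ℕ) : ℝ) := by exact_mod_cast h5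
        rw [sq]
        push_cast at h6 ⊢
        exact h6
    refine (Finset.card_le_card h3).trans ((Finset.card_union_le _ _).trans ?_)
    rw [Nat.card_Icc, Nat.add_sub_cancel]
    refine Nat.add_le_add_left ?_ _
    refine Finset.card_le_card_of_injOn (fun p => 2 * p) ?_ ?_
    · intro p hp
      have hp' := hp
      rw [Finset.mem_coe, Finset.mem_filter, Finset.mem_Icc] at hp'
      rw [Finset.mem_coe, Finset.mem_filter, Finset.mem_Icc]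
      exact ⟨⟨(by omega : 1 ≤ 2 * p), (by omega : 2 * p ≤ 2 * X)⟩, p, rfl, hp'.2.1, hp'.2.2⟩
    · intro p _ q _ h
      have : 2 * p = 2 * q := h
      omega
  have h3 : (((Icc 1 X).filter P).card : ℝ) ≤ (Nat.sqrt (2 * X) : ℝ) +
      (((Icc 1 (2 * X)).filter (fun n => ∃ p : ℕ, n = 2 * p ∧ P p ∧
        Real.sqrt ((2 * X : ℕ) : ℝ) < p)).card : ℝ) := by exact_mod_cast h2
  have h4 : (Nat.sqrt (2 * X) : ℝ) ≤ 2 * (X : ℝ) ^ (1 / 2 + ε / 2) := by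
    have h5 : (Nat.sqrt (2 * X) : ℝ) ≤ Real.sqrt ((2 * X : ℕ) : ℝ) := Real.nat_sqrt_le_real_sqrt
    have h6 : Real.sqrt ((2 * X : ℕ) : ℝ) ≤ 2 * Real.sqrt X := by
      rw [Real.sqrt_le_left (by positivity), mul_pow, Real.sq_sqrt hX0.le]
      push_cast
      linarith
    have h7 : Real.sqrt X ≤ (X : ℝ) ^ (1 / 2 + ε / 2) := by
      rw [Real.sqrt_eq_rpow]
      exact Real.rpow_le_rpow_of_exponent_le (by linarith) (by linarith)
    linarith
  have h5 : ((2 * X : ℕ) : ℝ) ^ (1 / 2 + ε / 2) =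
      (2 : ℝ) ^ (1 / 2 + ε / 2) * (X : ℝ) ^ (1 / 2 + ε / 2) := by
    push_cast
    rw [Real.mul_rpow (by norm_num) hX0.le]
  have h6 : (X : ℝ) ^ (1 / 2 + ε) = (X : ℝ) ^ (ε / 2) * (X : ℝ) ^ (1 / 2 + ε / 2) := by
    rw [← Real.rpow_add hX0]
    ring_nf
  have h7 := hX2 X hXb
  have h8 : 0 ≤ (X : ℝ) ^ (1 / 2 + ε / 2) := by positivity
  have h9 := mul_le_mul_of_nonneg_right h7 h8
  rw [h6]
  have h10 : (((Icc 1 (2 * X)).filter (fun n => ∃ p : ℕ, n = 2 * p ∧ P p ∧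
        Real.sqrt ((2 * X : ℕ) : ℝ) < p)).card : ℝ) ≤ ((2 * X : ℕ) : ℝ) ^ (1 / 2 + ε / 2) := by
    convert h1 using 3
  rw [h5] at h10
  linarith

end Pool.MP_dd84fd_nt.FA
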