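import Pool.Agent.Lib.MP_dd84fd_nt.GX.Defs
import Pool.Agent.Lib.MP_dd84fd_nt.PL.Defs

/-!
# Goldbach exceptions and few moduli: definitions for the arcs and the pieces
-/

set_option autoImplicit false

namespace Pool.MP_dd84fd_nt.FA

open Finset Pool.MP_67663b_nt.Odd Pool.MP_dd84fd_nt.En Pool.MP_dd84fd_nt.E2 Pool.MP_dd84fd_nt.LS
  Pool.MP_dd84fd_nt.GX

open Pool.MP_dd84fd_nt.L2G (nrm)

open Pool.MP_dd84fd_nt.PL (W FF rr)

/-- `Ph` for the second function `VV` -/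
noncomputable def Pv (G : ℕ) [NeZero G] (X w : ℕ) (ω : ZMod G → ℂ) (n : ℕ) : ℂ :=
  Ph G X w (VV G X w) ω n

/-- the integral of `F` over the arcs `u/X ≤ |θ - a/q| ≤ v/X` -/
noncomputable def arc (F : ℝ → ℂ) (X q : ℕ) (u v : ℝ) : ℂ :=
  ∑ a ∈ rr q, ((∫ x in (u / X)..(v / X), F ((a : ℝ) / q + x)) +
    ∫ x in (u / X)..(v / X), F ((a : ℝ) / q - x))

/-- the integral of `|W_- W_+|` over the arcs `|θ - a/q| ≤ v/X` -/
noncomputable def arcN (w X q : ℕ) (v : ℝ) : ℝ :=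
  ∑ a ∈ rr q, ∫ x in (-(v / X))..(v / X), ‖W (-1) w X ((a : ℝ) / q + x) * W 1 w X ((a : ℝ) / q + x)‖

/-- the weight of the piece `(a, t)`: `2^a ≤ q < 2^(a+1)`,
`2^(a+t)/2^I ≤ X ‖q α‖ < 2^(a+t+1)/2^I`, `q = qd X α` -/
noncomputable def pw (G X I a t : ℕ) (j : ZMod G) : ℂ :=
  if Nat.log 2 (qd X (al G j)) = a ∧
    (2 : ℝ) ^ (a + t) / 2 ^ I ≤ X * nrm ((qd X (al G j) : ℝ) * al G j) ∧
    X * nrm ((qd X (al G j) : ℝ) * al G j) < (2 : ℝ) ^ (a + t + 1) / 2 ^ I then 1 else 0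

/-- the weight of the centres: `X ‖q α‖ < 2^a/2^I`, `2^a ≤ q < 2^(a+1)` -/
noncomputable def cw (G X I : ℕ) (j : ZMod G) : ℂ :=
  if X * nrm ((qd X (al G j) : ℝ) * al G j) < (2 : ℝ) ^ (Nat.log 2 (qd X (al G j))) / 2 ^ I
    then 1 else 0

/-- restriction of a weight to the denominator `q` -/
noncomputable def rq (G X q : ℕ) (ω : ZMod G → ℂ) (j : ZMod G) : ℂ :=
  if qd X (al G j) = q then ω j else 0

/-- the grid: every cutoff `2^c/(2^I X q)` is a grid point -/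
def gg (X : ℕ) : ℕ := 3 * 2 ^ X * (X * X.factorial)

/-- the hypotheses on the grid -/
def Grid (X G : ℕ) : Prop :=
  3 * X ≤ G ∧ X ^ 10 ≤ G ∧ ∀ q I : ℕ, 1 ≤ q → q ≤ X → I ≤ X → 2 ^ I * (X * q) ∣ G

end Pool.MP_dd84fd_nt.FA
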