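import Pool.Agent.Lib.MP_dd84fd_nt.FA.Split

/-!
# FA-Fam (0.4 h): the remaining denominators

`fam_lcm`: `q, q' ∈ fam`. `lcm(q, Λ) = Λ g`, `g ≤ X^(ε/8)`, the same for `q'`, `g'`; `q ∣ Λ g g'`, `q' ∣ Λ g g'`, so `lcm(q, q') ∣ Λ g g'` and `lcm(q, q') ≤ Λ g g' ≤ X^(ε/4) Λ`.
`fam_small`: `b = a + (t - I)`; `q ≤ lcm(q, Λ) ≤ X^(ε/8) Λ`, `2^a ≤ q`, so `2^b Λ ≤ 2^a X^(1/2-ε/2) ≤ X^(ε/8) Λ X^(1/2-ε/2)`, `2^b ≤ X^(1/2-3ε/8)` and `q < 2^(a+1) ≤ 2·2^b`.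
`X^(ε/8) ≥ 16` gives both.
-/

set_option autoImplicit false

namespace Pool.MP_dd84fd_nt.FA

open Finset Pool.MP_67663b_nt.Odd Pool.MP_dd84fd_nt.En Pool.MP_dd84fd_nt.E2 Pool.MP_dd84fd_nt.LS
  Pool.MP_dd84fd_nt.GX

open Pool.MP_dd84fd_nt.L2G (nrm)

open Pool.MP_dd84fd_nt.PL (W FF rr)

private theorem fam_mem {X Λ a : ℕ} {ε : ℝ} {q : ℕ} (hq : q ∈ fam X Λ a ε) :
    2 ^ a ≤ q ∧ q < 2 ^ (a + 1) ∧ (Nat.lcm q Λ : ℝ) ≤ (X : ℝ) ^ (ε / 8) * Λ := by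
  unfold fam at hq
  rw [mem_filter, mem_Ico] at hq
  exact ⟨hq.1.1, hq.1.2, hq.2⟩

theorem fam_lcm (X Λ a : ℕ) (ε : ℝ) (hX : 1 ≤ X) (hΛ : 1 ≤ Λ) (q q' : ℕ) (hq : q ∈ fam X Λ a ε)
    (hq' : q' ∈ fam X Λ a ε) : (Nat.lcm q q' : ℝ) ≤ (X : ℝ) ^ (ε / 4) * Λ := by
  obtain ⟨h1, -, h2⟩ := fam_mem hq
  obtain ⟨h1', -, h2'⟩ := fam_mem hq'
  have hq0 : 0 < q := lt_of_lt_of_le (by positivity) h1
  have hq0' : 0 < q' := lt_of_lt_of_le (by positivity) h1'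
  have hX0 : (0 : ℝ) < X := by exact_mod_cast hX
  have hΛ0 : (0 : ℝ) < Λ := by exact_mod_cast hΛ
  obtain ⟨g, hg⟩ := Nat.dvd_lcm_right q Λ
  obtain ⟨g', hg'⟩ := Nat.dvd_lcm_right q' Λ
  have hlpos : 0 < Nat.lcm q Λ := Nat.lcm_pos hq0 hΛ
  have hlpos' : 0 < Nat.lcm q' Λ := Nat.lcm_pos hq0' hΛ
  have hd : Nat.lcm q q' ∣ Λ * g * g' := by
    apply Nat.lcm_dvd
    · have := Nat.dvd_lcm_left q Λ
      rw [hg] at this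
      exact Dvd.dvd.mul_right this g'
    · have := Nat.dvd_lcm_left q' Λ
      rw [hg'] at this
      have h3 : Λ * g * g' = Λ * g' * g := by ring
      rw [h3]
      exact Dvd.dvd.mul_right this g
  have hg0 : 0 < g := by
    rcases Nat.eq_zero_or_pos g with h | h
    · rw [h, mul_zero] at hg; omega
    · exact h
  have hg0' : 0 < g' := by
    rcases Nat.eq_zero_or_pos g' with h | h
    · rw [h, mul_zero] at hg'; omega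
    · exact h
  have hle : Nat.lcm q q' ≤ Λ * g * g' :=
    Nat.le_of_dvd (Nat.mul_pos (Nat.mul_pos hΛ hg0) hg0') hd
  have hle' : (Nat.lcm q q' : ℝ) ≤ Λ * g * g' := by exact_mod_cast hle
  rw [hg, Nat.cast_mul, mul_comm] at h2
  rw [hg', Nat.cast_mul, mul_comm] at h2'
  have h3 : (g : ℝ) ≤ (X : ℝ) ^ (ε / 8) := le_of_mul_le_mul_right h2 hΛ0
  have h3' : (g' : ℝ) ≤ (X : ℝ) ^ (ε / 8) := le_of_mul_le_mul_right h2' hΛ0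
  have h4 : (X : ℝ) ^ (ε / 4) = (X : ℝ) ^ (ε / 8) * (X : ℝ) ^ (ε / 8) := by
    rw [← Real.rpow_add hX0]; congr 1; ring
  rw [h4]
  calc (Nat.lcm q q' : ℝ) ≤ Λ * g * g' := hle'
    _ = (g * g') * Λ := by ring
    _ ≤ ((X : ℝ) ^ (ε / 8) * (X : ℝ) ^ (ε / 8)) * Λ := by gcongr

theorem fam_small (ε : ℝ) (hε : 0 < ε) : ∃ X0 : ℕ, ∀ X : ℕ, X0 ≤ X → ∀ (I a t Λ : ℕ), 1 ≤ Λ →
    (Λ : ℝ) * 2 ^ (a + (t - I)) ≤ 2 ^ a * (X : ℝ) ^ (1 / 2 - ε / 2) → ∀ q ∈ fam X Λ a ε,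
    16 * (2 : ℝ) ^ (a + (t - I)) ≤ Real.sqrt X ∧ (q : ℝ) ≤ (X : ℝ) ^ (1 / 2 - ε / 4) := by
  refine ⟨⌈(16 : ℝ) ^ (8 / ε)⌉₊, fun X hX I a t Λ hΛ h q hq => ?_⟩
  obtain ⟨h1, h2, h3⟩ := fam_mem hq
  have hq0 : 0 < q := lt_of_lt_of_le (by positivity) h1
  have hΛ0 : (0 : ℝ) < Λ := by exact_mod_cast hΛ
  have hX1 : (16 : ℝ) ^ (8 / ε) ≤ X := (Nat.le_ceil _).trans (by exact_mod_cast hX)
  have hX0 : (0 : ℝ) < X := lt_of_lt_of_le (by positivity) hX1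
  have h16 : (16 : ℝ) ≤ (X : ℝ) ^ (ε / 8) := by
    have h4 : ((16 : ℝ) ^ (8 / ε)) ^ (ε / 8) = 16 := by
      rw [← Real.rpow_mul (by norm_num)]
      have : 8 / ε * (ε / 8) = 1 := by field_simp
      rw [this, Real.rpow_one]
    calc (16 : ℝ) = ((16 : ℝ) ^ (8 / ε)) ^ (ε / 8) := h4.symm
      _ ≤ (X : ℝ) ^ (ε / 8) := Real.rpow_le_rpow (by positivity) hX1 (by positivity)
  -- `q ≤ X^(ε/8) Λ`
  have h5 : (q : ℝ) ≤ (X : ℝ) ^ (ε / 8) * Λ := by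
    refine le_trans ?_ h3
    exact_mod_cast Nat.le_of_dvd (Nat.lcm_pos hq0 hΛ) (Nat.dvd_lcm_left q Λ)
  have h1' : (2 : ℝ) ^ a ≤ q := by exact_mod_cast h1
  have h2' : (q : ℝ) < 2 ^ (a + 1) := by exact_mod_cast h2
  have hXp : 0 < (X : ℝ) ^ (1 / 2 - ε / 2) := Real.rpow_pos_of_pos hX0 _
  have h6 : (2 : ℝ) ^ (a + (t - I)) ≤ (X : ℝ) ^ (1 / 2 - 3 * ε / 8) := by
    have h7 : (Λ : ℝ) * 2 ^ (a + (t - I)) ≤ Λ * (X : ℝ) ^ (1 / 2 - 3 * ε / 8) := by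
      have h8 : (X : ℝ) ^ (1 / 2 - 3 * ε / 8) =
          (X : ℝ) ^ (ε / 8) * (X : ℝ) ^ (1 / 2 - ε / 2) := by
        rw [← Real.rpow_add hX0]; congr 1; ring
      rw [h8]
      calc (Λ : ℝ) * 2 ^ (a + (t - I)) ≤ 2 ^ a * (X : ℝ) ^ (1 / 2 - ε / 2) := h
        _ ≤ ((X : ℝ) ^ (ε / 8) * Λ) * (X : ℝ) ^ (1 / 2 - ε / 2) :=
          mul_le_mul_of_nonneg_right (h1'.trans h5) hXp.le
        _ = Λ * ((X : ℝ) ^ (ε / 8) * (X : ℝ) ^ (1 / 2 - ε / 2)) := by ring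
    exact le_of_mul_le_mul_left h7 hΛ0
  have hXq : 0 < (X : ℝ) ^ (1 / 2 - 3 * ε / 8) := Real.rpow_pos_of_pos hX0 _
  have hX1' : (1 : ℝ) ≤ X := by
    by_contra hcon
    push Not at hcon
    have : (X : ℝ) ^ (ε / 8) ≤ 1 := Real.rpow_le_one hX0.le hcon.le (by positivity)
    linarith
  constructor
  · have h9 : Real.sqrt X = (X : ℝ) ^ (3 * ε / 8) * (X : ℝ) ^ (1 / 2 - 3 * ε / 8) := by
      rw [← Real.rpow_add hX0, Real.sqrt_eq_rpow]; congr 1; ring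
    have h10 : (X : ℝ) ^ (ε / 8) ≤ (X : ℝ) ^ (3 * ε / 8) :=
      Real.rpow_le_rpow_of_exponent_le hX1' (by linarith)
    rw [h9]
    calc 16 * (2 : ℝ) ^ (a + (t - I)) ≤ (X : ℝ) ^ (3 * ε / 8) * (2 : ℝ) ^ (a + (t - I)) :=
          mul_le_mul_of_nonneg_right (h16.trans h10) (by positivity)
      _ ≤ (X : ℝ) ^ (3 * ε / 8) * (X : ℝ) ^ (1 / 2 - 3 * ε / 8) :=
          mul_le_mul_of_nonneg_left h6 (by positivity)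
  · have h9 : (X : ℝ) ^ (1 / 2 - ε / 4) = (X : ℝ) ^ (ε / 8) * (X : ℝ) ^ (1 / 2 - 3 * ε / 8) := by
      rw [← Real.rpow_add hX0]; congr 1; ring
    have h11 : (2 : ℝ) ^ (a + 1) ≤ 2 * 2 ^ (a + (t - I)) := by
      have h12 : (2 : ℝ) ^ a ≤ 2 ^ (a + (t - I)) :=
        pow_le_pow_right₀ (by norm_num) (Nat.le_add_right _ _)
      rw [pow_succ]; linarith
    rw [h9]
    calc (q : ℝ) ≤ 2 * 2 ^ (a + (t - I)) := h2'.le.trans h11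
      _ ≤ (X : ℝ) ^ (ε / 8) * (2 : ℝ) ^ (a + (t - I)) :=
          mul_le_mul_of_nonneg_right (by linarith) (by positivity)
      _ ≤ (X : ℝ) ^ (ε / 8) * (X : ℝ) ^ (1 / 2 - 3 * ε / 8) :=
          mul_le_mul_of_nonneg_left h6 (by positivity)

end Pool.MP_dd84fd_nt.FA
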