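import Pool.Agent.Lib.MP_dd84fd_nt.FA.Scale
import Pool.Agent.Lib.MP_dd84fd_nt.E2.MinorP

/-!
# FA-Fin (0.8 h): Theorem F

Proof. `scale A (ε/2)` gives `C'`; `C = C' + 2`. Given `K` use `K' = K + 1`. Scales `Y_i = X / 2^i` (ℕ division), `i ∈ range (Nat.log 2 X + 1)` with `Y_i ≥ √X` (real inequality), sets `D_i` (choose), `D = ⋃ D_i` (`Finset.biUnion`).
`#D ≤ 3 L · L^C' ≤ L^(C'+2)` (`log Y_i ≤ L`). `d ∈ D_i`: `d ≥ (log Y_i)^(K+1) ≥ (L/2)^(K+1) ≥ L^K` for `L ≥ 2^(K+1)`; `d ≤ Y_i^(1/2) ≤ X^(1/2)`.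
Exceptions: `n ≤ X` even, no `d ∈ D` divides `n`, exceptional. If `n ≤ 2√X`: at most `2√X`. Otherwise let `i` be the largest with `n ≤ X/2^i` (`i ≤ Nat.log 2 X`): `X/2^(i+1) < n`, `X/2^(i+1) = (X/2^i)/2`, so `Y_i < 2n` and `Y_i ≥ n ≥ √X`: `n` is counted at scale `Y_i`,
`≤ Y_i^(1/2+ε/2) ≤ X^(1/2+ε/2)`. Total `≤ 2√X + 3 L X^(1/2+ε/2) ≤ X^(1/2+ε)`. (Compare `GX.GFin`: the same argument.)
-/

set_option autoImplicit false

namespace Pool.MP_dd84fd_nt.FA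

open Finset Pool.MP_67663b_nt.Odd Pool.MP_dd84fd_nt.En Pool.MP_dd84fd_nt.E2 Pool.MP_dd84fd_nt.LS
  Pool.MP_dd84fd_nt.GX

open Pool.MP_dd84fd_nt.L2G (nrm)

open Pool.MP_dd84fd_nt.PL (W FF rr)

private theorem fin_scale (X n : ℕ) (hn : 1 ≤ n) (hnX : n ≤ X) :
    ∃ i, i ≤ Nat.log 2 X ∧ n ≤ X / 2 ^ i ∧ X / 2 ^ i < 2 * n := by
  have h0 : X / n ≠ 0 := by
    have := Nat.div_pos hnX hn
    omega
  refine ⟨Nat.log 2 (X / n), ?_, ?_, ?_⟩
  · exact Nat.log_mono_right (Nat.div_le_self _ _)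
  · rw [Nat.le_div_iff_mul_le (by positivity)]
    have h1 := Nat.pow_log_le_self 2 h0
    have h2 : n * 2 ^ Nat.log 2 (X / n) ≤ n * (X / n) := Nat.mul_le_mul_left _ h1
    exact h2.trans (Nat.mul_div_le _ _)
  · rw [Nat.div_lt_iff_lt_mul (by positivity)]
    have h1 := Nat.lt_pow_succ_log_self (b := 2) (by norm_num) (X / n)
    rw [Nat.div_lt_iff_lt_mul hn, pow_succ] at h1
    calc X < 2 ^ Nat.log 2 (X / n) * 2 * n := h1
      _ = 2 * n * 2 ^ Nat.log 2 (X / n) := by ring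

private theorem fin_log2 (X : ℕ) (hL : 1 ≤ Real.log X) :
    ((Nat.log 2 X : ℕ) : ℝ) + 1 ≤ 3 * Real.log X := by
  have h1 := Real.natLog_le_logb X 2
  have h2 : (0.6931471803 : ℝ) < Real.log 2 := Real.log_two_gt_d9
  have h3 : Real.logb 2 X ≤ 2 * Real.log X := by
    rw [Real.logb, div_le_iff₀ (by linarith)]
    nlinarith
  push_cast at h1 h3
  linarith

theorem ffin (A : ℕ) (ε : ℝ) (hε : 0 < ε) : ∃ C : ℕ, ∀ K : ℕ, ∃ X0 : ℕ, ∀ X : ℕ, X0 ≤ X →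
    ∃ D : Finset ℕ, (D.card : ℝ) ≤ (Real.log X) ^ C ∧
      (∀ d ∈ D, (Real.log X) ^ K ≤ (d : ℝ) ∧ (d : ℝ) ≤ (X : ℝ) ^ (1 / 2 : ℝ)) ∧
      (((Icc 1 X).filter (fun n => Even n ∧ (∀ d ∈ D, ¬ d ∣ n) ∧
        (n : ℝ) / (Real.log n) ^ A < |(g n : ℝ) - SS n * JJ n|)).card : ℝ) ≤
        (X : ℝ) ^ (1 / 2 + ε) := by
  obtain ⟨C', hC'⟩ := scale A (ε / 2) (by positivity)
  refine ⟨C' + 2, fun K => ?_⟩
  obtain ⟨Y0, hY0⟩ := hC' (K + 1)
  obtain ⟨X1, hX1⟩ := MP_log_large (max 10 (2 ^ (K + 1)))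
  obtain ⟨X4, hX4⟩ := MP_log_pow 4 1 (ε := ε / 2) (by positivity)
  refine ⟨max (max (Y0 ^ 2) X1) X4, fun X hX => ?_⟩
  have hXY : Y0 ^ 2 ≤ X := (le_max_left _ _).trans ((le_max_left _ _).trans hX)
  have hX1' : X1 ≤ X := (le_max_right _ _).trans ((le_max_left _ _).trans hX)
  have hX4' : X4 ≤ X := (le_max_right _ _).trans hX
  have hL := hX1 X hX1'
  have hL10 : 10 ≤ Real.log X := (le_max_left _ _).trans hL
  have hLK : 2 ^ (K + 1) ≤ Real.log X := (le_max_right _ _).trans hL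
  have e4 := hX4 X hX4'
  rw [pow_one] at e4
  clear hX hX1 hX4
  obtain ⟨L, hLdef⟩ : ∃ L : ℝ, L = Real.log X := ⟨_, rfl⟩
  rw [← hLdef] at hL10 hLK e4
  have hXpos : (0 : ℝ) < X := by
    rcases Nat.eq_zero_or_pos X with h | h
    · exfalso
      subst h
      simp at hLdef
      linarith
    · exact_mod_cast h
  have hX1R : (1 : ℝ) ≤ X := by
    have : 1 ≤ X := by
      have : 0 < X := by exact_mod_cast hXpos
      omega
    exact_mod_cast this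
  have hL0 : 0 < L := by linarith
  -- the scales
  obtain ⟨I, hI⟩ : ∃ I : Finset ℕ, I = (range (Nat.log 2 X + 1)).filter
    (fun i => X ≤ (X / 2 ^ i) ^ 2) := ⟨_, rfl⟩
  have hIcard : (I.card : ℝ) ≤ 3 * L := by
    have h1 : I.card ≤ Nat.log 2 X + 1 := by
      rw [hI]
      exact (card_filter_le _ _).trans (by rw [card_range])
    have h2 := fin_log2 X (by rw [← hLdef]; linarith)
    rw [← hLdef] at h2
    have h3 : (I.card : ℝ) ≤ (Nat.log 2 X : ℝ) + 1 := by exact_mod_cast h1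
    linarith
  have hYi : ∀ i ∈ I, X ≤ (X / 2 ^ i) ^ 2 := by
    intro i hi
    rw [hI, mem_filter] at hi
    exact hi.2
  have hex : ∀ i ∈ I, ∃ D : Finset ℕ, (D.card : ℝ) ≤ (Real.log (X / 2 ^ i : ℕ)) ^ C' ∧
      (∀ d ∈ D, (Real.log (X / 2 ^ i : ℕ)) ^ (K + 1) ≤ (d : ℝ) ∧
        (d : ℝ) ≤ ((X / 2 ^ i : ℕ) : ℝ) ^ (1 / 2 : ℝ)) ∧
      (((Icc 1 (X / 2 ^ i)).filter (fun n => X / 2 ^ i < 2 * n ∧ Even n ∧ (∀ d ∈ D, ¬ d ∣ n) ∧
        (n : ℝ) / (Real.log n) ^ A < |(g n : ℝ) - SS n * JJ n|)).card : ℝ) ≤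
        ((X / 2 ^ i : ℕ) : ℝ) ^ (1 / 2 + ε / 2) := by
    intro i hi
    refine hY0 (X / 2 ^ i) ?_
    have h1 := hXY.trans (hYi i hi)
    exact (Nat.pow_le_pow_iff_left (by norm_num)).1 h1
  choose! f hf1 hf2 hf3 using hex
  -- facts about the scales
  have hsc : ∀ i ∈ I, (1 : ℝ) ≤ (X / 2 ^ i : ℕ) ∧ ((X / 2 ^ i : ℕ) : ℝ) ≤ X ∧
      L / 2 ≤ Real.log (X / 2 ^ i : ℕ) ∧ Real.log (X / 2 ^ i : ℕ) ≤ L := by
    intro i hi
    have h1 : (X : ℝ) ≤ ((X / 2 ^ i : ℕ) : ℝ) ^ 2 := by exact_mod_cast hYi i hi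
    have h2 : (1 : ℝ) ≤ (X / 2 ^ i : ℕ) := by
      by_contra hlt
      push Not at hlt
      have h3 : (X / 2 ^ i : ℕ) = 0 := by
        have : (X / 2 ^ i : ℕ) < 1 := by exact_mod_cast hlt
        exact Nat.lt_one_iff.1 this
      rw [h3, Nat.cast_zero, zero_pow two_ne_zero] at h1
      linarith
    have h3 : ((X / 2 ^ i : ℕ) : ℝ) ≤ X := by exact_mod_cast Nat.div_le_self _ _
    refine ⟨h2, h3, ?_, ?_⟩
    · have h4 := Real.log_le_log hXpos h1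
      rw [Real.log_pow, ← hLdef] at h4
      push_cast at h4
      linarith
    · rw [hLdef]
      exact Real.log_le_log (by linarith) h3
  refine ⟨I.biUnion f, ?_, ?_, ?_⟩
  · -- the cardinality
    rw [← hLdef]
    have hci : ∀ i ∈ I, ((f i).card : ℝ) ≤ L ^ C' := by
      intro i hi
      obtain ⟨s1, s2, s3, s4⟩ := hsc i hi
      exact (hf1 i hi).trans (pow_le_pow_left₀ (by linarith) s4 _)
    have h1 : ((I.biUnion f).card : ℝ) ≤ ∑ i ∈ I, ((f i).card : ℝ) := by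
      exact_mod_cast card_biUnion_le
    have h2 := sum_le_card_nsmul I _ _ hci
    rw [nsmul_eq_mul] at h2
    have h3 : 0 < L ^ C' := by positivity
    calc ((I.biUnion f).card : ℝ) ≤ I.card * L ^ C' := h1.trans h2
      _ ≤ 3 * L * L ^ C' := mul_le_mul_of_nonneg_right hIcard h3.le
      _ ≤ L * L * L ^ C' := by
          refine mul_le_mul_of_nonneg_right ?_ h3.le
          exact mul_le_mul_of_nonneg_right (by linarith) hL0.le
      _ = L ^ (C' + 2) := by ring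
  · intro d hd
    rw [mem_biUnion] at hd
    obtain ⟨i, hi, hd⟩ := hd
    obtain ⟨s1, s2, s3, s4⟩ := hsc i hi
    obtain ⟨d1, d2⟩ := hf2 i hi d hd
    refine ⟨?_, d2.trans (Real.rpow_le_rpow (by linarith) s2 (by norm_num))⟩
    rw [← hLdef]
    refine le_trans ?_ d1
    calc L ^ K = L ^ K * 1 := (mul_one _).symm
      _ ≤ L ^ K * (L / 2 ^ (K + 1)) := by
          refine mul_le_mul_of_nonneg_left ?_ (by positivity)
          rw [le_div_iff₀ (by positivity), one_mul]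
          exact hLK
      _ = (L / 2) ^ (K + 1) := by
          rw [_root_.div_pow, pow_succ L K]
          ring
      _ ≤ (Real.log (X / 2 ^ i : ℕ)) ^ (K + 1) := pow_le_pow_left₀ (by positivity) s3 _
  · -- the exceptions
    have hsub : (Icc 1 X).filter (fun n => Even n ∧ (∀ d ∈ I.biUnion f, ¬ d ∣ n) ∧
        (n : ℝ) / (Real.log n) ^ A < |(g n : ℝ) - SS n * JJ n|) ⊆
        Icc 1 (Nat.sqrt X) ∪ I.biUnion (fun i => (Icc 1 (X / 2 ^ i)).filter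
          (fun n => X / 2 ^ i < 2 * n ∧ Even n ∧ (∀ d ∈ f i, ¬ d ∣ n) ∧
        (n : ℝ) / (Real.log n) ^ A < |(g n : ℝ) - SS n * JJ n|)) := by
      intro n hn
      rw [mem_filter, mem_Icc] at hn
      obtain ⟨⟨hn1, hnX⟩, hev, hap, hexc⟩ := hn
      rw [mem_union]
      by_cases hsq : n ≤ Nat.sqrt X
      · exact Or.inl (mem_Icc.2 ⟨hn1, hsq⟩)
      · right
        obtain ⟨i, hi1, hi2, hi3⟩ := fin_scale X n hn1 hnX
        have hiI : i ∈ I := by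
          rw [hI, mem_filter, mem_range]
          refine ⟨by omega, ?_⟩
          have h1 : X < n ^ 2 := by
            have h2 := Nat.lt_succ_sqrt X
            have h3 : Nat.sqrt X + 1 ≤ n := by omega
            have h4 := Nat.mul_le_mul h3 h3
            rw [pow_two]
            exact lt_of_lt_of_le h2 h4
          exact h1.le.trans (Nat.pow_le_pow_left hi2 2)
        rw [mem_biUnion]
        refine ⟨i, hiI, ?_⟩
        rw [mem_filter, mem_Icc]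
        exact ⟨⟨hn1, hi2⟩, hi3, hev, fun d hd => hap d (mem_biUnion.2 ⟨i, hiI, hd⟩), hexc⟩
    have h1 : (((Icc 1 X).filter (fun n => Even n ∧ (∀ d ∈ I.biUnion f, ¬ d ∣ n) ∧
        (n : ℝ) / (Real.log n) ^ A < |(g n : ℝ) - SS n * JJ n|)).card : ℝ) ≤
        Nat.sqrt X + ∑ i ∈ I, (((Icc 1 (X / 2 ^ i)).filter
          (fun n => X / 2 ^ i < 2 * n ∧ Even n ∧ (∀ d ∈ f i, ¬ d ∣ n) ∧
        (n : ℝ) / (Real.log n) ^ A < |(g n : ℝ) - SS n * JJ n|)).card : ℝ) := by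
      have h2 := (card_le_card hsub).trans ((card_union_le _ _).trans
        (Nat.add_le_add_left card_biUnion_le _))
      rw [Nat.card_Icc, Nat.add_sub_cancel] at h2
      exact_mod_cast h2
    have h2 : ∀ i ∈ I, (((Icc 1 (X / 2 ^ i)).filter
          (fun n => X / 2 ^ i < 2 * n ∧ Even n ∧ (∀ d ∈ f i, ¬ d ∣ n) ∧
        (n : ℝ) / (Real.log n) ^ A < |(g n : ℝ) - SS n * JJ n|)).card : ℝ) ≤
        (X : ℝ) ^ (1 / 2 + ε / 2) := by
      intro i hi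
      obtain ⟨s1, s2, s3, s4⟩ := hsc i hi
      exact (hf3 i hi).trans (Real.rpow_le_rpow (by linarith) s2 (by positivity))
    have h3 := sum_le_card_nsmul I _ _ h2
    rw [nsmul_eq_mul] at h3
    have h4 : ((Nat.sqrt X : ℕ) : ℝ) ≤ (X : ℝ) ^ (1 / 2 + ε / 2) := by
      have h5 : ((Nat.sqrt X : ℕ) : ℝ) ≤ Real.sqrt X := Real.nat_sqrt_le_real_sqrt
      rw [Real.sqrt_eq_rpow] at h5
      refine h5.trans (Real.rpow_le_rpow_of_exponent_le hX1R (by linarith))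
    have h5 : (X : ℝ) ^ (1 / 2 + ε) = (X : ℝ) ^ (ε / 2) * (X : ℝ) ^ (1 / 2 + ε / 2) := by
      rw [← Real.rpow_add hXpos]
      congr 1
      ring
    have h6 : (0 : ℝ) < (X : ℝ) ^ (1 / 2 + ε / 2) := by positivity
    rw [h5]
    have h7 : (I.card : ℝ) * (X : ℝ) ^ (1 / 2 + ε / 2) ≤ 3 * L * (X : ℝ) ^ (1 / 2 + ε / 2) :=
      mul_le_mul_of_nonneg_right hIcard h6.le
    have h8 : 4 * L * (X : ℝ) ^ (1 / 2 + ε / 2) ≤ (X : ℝ) ^ (ε / 2) * (X : ℝ) ^ (1 / 2 + ε / 2) :=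
      mul_le_mul_of_nonneg_right e4 h6.le
    nlinarith

end Pool.MP_dd84fd_nt.FA
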