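import Pool.Agent.Lib.MP_dd84fd_nt.FA.Defs
import Pool.Agent.Lib.MP_dd84fd_nt.PL.Final
import Pool.Agent.Lib.MP_dd84fd_nt.PL.Greedy

/-!
# FA-Iface: the two theorems of the PL project, in terms of `arc` and `arcN`
-/

set_option autoImplicit false

namespace Pool.MP_dd84fd_nt.FA

open Finset Pool.MP_67663b_nt.Odd Pool.MP_dd84fd_nt.En Pool.MP_dd84fd_nt.E2 Pool.MP_dd84fd_nt.LS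
  Pool.MP_dd84fd_nt.GX

open Pool.MP_dd84fd_nt.L2G (nrm)

open Pool.MP_dd84fd_nt.PL (W FF rr)

/-- PL -/
theorem pl (A : ℕ) : ∃ K1 K2 : ℕ, ∀ (δ : ℝ) (D' A0 : ℕ), 0 < δ → δ ≤ 1 / 8 → 1 ≤ D' →
    ∃ X0 : ℕ, ∀ X : ℕ, X0 ≤ X → ∀ n : ℕ, X < 2 * n → n ≤ X →
    ∀ (QQ : Finset ℕ) (N b : ℝ) (bq : ℕ → ℝ), (∀ q ∈ QQ, 1 ≤ q ∧ b ≤ bq q ∧ bq q ≤ 2 * b) →
    (∀ q ∈ QQ, ∀ q' ∈ QQ, (Nat.lcm q q' : ℝ) ≤ N) → 1 / (Real.log X) ^ A0 ≤ b →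
    N * b ≤ (X : ℝ) ^ (1 / 2 - δ) →
    ((Real.log X) ^ K2 < b ∨ ∀ q ∈ QQ, (Real.log X) ^ K1 * (Nat.gcd q n : ℝ) < q) →
    ∑ q ∈ QQ, ‖arc (FF (wX D' X) X n) X q (bq q) (2 * bq q)‖ ≤ X / (Real.log X) ^ A :=
  Pool.MP_dd84fd_nt.PL.pl A

/-- GREEDY -/
theorem greedy (A K1 K2 : ℕ) : ∃ C : ℕ, ∀ (K : ℕ) (δ : ℝ), 0 < δ → ∃ D0 : ℕ, ∀ D' : ℕ, D0 ≤ D' →
    ∃ X0 : ℕ, ∀ X : ℕ, X0 ≤ X → ∃ D : Finset ℕ, (D.card : ℝ) ≤ (Real.log X) ^ C ∧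
      (∀ d ∈ D, (Real.log X) ^ K ≤ (d : ℝ) ∧ (d : ℝ) ≤ (X : ℝ) ^ (1 / 2 : ℝ)) ∧
      ∀ n ∈ Icc 1 X, (∀ d ∈ D, ¬ d ∣ n) →
        ∑ q ∈ (Icc 1 ⌊(X : ℝ) ^ (1 / 2 - δ)⌋₊).filter
          (fun q : ℕ => (q : ℝ) ≤ (Real.log X) ^ K1 * (Nat.gcd q n : ℝ)),
          arcN (wX D' X) X q ((Real.log X) ^ K2) ≤ X / (Real.log X) ^ A :=
  Pool.MP_dd84fd_nt.PL.greedy A K1 K2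

end Pool.MP_dd84fd_nt.FA
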