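import Pool.Agent.Lib.MP_dd84fd_nt.FA.PhQ
import Pool.Agent.Lib.MP_dd84fd_nt.FA.Fam
import Pool.Agent.Lib.MP_dd84fd_nt.FA.ArcN
import Pool.Agent.Lib.MP_dd84fd_nt.FA.Iface
import Pool.Agent.Lib.MP_dd84fd_nt.E2.MinorP

/-!
# FA-One (0.8 h): one piece

`pl A` gives `K1`, `K2'`; `K2 = K2' + 1`. `w = wX D' X ≤ L^D'` (`Nat.floor_le`). `fam = fam X Λ a ε`; if `fam = ∅`, `ph_fam` gives the result (all other terms are `≥ 0`: `arcN_nonneg`).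
Otherwise `fam_small` holds; for `q ∈ fam`: `Nat.log 2 q = a`, `ph_q` replaces `Ph (rq q (pw a t)) n` by `arc FF X q (bq q) (2 bq q)`, `bq q = 2^(a+t)/(2^I q)`, with total error `≤ card fam/X ≤ 1` (`fam ⊆ Icc 1 X` by `fam_small`).
`b = 2^t/2^(I+1)`: `2^a ≤ q < 2^(a+1)` gives `b ≤ bq q ≤ 2b`. `N = X^(ε/4) Λ`; `2 b = 2^t/2^I ≤ 2^(t-I)` and `Λ 2^(t-I) ≤ X^(1/2-ε/2)` (divide the hypothesis by `2^a`), so `N b ≤ X^(1/2-ε/4)`; `δ = ε/4`.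
`1/L^A0 ≤ b` since `2^(I+1) ≤ L^A0`, `2^t ≥ 1`. If `L^K2' < b`: `pl` with `QQ = fam`. Otherwise `2 bq q ≤ 4 b ≤ 4 L^K2' ≤ L^K2` (`L ≥ 4`): `pl` with `QQ = fam.filter (L^K1 gcd(q,n) < q)`, and for the rest `arc_le` with
`v' = L^K2`, and `fam_small`: `q ∈ Icc 1 ⌊X^(1/2-ε/4)⌋₊` (`Nat.le_floor`); the remaining terms are `≥ 0`.
-/

set_option autoImplicit false

namespace Pool.MP_dd84fd_nt.FA

open Finset Pool.MP_67663b_nt.Odd Pool.MP_dd84fd_nt.En Pool.MP_dd84fd_nt.E2 Pool.MP_dd84fd_nt.LS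
  Pool.MP_dd84fd_nt.GX

open Pool.MP_dd84fd_nt.L2G (nrm)

open Pool.MP_dd84fd_nt.PL (W FF rr)

private theorem one_two (t I : ℕ) : (2 : ℝ) ^ t / 2 ^ (I + 1) ≤ 2 ^ (t - I) := by
  rw [div_le_iff₀ (by positivity), ← pow_add]
  exact pow_le_pow_right₀ (by norm_num) (by omega)

private theorem one_b (a t I q : ℕ) (h1 : 2 ^ a ≤ q) (h2 : q < 2 ^ (a + 1)) :
    (2 : ℝ) ^ t / 2 ^ (I + 1) ≤ (2 : ℝ) ^ (a + t) / (2 ^ I * q) ∧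
      (2 : ℝ) ^ (a + t) / (2 ^ I * q) ≤ 2 * ((2 : ℝ) ^ t / 2 ^ (I + 1)) := by
  have h1' : (2 : ℝ) ^ a ≤ q := by exact_mod_cast h1
  have h2' : (q : ℝ) ≤ 2 ^ (a + 1) := by exact_mod_cast h2.le
  have hq : (0 : ℝ) < q := lt_of_lt_of_le (by positivity) h1'
  constructor
  · rw [div_le_div_iff₀ (by positivity) (by positivity)]
    calc (2 : ℝ) ^ t * (2 ^ I * q) ≤ 2 ^ t * (2 ^ I * 2 ^ (a + 1)) := by gcongr
      _ = 2 ^ (a + t) * 2 ^ (I + 1) := by ring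
  · rw [← mul_div_assoc, div_le_div_iff₀ (by positivity) (by positivity)]
    calc (2 : ℝ) ^ (a + t) * 2 ^ (I + 1) = 2 * 2 ^ t * (2 ^ I * 2 ^ a) := by ring
      _ ≤ 2 * 2 ^ t * (2 ^ I * q) := by gcongr

theorem one (A : ℕ) : ∃ K1 K2 : ℕ, ∀ (ε : ℝ) (D' A0 : ℕ), 0 < ε → ε ≤ 1 / 2 → 1 ≤ D' →
    ∃ X0 : ℕ, ∀ X : ℕ, X0 ≤ X → ∀ (G : ℕ) [NeZero G], Grid X G →
    ∀ n : ℕ, X < 2 * n → n ≤ X → ∀ I a t Λ : ℕ, I ≤ X → (2 : ℝ) ^ (I + 1) ≤ (Real.log X) ^ A0 →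
    1 ≤ Λ → (Λ : ℝ) * 2 ^ (a + (t - I)) ≤ 2 ^ a * (X : ℝ) ^ (1 / 2 - ε / 2) →
    ‖Pv G X (wX D' X) (pw G X I a t) n‖ ≤
      ‖Pv G X (wX D' X) (rs G X Λ (ε / 8) (pw G X I a t)) n‖ + X / (Real.log X) ^ A + 1 +
      ∑ q ∈ (Icc 1 ⌊(X : ℝ) ^ (1 / 2 - ε / 4)⌋₊).filter
          (fun q : ℕ => (q : ℝ) ≤ (Real.log X) ^ K1 * (Nat.gcd q n : ℝ)),
          arcN (wX D' X) X q ((Real.log X) ^ K2) := by
  obtain ⟨K1, K2', hpl⟩ := pl A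
  refine ⟨K1, K2' + 1, fun ε D' A0 hε hε2 hD => ?_⟩
  obtain ⟨X1, hX1⟩ := hpl (ε / 4) D' A0 (by positivity) (by linarith) hD
  obtain ⟨X2, hX2⟩ := ph_q D'
  obtain ⟨X3, hX3⟩ := fam_small ε hε
  obtain ⟨X4, hX4⟩ := MP_log_large 4
  refine ⟨max (max X1 X2) (max X3 (max X4 1)), ?_⟩
  intro X hX G _ hG n hn1 hn2 I a t Λ hI hIA hΛ hlam
  have h1X : X1 ≤ X := (le_max_left _ _).trans ((le_max_left _ _).trans hX)
  have h2X : X2 ≤ X := (le_max_right _ _).trans ((le_max_left _ _).trans hX)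
  have h3X : X3 ≤ X := (le_max_left _ _).trans ((le_max_right _ _).trans hX)
  have h4X : X4 ≤ X :=
    (le_max_left _ _).trans ((le_max_right _ _).trans ((le_max_right _ _).trans hX))
  have h5X : 1 ≤ X :=
    (le_max_right _ _).trans ((le_max_right _ _).trans ((le_max_right _ _).trans hX))
  have hpl' := hX1 X h1X n hn1 hn2
  have hphq := hX2 X h2X
  have hfs := hX3 X h3X I a t Λ hΛ hlam
  have hL4 := hX4 X h4X
  clear hX hpl hX1 hX2 hX3 hX4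
  have hXR : (1 : ℝ) ≤ X := by exact_mod_cast h5X
  have hX0 : (0 : ℝ) < X := by linarith
  obtain ⟨L, hL⟩ : ∃ L : ℝ, L = Real.log X := ⟨_, rfl⟩
  rw [← hL] at hL4 hIA
  have hL0 : 0 < L := by linarith
  obtain ⟨w, hw⟩ : ∃ w : ℕ, w = wX D' X := ⟨_, rfl⟩
  have hwL : (w : ℝ) ≤ (Real.log X) ^ D' := by
    rw [hw]
    exact Nat.floor_le (by rw [← hL]; positivity)
  rw [← hL] at hpl'
  rw [← hw] at hpl' ⊢
  have hRn : 0 ≤ ∑ q ∈ (Icc 1 ⌊(X : ℝ) ^ (1 / 2 - ε / 4)⌋₊).filter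
      (fun q : ℕ => (q : ℝ) ≤ (Real.log X) ^ K1 * (Nat.gcd q n : ℝ)),
      arcN w X q ((Real.log X) ^ (K2' + 1)) :=
    sum_nonneg fun q _ => arcN_nonneg X w q _ (by rw [← hL]; positivity)
  rw [← hL] at hRn ⊢
  have hXA : 0 ≤ (X : ℝ) / L ^ A := by positivity
  have hfamI : ∀ q ∈ fam X Λ a ε, 1 ≤ q ∧ 2 ^ a ≤ q ∧ q < 2 ^ (a + 1) := by
    intro q hq
    rw [fam, mem_filter, mem_Ico] at hq
    exact ⟨(Nat.one_le_two_pow).trans hq.1.1, hq.1.1, hq.1.2⟩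
  rw [ph_fam X G w I a t Λ h5X ε n]
  refine (norm_add_le _ _).trans ?_
  suffices hs : ‖∑ q ∈ fam X Λ a ε, Pv G X w (rq G X q (pw G X I a t)) n‖ ≤
      X / L ^ A + 1 + ∑ q ∈ (Icc 1 ⌊(X : ℝ) ^ (1 / 2 - ε / 4)⌋₊).filter
      (fun q : ℕ => (q : ℝ) ≤ L ^ K1 * (Nat.gcd q n : ℝ)), arcN w X q (L ^ (K2' + 1)) by
    linarith
  rcases (fam X Λ a ε).eq_empty_or_nonempty with hfe | ⟨q0, hq0⟩
  · rw [hfe, sum_empty, norm_zero]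
    linarith
  have h16 := (hfs q0 hq0).1
  have hfIcc : ∀ q ∈ fam X Λ a ε, q ∈ Icc 1 ⌊(X : ℝ) ^ (1 / 2 - ε / 4)⌋₊ := by
    intro q hq
    rw [mem_Icc]
    exact ⟨(hfamI q hq).1, Nat.le_floor (hfs q hq).2⟩
  have hcard : ((fam X Λ a ε).card : ℝ) ≤ X := by
    have h1 : (fam X Λ a ε).card ≤ ⌊(X : ℝ) ^ (1 / 2 - ε / 4)⌋₊ := by
      refine (card_le_card hfIcc).trans ?_
      rw [Nat.card_Icc, Nat.add_sub_cancel]
    have h2 : ((⌊(X : ℝ) ^ (1 / 2 - ε / 4)⌋₊ : ℕ) : ℝ) ≤ (X : ℝ) ^ (1 / 2 - ε / 4) :=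
      Nat.floor_le (by positivity)
    have h3 : (X : ℝ) ^ (1 / 2 - ε / 4) ≤ (X : ℝ) ^ (1 : ℝ) :=
      Real.rpow_le_rpow_of_exponent_le hXR (by linarith)
    rw [Real.rpow_one] at h3
    have h4 : ((fam X Λ a ε).card : ℝ) ≤ ((⌊(X : ℝ) ^ (1 / 2 - ε / 4)⌋₊ : ℕ) : ℝ) := by
      exact_mod_cast h1
    linarith
  obtain ⟨bq, hbq⟩ : ∃ bq : ℕ → ℝ, bq = fun q : ℕ => (2 : ℝ) ^ (a + t) / (2 ^ I * q) := ⟨_, rfl⟩
  obtain ⟨b, hb⟩ : ∃ b : ℝ, b = (2 : ℝ) ^ t / 2 ^ (I + 1) := ⟨_, rfl⟩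
  have hterm : ∀ q ∈ fam X Λ a ε, ‖Pv G X w (rq G X q (pw G X I a t)) n‖ ≤
      ‖arc (FF w X n) X q (bq q) (2 * bq q)‖ + 1 / X := by
    intro q hq
    obtain ⟨h1, h2, h3⟩ := hfamI q hq
    have hlog : Nat.log 2 q = a := by
      rw [Nat.log_eq_iff (Or.inr ⟨by norm_num, by omega⟩)]
      exact ⟨h2, h3⟩
    have h4 := hphq w hwL G hG n hn2 I a t q hI h1 hlog h16
    have h5 := norm_sub_norm_le (Pv G X w (rq G X q (pw G X I a t)) n)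
      (arc (FF w X n) X q ((2 : ℝ) ^ (a + t) / (2 ^ I * q))
        (2 * ((2 : ℝ) ^ (a + t) / (2 ^ I * q))))
    rw [hbq]
    show ‖Pv G X w (rq G X q (pw G X I a t)) n‖ ≤
      ‖arc (FF w X n) X q ((2 : ℝ) ^ (a + t) / (2 ^ I * q))
        (2 * ((2 : ℝ) ^ (a + t) / (2 ^ I * q)))‖ + 1 / X
    linarith
  have hsum1 : ‖∑ q ∈ fam X Λ a ε, Pv G X w (rq G X q (pw G X I a t)) n‖ ≤
      ∑ q ∈ fam X Λ a ε, ‖arc (FF w X n) X q (bq q) (2 * bq q)‖ + 1 := by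
    refine (norm_sum_le_of_le _ hterm).trans ?_
    rw [sum_add_distrib, sum_const, nsmul_eq_mul]
    have h1 : ((fam X Λ a ε).card : ℝ) * (1 / X) ≤ 1 := by
      rw [mul_one_div, div_le_one hX0]
      exact hcard
    linarith
  have hbb : ∀ q ∈ fam X Λ a ε, 1 ≤ q ∧ b ≤ bq q ∧ bq q ≤ 2 * b := by
    intro q hq
    obtain ⟨h1, h2, h3⟩ := hfamI q hq
    have := one_b a t I q h2 h3
    rw [hb, hbq]
    exact ⟨h1, this.1, this.2⟩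
  have hlcm : ∀ q ∈ fam X Λ a ε, ∀ q' ∈ fam X Λ a ε,
      (Nat.lcm q q' : ℝ) ≤ (X : ℝ) ^ (ε / 4) * Λ := fun q hq q' hq' =>
    fam_lcm X Λ a ε h5X hΛ q q' hq hq'
  have hb0 : 0 < b := by
    rw [hb]
    positivity
  have hbA : 1 / L ^ A0 ≤ b := by
    rw [hb]
    have h1 : 1 / L ^ A0 ≤ 1 / (2 : ℝ) ^ (I + 1) :=
      one_div_le_one_div_of_le (by positivity) hIA
    refine h1.trans (div_le_div_of_nonneg_right ?_ (by positivity))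
    exact one_le_pow₀ (by norm_num)
  have hNb : (X : ℝ) ^ (ε / 4) * Λ * b ≤ (X : ℝ) ^ (1 / 2 - ε / 4) := by
    have h1 : (Λ : ℝ) * 2 ^ (t - I) ≤ (X : ℝ) ^ (1 / 2 - ε / 2) := by
      have h2 : (0 : ℝ) < 2 ^ a := by positivity
      rw [pow_add] at hlam
      refine le_of_mul_le_mul_left ?_ h2
      calc (2 : ℝ) ^ a * (Λ * 2 ^ (t - I)) = Λ * (2 ^ a * 2 ^ (t - I)) := by ring
        _ ≤ _ := hlam
    have h2 : b ≤ 2 ^ (t - I) := by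
      rw [hb]
      exact one_two t I
    have h3 : (Λ : ℝ) * b ≤ (X : ℝ) ^ (1 / 2 - ε / 2) :=
      (mul_le_mul_of_nonneg_left h2 (Nat.cast_nonneg _)).trans h1
    have h4 : (X : ℝ) ^ (1 / 2 - ε / 4) = (X : ℝ) ^ (ε / 4) * (X : ℝ) ^ (1 / 2 - ε / 2) := by
      rw [← Real.rpow_add hX0]
      congr 1
      ring
    rw [h4, mul_assoc]
    exact mul_le_mul_of_nonneg_left h3 (by positivity)
  rcases lt_or_ge (L ^ K2') b with hcase | hcase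
  · have h1 := hpl' (fam X Λ a ε) ((X : ℝ) ^ (ε / 4) * Λ) b bq hbb hlcm hbA hNb (Or.inl hcase)
    linarith
  · have h1 := hpl' ((fam X Λ a ε).filter (fun q : ℕ => L ^ K1 * (Nat.gcd q n : ℝ) < q))
      ((X : ℝ) ^ (ε / 4) * Λ) b bq (fun q hq => hbb q (mem_of_mem_filter q hq))
      (fun q hq q' hq' => hlcm q (mem_of_mem_filter q hq) q' (mem_of_mem_filter q' hq')) hbA hNb
      (Or.inr fun q hq => (mem_filter.1 hq).2)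
    have h2 := sum_filter_add_sum_filter_not (fam X Λ a ε)
      (fun q : ℕ => L ^ K1 * (Nat.gcd q n : ℝ) < q)
      (fun q => ‖arc (FF w X n) X q (bq q) (2 * bq q)‖)
    have h3 : ∑ q ∈ (fam X Λ a ε).filter (fun q : ℕ => ¬ L ^ K1 * (Nat.gcd q n : ℝ) < q),
        ‖arc (FF w X n) X q (bq q) (2 * bq q)‖ ≤
        ∑ q ∈ (fam X Λ a ε).filter (fun q : ℕ => ¬ L ^ K1 * (Nat.gcd q n : ℝ) < q),
          arcN w X q (L ^ (K2' + 1)) := by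
      refine sum_le_sum fun q hq => ?_
      obtain ⟨_, h5, h6⟩ := hbb q (mem_of_mem_filter q hq)
      refine arc_le X w n q h5X _ _ _ (by linarith) (by linarith) ?_
      have h7 : 4 * L ^ K2' ≤ L ^ (K2' + 1) := by
        rw [pow_succ, mul_comm (L ^ K2')]
        exact mul_le_mul_of_nonneg_right hL4 (by positivity)
      linarith
    have h4 : ∑ q ∈ (fam X Λ a ε).filter (fun q : ℕ => ¬ L ^ K1 * (Nat.gcd q n : ℝ) < q),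
        arcN w X q (L ^ (K2' + 1)) ≤ ∑ q ∈ (Icc 1 ⌊(X : ℝ) ^ (1 / 2 - ε / 4)⌋₊).filter
      (fun q : ℕ => (q : ℝ) ≤ L ^ K1 * (Nat.gcd q n : ℝ)), arcN w X q (L ^ (K2' + 1)) := by
      refine sum_le_sum_of_subset_of_nonneg ?_ fun q _ _ =>
        arcN_nonneg X w q _ (by positivity)
      intro q hq
      rw [mem_filter] at hq ⊢
      exact ⟨hfIcc q hq.1, not_lt.1 hq.2⟩
    linarith

end Pool.MP_dd84fd_nt.FA
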