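import Pool.Agent.Lib.MP_dd84fd_nt.FA.Defs

/-!
# FA-Riem (0.4 h): Riemann sums of a Lipschitz function

`∫_{s1/G}^{s2/G} F = Σ_{s ∈ [s1, s2)} ∫_{s/G}^{(s+1)/G} F` (`intervalIntegral.sum_integral_adjacent_intervals_Ico`), `F` is continuous (Lipschitz), and on each cell
`‖∫_{s/G}^{(s+1)/G} F - (1/G) F(s/G)‖ = ‖∫ (F x - F(s/G))‖ ≤ (Λ/G) (1/G)` (`intervalIntegral.norm_integral_le_of_norm_le_const`). `0 ≤ Λ` follows from `hF 0 1`.
-/

set_option autoImplicit false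

namespace Pool.MP_dd84fd_nt.FA

open Finset Pool.MP_67663b_nt.Odd Pool.MP_dd84fd_nt.En Pool.MP_dd84fd_nt.E2 Pool.MP_dd84fd_nt.LS
  Pool.MP_dd84fd_nt.GX

open Pool.MP_dd84fd_nt.L2G (nrm)

open Pool.MP_dd84fd_nt.PL (W FF rr)

private theorem riem_nonneg (F : ℝ → ℂ) (Λ : ℝ) (hF : ∀ x y, ‖F x - F y‖ ≤ Λ * |x - y|) :
    0 ≤ Λ := by
  have h := (norm_nonneg _).trans (hF 1 0)
  simpa using h

private theorem riem_cont (F : ℝ → ℂ) (Λ : ℝ) (hF : ∀ x y, ‖F x - F y‖ ≤ Λ * |x - y|) :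
    Continuous F := by
  have h0 := riem_nonneg F Λ hF
  have hl : LipschitzWith ⟨Λ, h0⟩ F := by
    refine LipschitzWith.of_dist_le_mul ?_
    intro x y
    rw [dist_eq_norm, Real.dist_eq]
    exact hF x y
  exact hl.continuous

private theorem riem_cell (F : ℝ → ℂ) (Λ : ℝ) (hF : ∀ x y, ‖F x - F y‖ ≤ Λ * |x - y|)
    (a b : ℝ) (hab : a ≤ b) :
    ‖((b - a : ℝ) : ℂ) * F a - ∫ x in a..b, F x‖ ≤ Λ * (b - a) ^ 2 := by
  have hc := riem_cont F Λ hF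
  have h0 := riem_nonneg F Λ hF
  have h1 : ((b - a : ℝ) : ℂ) * F a - ∫ x in a..b, F x = ∫ x in a..b, (F a - F x) := by
    rw [intervalIntegral.integral_sub (intervalIntegrable_const) (hc.intervalIntegrable _ _),
      intervalIntegral.integral_const, Complex.real_smul]
  rw [h1]
  have h2 : ∀ x ∈ Set.uIoc a b, ‖F a - F x‖ ≤ Λ * (b - a) := by
    intro x hx
    rw [Set.uIoc_of_le hab] at hx
    refine (hF a x).trans ?_
    refine mul_le_mul_of_nonneg_left ?_ h0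
    rw [abs_le]
    constructor <;> linarith [hx.1, hx.2]
  have h3 := intervalIntegral.norm_integral_le_of_norm_le_const h2
  rw [abs_of_nonneg (by linarith)] at h3
  calc _ ≤ Λ * (b - a) * (b - a) := h3
    _ = Λ * (b - a) ^ 2 := by ring

theorem riem (F : ℝ → ℂ) (Λ : ℝ) (hF : ∀ x y, ‖F x - F y‖ ≤ Λ * |x - y|) (G : ℕ) (hG : 0 < G)
    (s1 s2 : ℕ) (h : s1 ≤ s2) :
    ‖(1 / (G : ℂ)) * ∑ s ∈ Ico s1 s2, F ((s : ℝ) / G) -
      ∫ x in ((s1 : ℝ) / G)..((s2 : ℝ) / G), F x‖ ≤ Λ * ((s2 : ℝ) - s1) / (G : ℝ) ^ 2 := by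
  have hc := riem_cont F Λ hF
  have hGr : (0 : ℝ) < G := by exact_mod_cast hG
  have h1 := intervalIntegral.sum_integral_adjacent_intervals_Ico (f := F)
    (a := fun s : ℕ => (s : ℝ) / G) (μ := MeasureTheory.volume) h
    (fun k _ => hc.intervalIntegrable _ _)
  have h2 : (∫ x in ((s1 : ℝ) / G)..((s2 : ℝ) / G), F x) =
      ∑ s ∈ Ico s1 s2, ∫ x in ((s : ℝ) / G)..(((s + 1 : ℕ) : ℝ) / G), F x := h1.symm
  rw [h2, mul_sum, ← sum_sub_distrib]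
  refine (norm_sum_le _ _).trans ?_
  have h3 : ∀ s ∈ Ico s1 s2, ‖1 / (G : ℂ) * F ((s : ℝ) / G) -
      ∫ x in ((s : ℝ) / G)..(((s + 1 : ℕ) : ℝ) / G), F x‖ ≤ Λ / (G : ℝ) ^ 2 := by
    intro s _
    have h4 := riem_cell F Λ hF ((s : ℝ) / G) (((s + 1 : ℕ) : ℝ) / G)
      (by rw [div_le_div_iff_of_pos_right hGr]; push_cast; linarith)
    have h5 : (((s + 1 : ℕ) : ℝ) / G) - ((s : ℝ) / G) = 1 / G := by
      push_cast
      rw [← sub_div]
      congr 1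
      ring
    rw [h5] at h4
    have h6 : (((1 / G : ℝ)) : ℂ) = 1 / (G : ℂ) := by push_cast; rfl
    rw [h6] at h4
    refine h4.trans (le_of_eq ?_)
    rw [one_div, inv_pow]
    rfl
  refine (sum_le_sum h3).trans (le_of_eq ?_)
  rw [sum_const, Nat.card_Ico, nsmul_eq_mul, Nat.cast_sub h]
  ring

end Pool.MP_dd84fd_nt.FA
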