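import Pool.Agent.Lib.MP_dd84fd_nt.FA.Defs
import Pool.Agent.Lib.MP_dd84fd_nt.FA.Bij
import Pool.Agent.Lib.MP_dd84fd_nt.FA.Riem
import Pool.Agent.Lib.MP_dd84fd_nt.FA.Lip

/-!
# FA-PhQ (0.8 h): one denominator: the grid sum is the integral over the arcs

Proof. `G = 2^I X q m`, `s1 = 2^(a+t) m`, `s2 = 2^(a+t+1) m` (`m ≥ 1`), so `X q s1/G = 2^(a+t)/2^I`, `X q s2/G = 2^(a+t+1)/2^I`, `s1/G = (2^(a+t)/(2^I q))/X` and the same for `s2`.
`Ph (rq q (pw a t)) n = (1/G) Σ_{j in the filter set of grid_sum} FF (al j)` (`fn_grid`; `Nat.log 2 q = a` makes the first condition of `pw` true when `qd = q`).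
Conditions of `grid_sum`: `2^(t) / 2^I ≤ 2^(t - I)` (natural subtraction), `q < 2^(a+1)` (`Nat.lt_pow_succ_log_self`), so `4 q < 8 · 2^(a+(t-I)) ≤ √X/2` and
`4 X q s2/G = 8 · 2^(a+t)/2^I ≤ √X/2 ≤ √X`. Then `riem` for `F x = FF (a/q + x)` and `F x = FF (a/q - x)`, `Λ = X^4`: the total error is `≤ card (rr q) · 2 · X^4 (s2 - s1)/G² ≤ 2 X · X^4/G ≤ 1/X`
(`s2 ≤ G`, since `X q s2/G ≤ √X ≤ X`; `card (rr q) ≤ q ≤ X`, `X^10 ≤ G`, `X ≥ 2`).
-/

set_option autoImplicit false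

namespace Pool.MP_dd84fd_nt.FA

open Finset Pool.MP_67663b_nt.Odd Pool.MP_dd84fd_nt.En Pool.MP_dd84fd_nt.E2 Pool.MP_dd84fd_nt.LS
  Pool.MP_dd84fd_nt.GX

open Pool.MP_dd84fd_nt.L2G (nrm)

open Pool.MP_dd84fd_nt.PL (W FF rr)

theorem ph_q (D' : ℕ) : ∃ X0 : ℕ, ∀ X : ℕ, X0 ≤ X → ∀ w : ℕ, (w : ℝ) ≤ (Real.log X) ^ D' →
    ∀ (G : ℕ) [NeZero G], Grid X G → ∀ n : ℕ, n ≤ X → ∀ I a t q : ℕ, I ≤ X → 1 ≤ q →
      Nat.log 2 q = a → 16 * (2 : ℝ) ^ (a + (t - I)) ≤ Real.sqrt X →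
      ‖Pv G X w (rq G X q (pw G X I a t)) n -
        arc (FF w X n) X q ((2 : ℝ) ^ (a + t) / (2 ^ I * q)) (2 * ((2 : ℝ) ^ (a + t) / (2 ^ I * q)))‖ ≤
        1 / X := by
  obtain ⟨X0, h0⟩ := fn_facts D'
  refine ⟨max X0 2, ?_⟩
  intro X hX w hw G hne hG n hn I a t q hI hq ha h16
  obtain ⟨hG1, hG2, hG3⟩ := hG
  have hX2 : 2 ≤ X := le_trans (le_max_right _ _) hX
  have hX1 : 1 ≤ X := by omega
  obtain ⟨hper, hlip, -⟩ := h0 X (le_trans (le_max_left _ _) hX) w hw n hn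
  have hX1r : (1 : ℝ) ≤ X := by exact_mod_cast hX1
  have hXp : (0 : ℝ) < X := by linarith
  have hqr : (1 : ℝ) ≤ q := by exact_mod_cast hq
  have hqp : (0 : ℝ) < q := by linarith
  have hs1 : (1 : ℝ) ≤ Real.sqrt X := by
    rw [show (1 : ℝ) = Real.sqrt 1 by simp]
    exact Real.sqrt_le_sqrt hX1r
  have hsX : Real.sqrt X ≤ X := by
    have hs := Real.sq_sqrt hXp.le
    nlinarith
  have hqa : (q : ℝ) < 2 * 2 ^ a := by
    have h := Nat.lt_pow_succ_log_self (b := 2) (by norm_num) q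
    rw [ha] at h
    have h' : (q : ℝ) < ((2 ^ (a + 1) : ℕ) : ℝ) := by exact_mod_cast h
    rw [Nat.cast_pow, pow_succ] at h'
    push_cast at h'
    linarith
  have hat : (2 : ℝ) ^ a ≤ 2 ^ (a + (t - I)) :=
    pow_le_pow_right₀ (by norm_num) (by omega)
  have hI2 : (0 : ℝ) < 2 ^ I := by positivity
  have htI : (2 : ℝ) ^ (a + t) ≤ 2 ^ (a + (t - I)) * 2 ^ I := by
    rw [← pow_add]
    exact pow_le_pow_right₀ (by norm_num) (by omega)
  have hqX' : 4 * (q : ℝ) < Real.sqrt X := by linarith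
  have hqX : q ≤ X := by
    have h : (q : ℝ) ≤ X := by linarith
    exact_mod_cast h
  obtain ⟨m, hm⟩ := hG3 q I hq hqX hI
  have hG0 : 0 < G := Nat.pos_of_ne_zero hne.out
  have hGr : (0 : ℝ) < G := by exact_mod_cast hG0
  have hm1 : 1 ≤ m := by
    rcases Nat.eq_zero_or_pos m with h | h
    · rw [h] at hm
      omega
    · exact h
  have hmr : (0 : ℝ) < m := by
    have : 0 < m := hm1
    exact_mod_cast this
  have hGe : (G : ℝ) = 2 ^ I * (X * q) * m := by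
    rw [hm]
    push_cast
    ring
  have hs1e : ((2 ^ (a + t) * m : ℕ) : ℝ) = 2 ^ (a + t) * m := by push_cast; ring
  have hs2e : ((2 ^ (a + t + 1) * m : ℕ) : ℝ) = 2 ^ (a + t + 1) * m := by push_cast; ring
  have hc1 : (X : ℝ) * q * ((2 ^ (a + t) * m : ℕ) : ℝ) / G = 2 ^ (a + t) / 2 ^ I := by
    rw [hs1e, hGe]
    field_simp
  have hc2 : (X : ℝ) * q * ((2 ^ (a + t + 1) * m : ℕ) : ℝ) / G = 2 ^ (a + t + 1) / 2 ^ I := by
    rw [hs2e, hGe]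
    field_simp
  have hu : (2 : ℝ) ^ (a + t) / (2 ^ I * q) / X = ((2 ^ (a + t) * m : ℕ) : ℝ) / G := by
    rw [hs1e, hGe]
    field_simp
  have hv : 2 * ((2 : ℝ) ^ (a + t) / (2 ^ I * q)) / X =
      ((2 ^ (a + t + 1) * m : ℕ) : ℝ) / G := by
    rw [hs2e, hGe, pow_succ]
    field_simp
  have hdiv : q ∣ G := by
    rw [hm]
    exact Dvd.dvd.mul_right (Dvd.dvd.mul_left (Dvd.intro_left X rfl) _) m
  have h1s : 1 ≤ 2 ^ (a + t) * m := Nat.mul_pos (by positivity) hm1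
  have h12 : 2 ^ (a + t) * m ≤ 2 ^ (a + t + 1) * m :=
    Nat.mul_le_mul_right m (Nat.pow_le_pow_right (by norm_num) (by omega))
  have hh2 : 4 * ((X : ℝ) * q * ((2 ^ (a + t + 1) * m : ℕ) : ℝ)) ≤ G * Real.sqrt X := by
    have e1 : 4 * ((X : ℝ) * q * ((2 ^ (a + t + 1) * m : ℕ) : ℝ)) =
        8 * 2 ^ (a + t) * (X * q * m) := by
      rw [hs2e, pow_succ]
      ring
    have hc : (0 : ℝ) < X * q * m := by positivity
    have e2 : 8 * (2 : ℝ) ^ (a + t) ≤ 2 ^ I * Real.sqrt X := by nlinarith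
    rw [e1, hGe]
    calc 8 * (2 : ℝ) ^ (a + t) * (X * q * m) ≤ (2 ^ I * Real.sqrt X) * (X * q * m) :=
          mul_le_mul_of_nonneg_right e2 hc.le
      _ = 2 ^ I * (X * q) * m * Real.sqrt X := by ring
  have hgs := grid_sum X G q (2 ^ (a + t) * m) (2 ^ (a + t + 1) * m) hX1 hq hqX' hdiv h1s h12 hh2
    (FF w X n) hper
  have hPv : Pv G X w (rq G X q (pw G X I a t)) n = (1 / (G : ℂ)) *
      ∑ b ∈ rr q, (∑ s ∈ Ico (2 ^ (a + t) * m) (2 ^ (a + t + 1) * m),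
          FF w X n ((b : ℝ) / q + (s : ℝ) / G) +
        ∑ s ∈ Ico (2 ^ (a + t) * m) (2 ^ (a + t + 1) * m),
          FF w X n ((b : ℝ) / q - (s : ℝ) / G)) := by
    rw [← hgs]
    unfold Pv Ph
    congr 1
    rw [Finset.sum_filter]
    apply Finset.sum_congr rfl
    intro j _
    have e1 : rq G X q (pw G X I a t) j * UU G X w j * VV G X w j *
        ZMod.stdAddChar (-((n : ZMod G) * j)) =
        rq G X q (pw G X I a t) j * FF w X n (al G j) := by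
      rw [← fn_grid G X w n j]
      ring
    rw [e1, hc1, hc2]
    unfold rq pw
    by_cases hqd : qd X (al G j) = q
    · rw [if_pos hqd, hqd]
      by_cases hcond : (2 : ℝ) ^ (a + t) / 2 ^ I ≤ X * nrm ((q : ℝ) * al G j) ∧
          X * nrm ((q : ℝ) * al G j) < (2 : ℝ) ^ (a + t + 1) / 2 ^ I
      · rw [if_pos ⟨ha, hcond⟩, if_pos ⟨rfl, hcond⟩, one_mul]
      · rw [if_neg (fun h => hcond h.2), if_neg (fun h => hcond h.2), zero_mul]
    · rw [if_neg hqd, if_neg (fun h => hqd h.1), zero_mul]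
  have hkey : ∀ b ∈ rr q, ‖(1 / (G : ℂ)) * (∑ s ∈ Ico (2 ^ (a + t) * m) (2 ^ (a + t + 1) * m),
          FF w X n ((b : ℝ) / q + (s : ℝ) / G) +
        ∑ s ∈ Ico (2 ^ (a + t) * m) (2 ^ (a + t + 1) * m),
          FF w X n ((b : ℝ) / q - (s : ℝ) / G)) -
      ((∫ x in ((2 : ℝ) ^ (a + t) / (2 ^ I * q) / X)..(2 * ((2 : ℝ) ^ (a + t) / (2 ^ I * q)) / X),
          FF w X n ((b : ℝ) / q + x)) +
        ∫ x in ((2 : ℝ) ^ (a + t) / (2 ^ I * q) / X)..(2 * ((2 : ℝ) ^ (a + t) / (2 ^ I * q)) / X),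
          FF w X n ((b : ℝ) / q - x))‖ ≤
      2 * ((X : ℝ) ^ 4 * (((2 ^ (a + t + 1) * m : ℕ) : ℝ) - ((2 ^ (a + t) * m : ℕ) : ℝ)) /
        (G : ℝ) ^ 2) := by
    intro b _
    rw [hu, hv]
    have r1 := riem (fun x => FF w X n ((b : ℝ) / q + x)) ((X : ℝ) ^ 4) (fun x y => by
      have h := hlip ((b : ℝ) / q + x) ((b : ℝ) / q + y)
      rw [add_sub_add_left_eq_sub] at h
      exact h) G hG0 (2 ^ (a + t) * m) (2 ^ (a + t + 1) * m) h12
    have r2 := riem (fun x => FF w X n ((b : ℝ) / q - x)) ((X : ℝ) ^ 4) (fun x y => by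
      have h := hlip ((b : ℝ) / q - x) ((b : ℝ) / q - y)
      rw [sub_sub_sub_cancel_left, abs_sub_comm y x] at h
      exact h) G hG0 (2 ^ (a + t) * m) (2 ^ (a + t + 1) * m) h12
    rw [mul_add, add_sub_add_comm]
    refine (norm_add_le _ _).trans ?_
    linarith
  have harc : Pv G X w (rq G X q (pw G X I a t)) n -
      arc (FF w X n) X q ((2 : ℝ) ^ (a + t) / (2 ^ I * q)) (2 * ((2 : ℝ) ^ (a + t) / (2 ^ I * q))) =
      ∑ b ∈ rr q, ((1 / (G : ℂ)) * (∑ s ∈ Ico (2 ^ (a + t) * m) (2 ^ (a + t + 1) * m),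
          FF w X n ((b : ℝ) / q + (s : ℝ) / G) +
        ∑ s ∈ Ico (2 ^ (a + t) * m) (2 ^ (a + t + 1) * m),
          FF w X n ((b : ℝ) / q - (s : ℝ) / G)) -
      ((∫ x in ((2 : ℝ) ^ (a + t) / (2 ^ I * q) / X)..(2 * ((2 : ℝ) ^ (a + t) / (2 ^ I * q)) / X),
          FF w X n ((b : ℝ) / q + x)) +
        ∫ x in ((2 : ℝ) ^ (a + t) / (2 ^ I * q) / X)..(2 * ((2 : ℝ) ^ (a + t) / (2 ^ I * q)) / X),
          FF w X n ((b : ℝ) / q - x))) := by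
    rw [hPv, Finset.sum_sub_distrib, Finset.mul_sum]
    rfl
  rw [harc]
  refine (norm_sum_le_of_le _ hkey).trans ?_
  rw [Finset.sum_const, nsmul_eq_mul]
  have hrr : (((rr q).card : ℕ) : ℝ) ≤ q := by
    have h : (rr q).card ≤ q := by
      unfold rr
      refine (Finset.card_filter_le _ _).trans ?_
      rw [Finset.card_range]
    exact_mod_cast h
  have hdiff : ((2 ^ (a + t + 1) * m : ℕ) : ℝ) - ((2 ^ (a + t) * m : ℕ) : ℝ) =
      2 ^ (a + t) * m := by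
    rw [hs1e, hs2e, pow_succ]
    ring
  rw [hdiff]
  have hX10 : (X : ℝ) ^ 10 ≤ G := by exact_mod_cast hG2
  have hle : (2 : ℝ) ^ (a + t) * 16 ≤ 2 ^ I * X := by nlinarith
  have hnn : (0 : ℝ) ≤ 2 * ((X : ℝ) ^ 4 * (2 ^ (a + t) * m) / (G : ℝ) ^ 2) := by positivity
  calc (((rr q).card : ℕ) : ℝ) * (2 * ((X : ℝ) ^ 4 * (2 ^ (a + t) * m) / (G : ℝ) ^ 2))
      ≤ q * (2 * ((X : ℝ) ^ 4 * (2 ^ (a + t) * m) / (G : ℝ) ^ 2)) :=
        mul_le_mul_of_nonneg_right hrr hnn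
    _ = 2 * (X : ℝ) ^ 3 * (X * q * m * 2 ^ (a + t)) / (G : ℝ) ^ 2 := by ring
    _ ≤ 2 * (X : ℝ) ^ 3 * (X * q * m * (2 ^ I * X)) / (G : ℝ) ^ 2 := by
        have hc : (0 : ℝ) < X * q * m := by positivity
        have hle' : (2 : ℝ) ^ (a + t) ≤ 2 ^ I * X := by
          have : (0 : ℝ) < 2 ^ (a + t) := by positivity
          linarith
        gcongr
    _ = 2 * (X : ℝ) ^ 4 * G / (G : ℝ) ^ 2 := by
        rw [show 2 * (X : ℝ) ^ 3 * (X * q * m * (2 ^ I * X)) =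
          2 * (X : ℝ) ^ 4 * (2 ^ I * (X * q) * m) by ring, ← hGe]
    _ = 2 * (X : ℝ) ^ 4 / G := by
        field_simp
    _ ≤ 1 / X := by
        rw [div_le_div_iff₀ hGr hXp]
        have h2 : (2 : ℝ) ≤ X := by exact_mod_cast hX2
        have h5 : (X : ℝ) ^ 6 ≤ X ^ 10 := pow_le_pow_right₀ hX1r (by norm_num)
        have h6 : 2 * (X : ℝ) ^ 4 * X ≤ X ^ 6 := by
          have : (0 : ℝ) ≤ X ^ 5 := by positivity
          nlinarith
        linarith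

end Pool.MP_dd84fd_nt.FA
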