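import Pool.Agent.Lib.MP_dd84fd_nt.FA.Bd

/-!
# FA-Scale (0.7 h): one scale

Proof. `bd A` gives `K1`, `K2`; `greedy (A + 4) K1 K2` gives `C` (`K1`, `K2` depend on `A` only). `ε' = min (ε/2) (1/2)`. Given `K`: `D0` from `greedy` with `δ = ε'/4`, `D' = max D0 (A + 5)` (`≥ 1`), `A0 = A + 8`.
`I`: the least natural number with `L^(A+6) ≤ 2^I` (`exists_nat_pow_near` or `Nat.find`/`Nat.clog`), so `2^I ≤ 2 L^(A+6)` and `2^(I+1) ≤ 4 L^(A+6) ≤ L^(A+8)`. `G = gg X`, `grid_gg` (`haveI : NeZero (gg X) := ⟨..⟩`). `D` from `greedy`.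
Let `n ∈ Icc 1 X`, `X < 2n`, `n` even, no `d ∈ D` divides `n`, `Exc A n`. If `n ∉ Bset a t` for all `(a, t)`, then `bd` gives `|g n - conv2| ≤ X/(4 L^A)`, `LS.point_close A D'` gives `|conv2 - SS n JJ n| ≤ X/(4 L^A)`,
together `≤ X/(2 L^A) < n/(log n)^A` (`log n ≤ L`; `0 < log n`): contradiction with `Exc A n`. So the exceptional set is in `⋃ Bset a t`, and `#(Bset a t) ≤ X^(1/2+ε')` by `GX.tree (A + 4) ε' (ε'/8) D'` with `V = VV G X w` (`vb_VV`), `b = a + (t - I)`, `pw_wt`.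
The number of pairs is `≤ 8 L²`, `8 L² X^(1/2+ε') ≤ X^(1/2+ε)`.
-/

set_option autoImplicit false

namespace Pool.MP_dd84fd_nt.FA

open Finset Pool.MP_67663b_nt.Odd Pool.MP_dd84fd_nt.En Pool.MP_dd84fd_nt.E2 Pool.MP_dd84fd_nt.LS
  Pool.MP_dd84fd_nt.GX

open Pool.MP_dd84fd_nt.L2G (nrm)

open Pool.MP_dd84fd_nt.PL (W FF rr)

private lemma sc_ev_pow (c : ℝ) (k : ℕ) {η : ℝ} (hη : 0 < η) :
    ∀ᶠ X : ℕ in Filter.atTop, c * (Real.log X) ^ k ≤ (X : ℝ) ^ η := by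
  have h1 := isLittleO_log_rpow_rpow_atTop (k : ℝ) hη
  have h2 := h1.bound (c := (|c| + 1)⁻¹) (by positivity)
  have h3 := tendsto_natCast_atTop_atTop (R := ℝ) |>.eventually h2
  have h4 : ∀ᶠ X : ℕ in Filter.atTop, 1 ≤ X := Filter.eventually_ge_atTop 1
  filter_upwards [h3, h4] with X h5 h6
  have hX : (1 : ℝ) ≤ X := by exact_mod_cast h6
  have hL : 0 ≤ Real.log X := Real.log_nonneg hX
  rw [Real.rpow_natCast, Real.norm_of_nonneg (by positivity), Real.norm_of_nonneg (by positivity),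
    inv_mul_eq_div, le_div_iff₀ (by positivity)] at h5
  have h7 : c ≤ |c| + 1 := (le_abs_self c).trans (by linarith)
  nlinarith [mul_le_mul_of_nonneg_right h7 (pow_nonneg hL k)]

private lemma sc_ev_log (c : ℝ) : ∀ᶠ X : ℕ in Filter.atTop, c ≤ Real.log X :=
  (Real.tendsto_log_atTop.comp (tendsto_natCast_atTop_atTop (R := ℝ))).eventually_ge_atTop c

private lemma sc_I (A : ℕ) (L : ℝ) (hL : 2 ≤ L) :
    ∃ I : ℕ, L ^ (A + 6) ≤ (2 : ℝ) ^ I ∧ (2 : ℝ) ^ (I + 1) ≤ L ^ (A + 8) := by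
  have h1 : (1 : ℝ) ≤ L ^ (A + 6) := one_le_pow₀ (by linarith)
  obtain ⟨m, hm1, hm2⟩ := exists_nat_pow_near h1 (show (1 : ℝ) < 2 by norm_num)
  refine ⟨m + 1, hm2.le, ?_⟩
  have h2 : (2 : ℝ) ^ (m + 1 + 1) = 4 * 2 ^ m := by rw [pow_succ, pow_succ]; ring
  have h3 : L ^ (A + 8) = L ^ 2 * L ^ (A + 6) := by rw [← pow_add]; congr 1; omega
  rw [h2, h3]
  have h4 : (4 : ℝ) ≤ L ^ 2 := by nlinarith
  exact mul_le_mul h4 hm1 (by positivity) (by positivity)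

private lemma sc_log (X : ℕ) (hX : X ≠ 0) (hL : 2 ≤ Real.log X) :
    ((Nat.log 2 X + 1 : ℕ) : ℝ) ≤ 2 * Real.log X := by
  have h1 : (2 : ℝ) ^ (Nat.log 2 X) ≤ X := by exact_mod_cast Nat.pow_log_le_self 2 hX
  have h2 : Real.log ((2 : ℝ) ^ (Nat.log 2 X)) ≤ Real.log X := Real.log_le_log (by positivity) h1
  rw [Real.log_pow] at h2
  have h3 := Real.log_two_gt_d9
  have h4 : (0 : ℝ) ≤ (Nat.log 2 X : ℝ) := Nat.cast_nonneg _
  push_cast
  nlinarith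

private lemma sc_pairs (A X I : ℕ) (hX : X ≠ 0) (hL : 2 ≤ Real.log X)
    (hI : (2 : ℝ) ^ (I + 1) ≤ (Real.log X) ^ (A + 8)) :
    (((range (Nat.log 2 X + 1)) ×ˢ (range (I + Nat.log 2 X + 1))).card : ℝ) ≤
      4 * (Real.log X) ^ (A + 9) := by
  have h1 := sc_log X hX hL
  have h2 : (I : ℝ) ≤ (2 : ℝ) ^ (I + 1) := by
    have : I < 2 ^ (I + 1) := (Nat.lt_succ_self I).trans Nat.lt_two_pow_self
    exact_mod_cast this.le
  have h3 : 2 * Real.log X ≤ (Real.log X) ^ (A + 8) := by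
    have h4 : (Real.log X) ^ 2 ≤ (Real.log X) ^ (A + 8) := pow_le_pow_right₀ (by linarith) (by omega)
    nlinarith
  rw [card_product, card_range, card_range]
  have h5 : ((I + Nat.log 2 X + 1 : ℕ) : ℝ) ≤ 2 * (Real.log X) ^ (A + 8) := by
    have : ((I + Nat.log 2 X + 1 : ℕ) : ℝ) = I + ((Nat.log 2 X + 1 : ℕ) : ℝ) := by
      push_cast
      ring
    rw [this]
    linarith
  rw [Nat.cast_mul]
  calc ((Nat.log 2 X + 1 : ℕ) : ℝ) * ((I + Nat.log 2 X + 1 : ℕ) : ℝ)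
      ≤ (2 * Real.log X) * (2 * (Real.log X) ^ (A + 8)) :=
        mul_le_mul h1 h5 (Nat.cast_nonneg _) (by linarith)
    _ = 4 * (Real.log X) ^ (A + 9) := by rw [pow_succ (Real.log X) (A + 8)]; ring

theorem scale (A : ℕ) (ε : ℝ) (hε : 0 < ε) : ∃ C : ℕ, ∀ K : ℕ, ∃ X0 : ℕ, ∀ X : ℕ, X0 ≤ X →
    ∃ D : Finset ℕ, (D.card : ℝ) ≤ (Real.log X) ^ C ∧
      (∀ d ∈ D, (Real.log X) ^ K ≤ (d : ℝ) ∧ (d : ℝ) ≤ (X : ℝ) ^ (1 / 2 : ℝ)) ∧
      (((Icc 1 X).filter (fun n => X < 2 * n ∧ Even n ∧ (∀ d ∈ D, ¬ d ∣ n) ∧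
        (n : ℝ) / (Real.log n) ^ A < |(g n : ℝ) - SS n * JJ n|)).card : ℝ) ≤
        (X : ℝ) ^ (1 / 2 + ε) := by
  obtain ⟨K1, K2, hbd⟩ := bd A
  obtain ⟨C, hC⟩ := greedy (A + 4) K1 K2
  refine ⟨C, fun K => ?_⟩
  obtain ⟨e, he⟩ : ∃ e : ℝ, e = min (ε / 2) (1 / 2) := ⟨_, rfl⟩
  have he0 : 0 < e := by rw [he]; exact lt_min (by positivity) (by norm_num)
  have he1 : e ≤ ε / 2 := by rw [he]; exact min_le_left _ _
  have he2 : e ≤ 1 / 2 := by rw [he]; exact min_le_right _ _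
  obtain ⟨D0, hD0⟩ := hC K (e / 4) (by positivity)
  obtain ⟨D', hD'⟩ : ∃ D' : ℕ, D' = max D0 (A + 5) := ⟨_, rfl⟩
  have hD'0 : D0 ≤ D' := by rw [hD']; exact le_max_left _ _
  have hD'A : A + 5 ≤ D' := by rw [hD']; exact le_max_right _ _
  have hD'1 : 1 ≤ D' := by omega
  obtain ⟨X1, hX1⟩ := hD0 D' hD'0
  obtain ⟨X2, hX2⟩ := hbd e D' (A + 8) he0 he2 hD'1
  obtain ⟨X3, hX3⟩ := point_close A D' hD'A
  obtain ⟨X4, -, hX4⟩ := grid_gg
  obtain ⟨X5, hX5⟩ := tree (A + 4) e (e / 8) he0 (by positivity) D' hD'1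
  obtain ⟨X6, hX6⟩ := vb_VV D'
  obtain ⟨X7, hX7⟩ := Filter.eventually_atTop.1
    ((sc_ev_pow 4 (A + 9) (show 0 < ε / 2 by positivity)).and (sc_ev_log 2))
  refine ⟨X1 + X2 + X3 + X4 + X5 + X6 + X7 + 3, fun X hX => ?_⟩
  obtain ⟨hpw, hL2⟩ := hX7 X (by omega)
  obtain ⟨hgrid, hG0⟩ := hX4 X (by omega)
  have : NeZero (gg X) := ⟨hG0⟩
  obtain ⟨D, hDc, hDd, hDs⟩ := hX1 X (by omega)
  refine ⟨D, hDc, hDd, ?_⟩
  have hXn0 : X ≠ 0 := by omega
  have hX1n : 1 ≤ X := by omega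
  have hX1r : (1 : ℝ) ≤ X := by exact_mod_cast hX1n
  have hX0r : (0 : ℝ) < X := by linarith
  have hL0 : 0 < Real.log X := by linarith
  obtain ⟨I, hI1, hI2⟩ := sc_I A (Real.log X) hL2
  have hw : (wX D' X : ℝ) ≤ (Real.log X) ^ D' := Nat.floor_le (by positivity)
  have hVB : VB (gg X) X (VV (gg X) X (wX D' X)) := hX6 X (by omega) (gg X) hgrid.1 _ hw
  have hsub : (Icc 1 X).filter (fun n => X < 2 * n ∧ Even n ∧ (∀ d ∈ D, ¬ d ∣ n) ∧
      (n : ℝ) / (Real.log n) ^ A < |(g n : ℝ) - SS n * JJ n|) ⊆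
      ((range (Nat.log 2 X + 1)) ×ˢ (range (I + Nat.log 2 X + 1))).biUnion
        (fun p => Bset (gg X) X (wX D' X) I p.1 p.2 (A + 4) e) := by
    intro n hn
    obtain ⟨hn1, hn2, hn3, hn4, hn5⟩ := mem_filter.1 hn
    by_contra hcon
    have hnot : ∀ a ∈ range (Nat.log 2 X + 1), ∀ t ∈ range (I + Nat.log 2 X + 1),
        n ∉ Bset (gg X) X (wX D' X) I a t (A + 4) e := by
      intro a ha t ht hmem
      exact hcon (mem_biUnion.2 ⟨(a, t), mem_product.2 ⟨ha, ht⟩, hmem⟩)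
    obtain ⟨hn1a, hn1b⟩ := mem_Icc.1 hn1
    have hb := hX2 X (by omega) (gg X) hgrid n hn2 hn1b I hI2 hI1 hnot (hDs n hn1 hn4)
    have hp := hX3 X (by omega) n hn3 (by omega) hn1b
    have hn2' : 2 ≤ n := by
      obtain ⟨k, hk⟩ := hn3
      omega
    have hnr2 : (2 : ℝ) ≤ n := by exact_mod_cast hn2'
    have hnrX : (n : ℝ) ≤ X := by exact_mod_cast hn1b
    have hXn : (X : ℝ) < 2 * n := by exact_mod_cast hn2
    have hlogn : 0 < Real.log n := Real.log_pos (by linarith)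
    have hlognL : Real.log n ≤ Real.log X := Real.log_le_log (by linarith) hnrX
    have h1 : |(g n : ℝ) - SS n * JJ n| ≤ X / (4 * (Real.log X) ^ A) + X / (4 * (Real.log X) ^ A) := by
      have h2 : (g n : ℝ) - SS n * JJ n =
          ((g n : ℝ) - conv2 (wX D' X) n) + (conv2 (wX D' X) n - SS n * JJ n) := by ring
      rw [h2]
      exact (abs_add_le _ _).trans (add_le_add hb hp)
    have h3 : (X : ℝ) / (4 * (Real.log X) ^ A) + X / (4 * (Real.log X) ^ A) =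
        (X / 2) / (Real.log X) ^ A := by
      have : (Real.log X) ^ A ≠ 0 := by positivity
      field_simp
      norm_num
    have h4 : ((X : ℝ) / 2) / (Real.log X) ^ A ≤ (n : ℝ) / (Real.log n) ^ A := by
      apply div_le_div₀ (by linarith) (by linarith) (by positivity)
      exact pow_le_pow_left₀ hlogn.le hlognL A
    rw [h3] at h1
    linarith
  have hcard : ∀ p ∈ (range (Nat.log 2 X + 1)) ×ˢ (range (I + Nat.log 2 X + 1)),
      ((Bset (gg X) X (wX D' X) I p.1 p.2 (A + 4) e).card : ℝ) ≤ (X : ℝ) ^ (1 / 2 + e) := by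
    intro p _
    refine hX5 X (by omega) (gg X) hgrid.1 (VV (gg X) X (wX D' X)) hVB p.1 (p.1 + (p.2 - I))
      (pw (gg X) X I p.1 p.2) ?_ _ ?_ ?_
    · exact pw_wt X (gg X) I p.1 p.2 hX1n
    · intro n hn
      classical
      unfold Bset at hn
      exact (mem_filter.1 hn).1
    · intro n hn
      classical
      unfold Bset at hn
      exact (mem_filter.1 hn).2
  have h10 : (((Icc 1 X).filter (fun n => X < 2 * n ∧ Even n ∧ (∀ d ∈ D, ¬ d ∣ n) ∧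
        (n : ℝ) / (Real.log n) ^ A < |(g n : ℝ) - SS n * JJ n|)).card : ℝ) ≤
      ∑ p ∈ (range (Nat.log 2 X + 1)) ×ˢ (range (I + Nat.log 2 X + 1)),
        ((Bset (gg X) X (wX D' X) I p.1 p.2 (A + 4) e).card : ℝ) := by
    have := (card_le_card hsub).trans card_biUnion_le
    exact_mod_cast this
  refine h10.trans ((sum_le_sum hcard).trans ?_)
  rw [sum_const, nsmul_eq_mul]
  have h11 := sc_pairs A X I hXn0 hL2 hI2
  have h12 : (X : ℝ) ^ (1 / 2 + e) ≤ (X : ℝ) ^ (1 / 2 + ε / 2) :=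
    Real.rpow_le_rpow_of_exponent_le hX1r (by linarith)
  calc (((range (Nat.log 2 X + 1)) ×ˢ (range (I + Nat.log 2 X + 1))).card : ℝ) *
        (X : ℝ) ^ (1 / 2 + e)
      ≤ (X : ℝ) ^ (ε / 2) * (X : ℝ) ^ (1 / 2 + ε / 2) :=
        mul_le_mul (h11.trans hpw) h12 (by positivity) (by positivity)
    _ = (X : ℝ) ^ (1 / 2 + ε) := by
        rw [← Real.rpow_add hX0r]
        congr 1
        ring

end Pool.MP_dd84fd_nt.FA
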