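import Pool.Agent.Lib.MP_dd84fd_nt.FA.Defs
import Pool.Agent.Lib.MP_dd84fd_nt.GX.Den

/-!
# FA-Split (0.7 h): the pieces

`GX.qd_spec`, `GX.ht_spec`. `d = qd X (al G j)`, `a = Nat.log 2 d` (`2^a ≤ d < 2^(a+1)`), `d ≤ Nat.sqrt X ≤ X`, so `a ≤ Nat.log 2 X`. `y = X nrm (d al) 2^I/2^a`, `0 ≤ y`.
If `y < 1` then `cw = 1` and all `pw = 0` (`2^(a'+t)/2^I ≤ X nrm` is false for `a' = a`). If `y ≥ 1`: `cw = 0`, `t = Nat.log 2 ⌊y⌋₊` is the only `t` with `2^t ≤ y < 2^(t+1)`, and `t < I + Nat.log 2 X + 1` since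
`y ≤ √X 2^I < 2^(I + log_2 X + 1)`. (Or: `exists_nat_pow_near` gives `t`; uniqueness: `2^t ≤ y < 2^(t'+1)` gives `t < t' + 1`.) `ph_split`: linearity of `Ph` in `ω`.
`pw_wt`: `b = a + (t - I)`. If `I ≤ t` : `2^(a+t)/2^I = 2^b`, so `2^b ≤ X nrm < 2^(b+1)`, `d < 2^(a+1) ≤ 2^(b+1)`. If `t < I`: `b = a`, `X nrm < 2^(a+t+1)/2^I ≤ 2^a < 2^(a+1)`, `2^a ≤ d < 2^(a+1)`; `ht = max d (X nrm)`.
`ph_fam`: for every `j`: `pw j = rs .. j + Σ_{q ∈ fam} rq q j`: both sides are `0` unless `pw j = 1`, then `d ∈ [2^a, 2^(a+1))` and `d ∈ fam ↔ ¬ (X^(ε/8) Λ < lcm d Λ)`.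
-/

set_option autoImplicit false

namespace Pool.MP_dd84fd_nt.FA

open Finset Pool.MP_67663b_nt.Odd Pool.MP_dd84fd_nt.En Pool.MP_dd84fd_nt.E2 Pool.MP_dd84fd_nt.LS
  Pool.MP_dd84fd_nt.GX

open Pool.MP_dd84fd_nt.L2G (nrm)

open Pool.MP_dd84fd_nt.PL (W FF rr)

/-- the bounds for `z = X ‖d α‖` -/
private theorem split_z (X : ℕ) (hX : 1 ≤ X) (α : ℝ) :
    0 ≤ (X : ℝ) * nrm ((qd X α : ℝ) * α) ∧ (X : ℝ) * nrm ((qd X α : ℝ) * α) ≤ X := by
  obtain ⟨h1, h2, h3, -⟩ := qd_spec X hX α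
  have hX0 : (0 : ℝ) < X := by exact_mod_cast hX
  have hn : 0 ≤ nrm ((qd X α : ℝ) * α) := abs_nonneg _
  refine ⟨mul_nonneg hX0.le hn, ?_⟩
  have h4 : nrm ((qd X α : ℝ) * α) ≤ 1 := by
    refine h3.trans ?_
    rw [div_le_one (by positivity)]
    have : (0 : ℝ) ≤ (Nat.sqrt X : ℝ) := Nat.cast_nonneg _
    linarith
  calc (X : ℝ) * nrm ((qd X α : ℝ) * α) ≤ X * 1 := mul_le_mul_of_nonneg_left h4 hX0.le
    _ = X := mul_one _

/-- the condition in `pw` -/
private def cnd (G X I a t : ℕ) (j : ZMod G) : Prop :=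
  Nat.log 2 (qd X (al G j)) = a ∧
    (2 : ℝ) ^ (a + t) / 2 ^ I ≤ X * nrm ((qd X (al G j) : ℝ) * al G j) ∧
    X * nrm ((qd X (al G j) : ℝ) * al G j) < (2 : ℝ) ^ (a + t + 1) / 2 ^ I

private theorem pw_one {G X I a t : ℕ} {j : ZMod G} (h : cnd G X I a t j) :
    pw G X I a t j = 1 := if_pos h

private theorem pw_zero {G X I a t : ℕ} {j : ZMod G} (h : ¬ cnd G X I a t j) :
    pw G X I a t j = 0 := if_neg h

private theorem cnd_unique {G X I a t t' : ℕ} {j : ZMod G} (h : cnd G X I a t j)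
    (h' : cnd G X I a t' j) : t = t' := by
  have key : ∀ s s' : ℕ, cnd G X I a s j → cnd G X I a s' j → s ≤ s' := by
    intro s s' hs hs'
    have h1 : (2 : ℝ) ^ (a + s) / 2 ^ I < (2 : ℝ) ^ (a + s' + 1) / 2 ^ I :=
      lt_of_le_of_lt hs.2.1 hs'.2.2
    have h2 : (2 : ℝ) ^ (a + s) < (2 : ℝ) ^ (a + s' + 1) :=
      (div_lt_div_iff_of_pos_right (by positivity)).1 h1
    have h3 : a + s < a + s' + 1 := (pow_lt_pow_iff_right₀ (by norm_num)).1 h2
    omega
  exact le_antisymm (key t t' h h') (key t' t h' h)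

theorem split (X G I : ℕ) [NeZero G] (hX : 1 ≤ X) (j : ZMod G) :
    cw G X I j + ∑ a ∈ range (Nat.log 2 X + 1), ∑ t ∈ range (I + Nat.log 2 X + 1),
      pw G X I a t j = 1 := by
  obtain ⟨h1, h2, h3, -⟩ := qd_spec X hX (al G j)
  obtain ⟨hz0, hzX⟩ := split_z X hX (al G j)
  by_cases hc : (X : ℝ) * nrm ((qd X (al G j) : ℝ) * al G j) <
      (2 : ℝ) ^ (Nat.log 2 (qd X (al G j))) / 2 ^ I
  · have hcw : cw G X I j = 1 := if_pos hc
    have hz : ∑ a ∈ range (Nat.log 2 X + 1), ∑ t ∈ range (I + Nat.log 2 X + 1),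
        pw G X I a t j = 0 := by
      refine Finset.sum_eq_zero fun a _ => Finset.sum_eq_zero fun t _ => pw_zero ?_
      rintro ⟨e1, e2, -⟩
      subst e1
      have e3 : (2 : ℝ) ^ (Nat.log 2 (qd X (al G j))) / 2 ^ I ≤
          (2 : ℝ) ^ (Nat.log 2 (qd X (al G j)) + t) / 2 ^ I := by
        refine div_le_div_of_nonneg_right ?_ (by positivity)
        exact pow_le_pow_right₀ (by norm_num) (by omega)
      linarith
    rw [hcw, hz, add_zero]
  · have hcw : cw G X I j = 0 := if_neg hc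
    have hc' := not_lt.1 hc
    obtain ⟨a, ha⟩ : ∃ a, Nat.log 2 (qd X (al G j)) = a := ⟨_, rfl⟩
    rw [ha] at hc'
    obtain ⟨z, hz⟩ : ∃ z, (X : ℝ) * nrm ((qd X (al G j) : ℝ) * al G j) = z := ⟨_, rfl⟩
    rw [hz] at hc' hz0 hzX
    have h2a : (0 : ℝ) < 2 ^ a := by positivity
    have h2I : (0 : ℝ) < 2 ^ I := by positivity
    have hy1 : 1 ≤ z * 2 ^ I / 2 ^ a := by
      rw [le_div_iff₀ h2a, one_mul]
      exact (div_le_iff₀ h2I).1 hc'
    obtain ⟨t, ht1, ht2⟩ := exists_nat_pow_near hy1 (by norm_num : (1 : ℝ) < 2)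
    have hcnd : cnd G X I a t j := by
      refine ⟨ha, ?_, ?_⟩
      · rw [hz, div_le_iff₀ h2I, pow_add]
        have := (le_div_iff₀ h2a).1 ht1
        linarith
      · rw [hz, lt_div_iff₀ h2I, add_assoc, pow_add]
        have := (div_lt_iff₀ h2a).1 ht2
        linarith
    have haX : a ∈ range (Nat.log 2 X + 1) := by
      rw [mem_range, ← ha]
      have : Nat.log 2 (qd X (al G j)) ≤ Nat.log 2 X :=
        Nat.log_mono_right (h2.trans (Nat.sqrt_le_self X))
      omega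
    have htX : t ∈ range (I + Nat.log 2 X + 1) := by
      rw [mem_range]
      have e1 : (X : ℝ) < 2 ^ (Nat.log 2 X + 1) := by
        exact_mod_cast Nat.lt_pow_succ_log_self (by norm_num : 1 < 2) X
      have e2 : (2 : ℝ) ^ t < 2 ^ (I + Nat.log 2 X + 1) := by
        calc (2 : ℝ) ^ t ≤ z * 2 ^ I / 2 ^ a := ht1
          _ ≤ z * 2 ^ I := by
            apply div_le_self (by positivity)
            exact one_le_pow₀ (by norm_num)
          _ ≤ X * 2 ^ I := mul_le_mul_of_nonneg_right hzX h2I.le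
          _ < 2 ^ (Nat.log 2 X + 1) * 2 ^ I := mul_lt_mul_of_pos_right e1 h2I
          _ = 2 ^ (I + Nat.log 2 X + 1) := by
            rw [← pow_add]
            congr 1
            omega
      exact (pow_lt_pow_iff_right₀ (by norm_num)).1 e2
    rw [hcw, zero_add, Finset.sum_eq_single_of_mem a haX, Finset.sum_eq_single_of_mem t htX,
      pw_one hcnd]
    · intro t' _ hne
      exact pw_zero fun h => hne (cnd_unique h hcnd)
    · intro a' _ hne
      refine Finset.sum_eq_zero fun t' _ => pw_zero fun h => hne ?_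
      rw [← h.1, ha]

/-- `Pv` is a linear form in `ω` -/
private theorem pv_lin (G X w : ℕ) [NeZero G] (n : ℕ) : ∃ C : ZMod G → ℂ, ∀ ω : ZMod G → ℂ,
    Pv G X w ω n = ∑ j : ZMod G, ω j * C j := by
  refine ⟨fun j => (1 / (G : ℂ)) * (UU G X w j * VV G X w j *
    ZMod.stdAddChar (-((n : ZMod G) * j))), fun ω => ?_⟩
  unfold Pv Ph
  rw [Finset.mul_sum]
  refine Finset.sum_congr rfl fun j _ => ?_
  ring

theorem ph_split (X G w I : ℕ) [NeZero G] (hX : 1 ≤ X) (n : ℕ) :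
    Pv G X w (fun _ => 1) n = Pv G X w (cw G X I) n +
      ∑ a ∈ range (Nat.log 2 X + 1), ∑ t ∈ range (I + Nat.log 2 X + 1),
        Pv G X w (pw G X I a t) n := by
  obtain ⟨C, hC⟩ := pv_lin G X w n
  simp only [hC]
  have h1 : ∀ j : ZMod G, (1 : ℂ) * C j = cw G X I j * C j +
      ∑ a ∈ range (Nat.log 2 X + 1), ∑ t ∈ range (I + Nat.log 2 X + 1),
        pw G X I a t j * C j := by
    intro j
    rw [← split X G I hX j, add_mul, Finset.sum_mul]
    congr 1
    refine Finset.sum_congr rfl fun a _ => ?_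
    rw [Finset.sum_mul]
  rw [Finset.sum_congr rfl (fun j _ => h1 j), Finset.sum_add_distrib]
  congr 1
  rw [Finset.sum_comm]
  refine Finset.sum_congr rfl fun a _ => ?_
  rw [Finset.sum_comm]

theorem pw_wt (X G I a t : ℕ) [NeZero G] (hX : 1 ≤ X) : Wt G X a (a + (t - I)) (pw G X I a t) := by
  refine ⟨fun j => ?_, fun j hj => ?_⟩
  · by_cases h : cnd G X I a t j
    · rw [pw_one h, norm_one]
    · rw [pw_zero h, norm_zero]
      norm_num
  · have h : cnd G X I a t j := by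
      by_contra hc
      exact hj (pw_zero hc)
    obtain ⟨h1, h2, h3⟩ := h
    obtain ⟨k1, -, -, -⟩ := qd_spec X hX (al G j)
    obtain ⟨-, -, k2, k3⟩ := ht_spec X hX (al G j)
    have hlow : 2 ^ a ≤ qd X (al G j) := by
      rw [← h1]
      exact Nat.pow_log_le_self 2 (by omega)
    have hup : qd X (al G j) < 2 ^ (a + 1) := by
      rw [← h1]
      exact Nat.lt_pow_succ_log_self (by norm_num) _
    have hlowR : (2 : ℝ) ^ a ≤ qd X (al G j) := by exact_mod_cast hlow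
    have hupR : (qd X (al G j) : ℝ) < 2 ^ (a + 1) := by exact_mod_cast hup
    have hht : ht X (al G j) =
        max (qd X (al G j) : ℝ) (X * nrm ((qd X (al G j) : ℝ) * al G j)) := rfl
    refine ⟨hlow, hup, ?_, ?_⟩
    · rcases Nat.lt_or_ge t I with htI | htI
      · have e1 : a + (t - I) = a := by omega
        rw [e1]
        exact hlowR.trans k2
      · have e1 : (2 : ℝ) ^ (a + t) / 2 ^ I = 2 ^ (a + (t - I)) := by
          rw [div_eq_iff (by positivity), ← pow_add]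
          congr 1
          omega
        rw [← e1]
        exact h2.trans k3
    · rw [hht]
      refine max_lt ?_ ?_
      · exact hupR.trans_le (pow_le_pow_right₀ (by norm_num) (by omega))
      · refine h3.trans_le ?_
        rw [div_le_iff₀ (by positivity), ← pow_add]
        exact pow_le_pow_right₀ (by norm_num) (by omega)

/-- the denominators that remain -/
noncomputable def fam (X Λ a : ℕ) (ε : ℝ) : Finset ℕ :=
  (Ico (2 ^ a) (2 ^ (a + 1))).filter (fun q => (Nat.lcm q Λ : ℝ) ≤ (X : ℝ) ^ (ε / 8) * Λ)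

theorem ph_fam (X G w I a t Λ : ℕ) [NeZero G] (hX : 1 ≤ X) (ε : ℝ) (n : ℕ) :
    Pv G X w (pw G X I a t) n = Pv G X w (rs G X Λ (ε / 8) (pw G X I a t)) n +
      ∑ q ∈ fam X Λ a ε, Pv G X w (rq G X q (pw G X I a t)) n := by
  obtain ⟨C, hC⟩ := pv_lin G X w n
  simp only [hC]
  have h1 : ∀ j : ZMod G, pw G X I a t j = rs G X Λ (ε / 8) (pw G X I a t) j +
      ∑ q ∈ fam X Λ a ε, rq G X q (pw G X I a t) j := by
    intro j
    unfold rq rs
    by_cases hj : pw G X I a t j = 0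
    · rw [hj]
      simp
    · obtain ⟨e1, e2, -⟩ := (pw_wt X G I a t hX).2 j hj
      rw [Finset.sum_ite_eq]
      by_cases hl : (X : ℝ) ^ (ε / 8) * Λ < (Nat.lcm (qd X (al G j)) Λ : ℝ)
      · rw [if_pos hl, if_neg, add_zero]
        intro hm
        have := (Finset.mem_filter.1 hm).2
        linarith
      · rw [if_neg hl, if_pos, zero_add]
        exact Finset.mem_filter.2 ⟨Finset.mem_Ico.2 ⟨e1, e2⟩, not_lt.1 hl⟩
  have h2 : ∀ j : ZMod G, pw G X I a t j * C j =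
      rs G X Λ (ε / 8) (pw G X I a t) j * C j +
      ∑ q ∈ fam X Λ a ε, rq G X q (pw G X I a t) j * C j := by
    intro j
    conv_lhs => rw [h1 j]
    rw [add_mul, Finset.sum_mul]
  rw [Finset.sum_congr rfl (fun j _ => h2 j), Finset.sum_add_distrib, Finset.sum_comm (s := univ)]

end Pool.MP_dd84fd_nt.FA
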